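import Pool.Agent.Q273.AD.Stm
import Pool.Agent.Q273.MV.P2

/-!
# Statements of the lemmas of the project AD, over the rational numbers
-/

set_option autoImplicit false

open MeasureTheory NumberField NumberField.mixedEmbedding
open IsDedekindDomain Pool.Agent.H691R3 Pool.Agent.W232.VA

namespace Q273.AD

/-- the product of the rings of `p`-adic integers over all primes `p`, with the product topology -/
abbrev ZHat : Type := (p : Nat.Primes) → @PadicInt p.1 ⟨p.2⟩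

/-- the proximity function at the prime `p`: `log max (1, 1 / |η_p - y|_p)` -/
noncomputable def mp (η : ZHat) (p : Nat.Primes) (y : ℚ) : ℝ :=
  haveI : Fact p.1.Prime := ⟨p.2⟩
  Real.log (max 1 ‖((η p : ℤ_[p.1]) : ℚ_[p.1]) - (y : ℚ_[p.1])‖⁻¹)

open scoped Classical in
/-- job TRQ: transfer from the finite adeles of `ℚ` to the product of the rings `ℤ_p` -/
def S_TRQ : Prop :=
  ∃ e : HeightOneSpectrum (𝓞 ℚ) ≃ Nat.Primes, (∀ v, Nv v = ((e v : ℕ) : ℝ)) ∧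
  ∀ [MeasurableSpace ZHat] [BorelSpace ZHat] (μ : Measure ZHat) [IsFiniteMeasure μ]
    [μ.IsAddLeftInvariant] (Q : (Fin 1 → mixedSpace ℚ) × FinAd ℚ 1 → Prop),
    (∀ [MeasurableSpace (FinAd ℚ 1)] [BorelSpace (FinAd ℚ 1)] (ν : Measure (FinAd ℚ 1))
      [IsFiniteMeasure ν] [ν.IsAddLeftInvariant],
      ∀ᵐ p : (Fin 1 → mixedSpace ℚ) × FinAd ℚ 1 ∂(volume.prod ν), Q p) →
    ∀ᵐ u : ℝ × ZHat ∂(volume.prod μ), ∃ p : (Fin 1 → mixedSpace ℚ) × FinAd ℚ 1, Q p ∧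
      (∀ (w : InfinitePlace ℚ) (y : ℚ), (w.mult : ℝ) * pw p.1 w (fun _ => y) =
        Real.log (max 1 |u.1 - (y : ℝ)|⁻¹)) ∧
      ∀ (v : HeightOneSpectrum (𝓞 ℚ)) (y : ℚ), pv v (p.2 v) (fun _ => y) = mp u.2 (e v) y

/-- the three points `0, 1, ∞` of the projective line -/
def al (K : Type) [Field K] : Fin 3 → K × K := ![(0, 1), (1, 1), (1, 0)]

/-- the radical -/
def Rd (m : ℕ) : ℕ := ∏ p ∈ m.primeFactors, p

/-- job CNVQ: the losses over `ℚ` are the losses of the radicals -/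
def S_CNVQ : Prop :=
  ∀ r : ℚ, r ≠ 0 → r ≠ 1 →
    Q273.MV.hh r = Real.log ((max r.num.natAbs r.den : ℕ) : ℝ) ∧
    Q273.MV.hh r - Q273.MV.sI ∅ (al ℚ 0) r = Real.log (Rd r.num.natAbs) ∧
    Q273.MV.hh r - Q273.MV.sI ∅ (al ℚ 1) r = Real.log (Rd (r.num - r.den).natAbs) ∧
    Q273.MV.hh r - Q273.MV.sI ∅ (al ℚ 2) r = Real.log (Rd r.den)

end Q273.AD
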