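import Pool.Agent.Q273.AD.P1
import Pool.Agent.Q273.AD.StmQ

/-!
# The three points `0, 1, ∞`
-/

set_option autoImplicit false
set_option linter.unusedSectionVars false

namespace Q273.ADG

open MeasureTheory NumberField IsDedekindDomain Finset Pool.Agent.H691R3 Height
open Pool.Agent.W232.VA NumberField.mixedEmbedding NumberField.InfinitePlace
open Q273.MV (prox Gen vec hh hh_nonneg sI kap Pts)
open Q273.AD

lemma Pts_al (K : Type) [Field K] : Pts (Q273.AD.al K) := by
  constructor
  · intro i h
    fin_cases i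
    · exact one_ne_zero (congrArg Prod.snd h)
    · exact one_ne_zero (congrArg Prod.snd h)
    · exact one_ne_zero (congrArg Prod.fst h)
  · intro i j hij
    fin_cases i <;> fin_cases j <;> simp [Q273.AD.al] at hij ⊢

lemma kap3 : kap 3 = 1 := by
  unfold kap
  norm_num

lemma off_al {K : Type} [Field K] {r : K} (h0 : r ≠ 0) (h1 : r ≠ 1) :
    ∀ l, r * (Q273.AD.al K l).2 - 1 * (Q273.AD.al K l).1 ≠ 0 := by
  intro l
  fin_cases l
  · simpa [Q273.AD.al] using h0
  · simpa [Q273.AD.al] using sub_ne_zero.2 h1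
  · simp [Q273.AD.al]

lemma of_off_al {K : Type} [Field K] {r : K} (h : ∀ l, r * (Q273.AD.al K l).2 - 1 * (Q273.AD.al K l).1 ≠ 0) :
    r ≠ 0 ∧ r ≠ 1 := by
  constructor
  · have := h 0
    simpa [Q273.AD.al] using this
  · have := h 1
    intro h1
    apply this
    simp [Q273.AD.al, h1]

end Q273.ADG
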