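import Pool.Agent.Q273.AD.StmQ
import Pool.Agent.W223.AK.Main
import Pool.Agent.W223.AK.Final

/-!
# Statements of the lemmas of the project AD, second part: abc over `ℚ` and over number fields
-/

set_option autoImplicit false

open MeasureTheory NumberField NumberField.mixedEmbedding
open IsDedekindDomain Pool.Agent.H691R3 Pool.Agent.W232.VA

namespace Q273.AD

/-- the sum of `log N(v)` over the primes outside `T` dividing the coordinate `x i` more than the
other coordinates -/
noncomputable def NK {K : Type} [Field K] [NumberField K] (T : Set (HeightOneSpectrum (𝓞 K)))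
    (x : Fin 3 → K) (i : Fin 3) : ℝ :=
  ∑ᶠ (v : HeightOneSpectrum (𝓞 K)) (_ : v ∉ T ∧ FinitePlace.mk v (x i) <
    max (FinitePlace.mk v (x 0)) (max (FinitePlace.mk v (x 1)) (FinitePlace.mk v (x 2)))),
    Real.log (Ideal.absNorm v.asIdeal : ℝ)

/-- job CNVK: the losses over a number field -/
def S_CNVK : Prop :=
  ∀ (K : Type) [Field K] [NumberField K], ∃ L : ℝ, 0 ≤ L ∧
    ∀ (T : Set (HeightOneSpectrum (𝓞 K))), T.Finite → ∀ x : Fin 3 → K, (∀ i, x i ≠ 0) →
      x 0 + x 1 + x 2 = 0 →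
      |Pool.Agent.W223.AK.H3 x - Q273.MV.hh (-(x 0 / x 2))| ≤ L ∧
      (∀ i, Q273.MV.hh (-(x 0 / x 2)) - Q273.MV.sI T (al K i) (-(x 0 / x 2)) = NK T x i) ∧
      Pool.Agent.W223.AK.R3 T x = ∑ i, NK T x i

end Q273.AD
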