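import Pool.Agent.Q273.AD.AbcG
import Pool.Agent.Q273.AD.Stm2

/-!
# The abc conjecture near almost every adele, over a number field
-/

set_option autoImplicit false
set_option linter.unusedSectionVars false

namespace Q273.AD

open MeasureTheory NumberField IsDedekindDomain Finset Pool.Agent.H691R3 Height
open Pool.Agent.W232.VA NumberField.mixedEmbedding NumberField.InfinitePlace
open Q273.MV (prox Gen vec hh hh_nonneg sI kap Pts)
open Pool.Agent.W223.AK (H3 R3 final_count)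
open Q273.ADG

variable {K : Type} [Field K] [NumberField K]

/-- the points `(a : b : c)` with `a + b + c = 0`, `abc ≠ 0` -/
def IsPt (x : Fin 3 → K) : Prop := (∀ i, x i ≠ 0) ∧ x 0 + x 1 + x 2 = 0

/-- the point with affine coordinate `y` -/
def xy (y : K) : Fin 3 → K := ![-y, y - 1, 1]

lemma xy_pt {y : K} (h0 : y ≠ 0) (h1 : y ≠ 1) : IsPt (xy y) := by
  constructor
  · intro i
    fin_cases i
    · simpa [xy] using h0
    · simpa [xy] using sub_ne_zero.2 h1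
    · simp [xy]
  · simp only [xy, Matrix.cons_val]
    ring

lemma xy_aff (y : K) : -((xy y) 0 / (xy y) 2) = y := by
  simp [xy]

lemma IsPt.aff {x : Fin 3 → K} (h : IsPt x) : -(x 0 / x 2) ≠ 0 ∧ -(x 0 / x 2) ≠ 1 := by
  refine ⟨neg_ne_zero.2 (div_ne_zero (h.1 0) (h.1 2)), fun h1 => h.1 1 ?_⟩
  have h2 : x 0 = -x 2 := by
    have h3 := h.1 2
    field_simp at h1
    linear_combination -h1
  linear_combination h.2 - h2

lemma sum_sI_K (hcnv : S_CNVK) : ∃ L : ℝ, 0 ≤ L ∧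
    ∀ (T : Set (HeightOneSpectrum (𝓞 K))), T.Finite → ∀ x : Fin 3 → K, IsPt x →
      |H3 x - hh (-(x 0 / x 2))| ≤ L ∧
      (∀ i, hh (-(x 0 / x 2)) - sI T (al K i) (-(x 0 / x 2)) = NK T x i) ∧
      R3 T x = ∑ i, NK T x i ∧
      R3 T x = 3 * hh (-(x 0 / x 2)) - ∑ i, sI T (al K i) (-(x 0 / x 2)) := by
  obtain ⟨L, hL, h⟩ := hcnv K
  refine ⟨L, hL, fun T hT x hx => ?_⟩
  obtain ⟨h1, h2, h3⟩ := h T hT x hx.1 hx.2
  refine ⟨h1, h2, h3, ?_⟩
  rw [h3, Finset.sum_congr rfl fun i _ => (h2 i).symm, Finset.sum_sub_distrib, Finset.sum_const,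
    Finset.card_univ, Fintype.card_fin, nsmul_eq_mul]
  push_cast
  ring

lemma NK_nonneg (T : Set (HeightOneSpectrum (𝓞 K))) (x : Fin 3 → K) (i : Fin 3) :
    0 ≤ NK T x i := by
  unfold NK
  exact finsum_nonneg fun v => finsum_nonneg fun _ => (log_Nv_pos v).le

/-- the elements with small radical -/
def SmallR (T : Set (HeightOneSpectrum (𝓞 K))) (c : ℝ) : Set K :=
  {y : K | y ≠ 0 ∧ y ≠ 1 ∧ 3 * hh y - ∑ i, sI T (al K i) y ≤ hh y + c}

theorem countK (hcnv : S_CNVK) (T : Set (HeightOneSpectrum (𝓞 K))) (hT : T.Finite) (c ε : ℝ)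
    (hε : 0 < ε) :
    ∃ C : ℝ, ∀ X : ℝ, 1 ≤ X →
      {y : K | y ∈ SmallR T c ∧ mulHeight (vec y) ≤ X}.Finite ∧
      ({y : K | y ∈ SmallR T c ∧ mulHeight (vec y) ≤ X}.ncard : ℝ) ≤ C * X ^ (20 / 37 + ε) := by
  classical
  obtain ⟨L, hL, hcv⟩ := sum_sI_K (K := K) hcnv
  obtain ⟨D, hD, hmain⟩ := final_count (Pool.Agent.W223.AK.main K) T hT (c + L) ε hε
  refine ⟨D * Real.exp ((20 / 37 + ε) * L), fun X hX => ?_⟩
  have hX0 : 0 < X := by linarith
  have hlogX : 0 ≤ Real.log X := Real.log_nonneg hX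
  apply Q273.Apx.count_of_finset
  intro F hF
  have hinj : Set.InjOn (xy : K → Fin 3 → K) F := by
    intro y _ z _ h
    have h1 := congrFun h 0
    simpa [xy] using h1
  have hcard : (F.image xy).card = F.card := Finset.card_image_of_injOn hinj
  have h1 := hmain (Real.log X + L) (F.image xy) (by positivity) (by
    intro x hx
    obtain ⟨y, hy, rfl⟩ := Finset.mem_image.mp hx
    obtain ⟨⟨h0, h1, h2⟩, h3⟩ := hF hy
    have hpt := xy_pt h0 h1
    obtain ⟨g1, g2, g3, g4⟩ := hcv T hT (xy y) hpt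
    rw [xy_aff] at g1 g4
    have h5 : hh y ≤ Real.log X := Real.log_le_log
      (lt_of_lt_of_le one_pos (one_le_mulHeight _)) h3
    rw [abs_le] at g1
    refine ⟨hpt.1 0, hpt.1 1, hpt.1 2, hpt.2, by linarith [g1.2], ?_⟩
    rw [g4]
    linarith [g1.1]) (by
    intro x hx z hz hxz
    obtain ⟨y, hy, rfl⟩ := Finset.mem_image.mp hx
    obtain ⟨y', hy', rfl⟩ := Finset.mem_image.mp hz
    obtain ⟨⟨h0, h1, h2⟩, h3⟩ := hF hy
    obtain ⟨⟨h0', h1', h2'⟩, h3'⟩ := hF hy'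
    have e1 : y - 1 ≠ 0 := sub_ne_zero.2 h1
    have e2 : y' - 1 ≠ 0 := sub_ne_zero.2 h1'
    have e3 : -y / (y - 1) = -y' / (y' - 1) := by simpa [xy] using hxz
    rw [div_eq_div_iff e1 e2] at e3
    have : y = y' := by linear_combination e3
    rw [this])
  rw [hcard] at h1
  refine h1.trans (le_of_eq ?_)
  rw [Real.rpow_def_of_pos hX0, mul_assoc, ← Real.exp_add]
  congr 2
  ring

open scoped Classical in
/-- few exceptions -/
theorem upK (hcnv : S_CNVK) [MeasurableSpace (FinAd K 1)] [BorelSpace (FinAd K 1)]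
    (μ : Measure (FinAd K 1)) [IsFiniteMeasure μ] [μ.IsAddLeftInvariant] :
    ∀ᵐ p : (Fin 1 → mixedSpace K) × FinAd K 1 ∂(volume.prod μ),
      ∀ V : Finset (HeightOneSpectrum (𝓞 K)), ∀ T : Set (HeightOneSpectrum (𝓞 K)), T.Finite →
      ∀ c ε : ℝ, 0 < ε → ∃ B : ℝ, ∀ y : K, y ∈ SmallR T c → B ≤ hh y →
        prA V p (fun _ => y) ≤ (20 / 37 + ε) * hh y := by
  have : Countable K := Q273.Apx.countable_numberField K
  have : Countable {T : Set (HeightOneSpectrum (𝓞 K)) // T.Finite} :=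
    Q273.Apx.countable_finite_sets K
  have key : ∀ i : {T : Set (HeightOneSpectrum (𝓞 K)) // T.Finite} × ℕ,
      ∀ᵐ p : (Fin 1 → mixedSpace K) × FinAd K 1 ∂(volume.prod μ),
      ∀ V : Finset (HeightOneSpectrum (𝓞 K)), ∀ ε : ℝ, 0 < ε → ∃ C : ℝ,
      ∀ y ∈ SmallR i.1.1 (i.2 : ℝ),
        ((1 : ℕ) : ℝ) * prA V p (fun _ => y) ≤
          (20 / 37 + ε) * Real.log (mulHeight (vec y)) + C := by
    rintro ⟨⟨T, hT⟩, N⟩
    exact up1A fae' (n := 1) le_rfl μ (fun (x : K) (_ : Fin 1) => x)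
      (fun y => mulHeight (vec y)) (SmallR T (N : ℝ)) (fun x _ => one_le_mulHeight _)
      (by norm_num) (fun δ hδ => countK hcnv T hT N δ hδ)
  filter_upwards [ae_all_iff.2 key] with p hp
  intro V T hT c ε hε
  obtain ⟨N, hN⟩ := exists_nat_ge c
  obtain ⟨C, hC⟩ := hp (⟨T, hT⟩, N) V (ε / 2) (by positivity)
  refine ⟨2 * C / ε, fun y hy hB => ?_⟩
  have h1 := hC y ⟨hy.1, hy.2.1, hy.2.2.trans (by linarith)⟩
  rw [Nat.cast_one, one_mul] at h1
  have h2 : C ≤ ε / 2 * hh y := by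
    rw [div_le_iff₀ hε] at hB
    linarith
  have h3 : Real.log (mulHeight (vec y)) = hh y := rfl
  rw [h3] at h1
  linarith

/-- the statement of the theorem at the adelic point `p` (heights relative to `K`) -/
def AllK (p : (Fin 1 → mixedSpace K) × FinAd K 1) : Prop :=
  ∀ (V : Finset (HeightOneSpectrum (𝓞 K))) (T : Set (HeightOneSpectrum (𝓞 K))), T.Finite →
    (∀ c ε : ℝ, 0 < ε → ∃ B : ℝ, ∀ x : Fin 3 → K, IsPt x → B ≤ H3 x →
      (20 / 37 + ε) * H3 x ≤ prA V p (fun _ => -(x 0 / x 2)) → H3 x + c < R3 T x) ∧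
    (∀ ε : ℝ, 0 < ε → ∃ C : ℝ, ∀ x : Fin 3 → K, IsPt x →
      ((1 + ε) * H3 x ≤ prA V p (fun _ => -(x 0 / x 2)) ∨ 2 * H3 x ≤ R3 T x) →
      H3 x + prA V p (fun _ => -(x 0 / x 2)) ≤ R3 T x + ε * H3 x + C) ∧
    ∀ (τ : InfinitePlace K → ℝ) (σ : HeightOneSpectrum (𝓞 K) → ℝ) (δ : Fin 3 → ℝ),
      (∀ w, 0 ≤ τ w) → (∀ v, 0 ≤ σ v) → (∀ i, 0 ≤ δ i) → ∑ i, δ i ≤ 1 →
      ∑ w, τ w + ∑ v ∈ V, σ v + ∑ i, δ i ≤ 2 → ∀ ε : ℝ, 0 < ε → ∀ B : ℝ,
      ∃ x : Fin 3 → K, IsPt x ∧ B ≤ H3 x ∧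
        (∀ w : InfinitePlace K, |(w.mult : ℝ) * pw p.1 w (fun _ => -(x 0 / x 2)) - τ w * H3 x| ≤
          ε * H3 x) ∧
        (∀ v ∈ V, |pv v (p.2 v) (fun _ => -(x 0 / x 2)) - σ v * H3 x| ≤ ε * H3 x) ∧
        ∀ i, |NK T x i - (1 - δ i) * H3 x| ≤ ε * H3 x

/-- change of the height by a bounded amount -/
lemma abs_change' {A t h c L ε : ℝ} (hε : 0 < ε) (hε1 : ε ≤ 1) (hL : 0 ≤ L) (ht0 : 0 ≤ t)
    (ht : t ≤ 2) (h1 : |c - h| ≤ L) (hB : 8 * L / ε ≤ h)
    (hA : |A - t * h| ≤ ε / 2 * h) : |A - t * c| ≤ ε * c := by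
  have hh0 : 0 ≤ h := le_trans (by positivity) hB
  have h3 : 8 * L ≤ ε * h := by
    rw [div_le_iff₀ hε] at hB
    linarith
  rw [abs_le] at h1
  have h4 : ε * (h - L) ≤ ε * c := mul_le_mul_of_nonneg_left (by linarith [h1.1]) hε.le
  have h5 : ε * L ≤ L := by nlinarith
  have h6 : t * (c - h) ≤ 2 * L := by
    have : t * (c - h) ≤ t * L := mul_le_mul_of_nonneg_left h1.2 ht0
    nlinarith
  have h7 : -(2 * L) ≤ t * (c - h) := by
    have : t * (-L) ≤ t * (c - h) := mul_le_mul_of_nonneg_left h1.1 ht0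
    nlinarith
  rw [abs_le] at hA ⊢
  constructor
  · nlinarith [hA.1]
  · nlinarith [hA.2]

open scoped Classical in
theorem allK (hcnv : S_CNVK) [MeasurableSpace (FinAd K 1)] [BorelSpace (FinAd K 1)]
    (μ : Measure (FinAd K 1)) [IsFiniteMeasure μ] [μ.IsAddLeftInvariant] :
    ∀ᵐ p : (Fin 1 → mixedSpace K) × FinAd K 1 ∂(volume.prod μ), AllK p := by
  obtain ⟨L, hL, hcv⟩ := sum_sI_K (K := K) hcnv
  filter_upwards [upK hcnv μ, lawPA (K := K) μ, gen_aeA (K := K) (n := 1) μ] with p hp1 hp2 hgen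
  intro V T hT
  have hlaw := hp2 3 (by norm_num) (al K) (Pts_al K) T hT
  rw [kap3] at hlaw
  refine ⟨fun c ε hε => ?_, fun ε hε => ?_, fun τ σ δ hτ hσ hδ hΔ hsum ε hε B => ?_⟩
  · obtain ⟨B, hB⟩ := hp1 V T hT (c + L) (ε / 2) (by positivity)
    refine ⟨max (B + L) (4 * (20 / 37 + ε) * L / ε + 2 * L + 1), fun x hx hBx hle => ?_⟩
    by_contra hcon
    push Not at hcon
    obtain ⟨g1, _, _, g4⟩ := hcv T hT x hx
    obtain ⟨y0, y1⟩ := hx.aff
    have hB1 : B + L ≤ H3 x := (le_max_left _ _).trans hBx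
    have hB2 : 4 * (20 / 37 + ε) * L / ε + 2 * L + 1 ≤ H3 x := (le_max_right _ _).trans hBx
    have g1' := abs_le.1 g1
    have h1 := hB (-(x 0 / x 2)) ⟨y0, y1, by
      rw [← g4]
      linarith [g1'.2]⟩ (by linarith [g1'.2])
    have h2 : (20 / 37 + ε) * (hh (-(x 0 / x 2)) - L) ≤ (20 / 37 + ε) * H3 x :=
      mul_le_mul_of_nonneg_left (by linarith [g1'.1]) (by positivity)
    have h3 : 4 * (20 / 37 + ε) * L / ε < hh (-(x 0 / x 2)) := by linarith [g1'.2]
    rw [div_lt_iff₀ hε] at h3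
    have h4 : 0 ≤ (20 / 37 + ε) * L := by positivity
    nlinarith
  · obtain ⟨C, hC⟩ := hlaw V (ε / 2) (by positivity)
    set C' : ℝ := |C| + 2 * L + (4 + ε / 2) * (2 * ((1 + ε) * L) / ε) with hC'
    have hC'0 : 0 ≤ (4 + ε / 2) * (2 * ((1 + ε) * L) / ε) := by positivity
    refine ⟨C' + L + ε * L, fun x hx hle => ?_⟩
    obtain ⟨g1, _, g3, g4⟩ := hcv T hT x hx
    obtain ⟨y0, y1⟩ := hx.aff
    have g1' := abs_le.1 g1
    set y : K := -(x 0 / x 2) with hy
    have hhy := hh_nonneg y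
    have hR0 : 0 ≤ R3 T x := by
      rw [g3]
      exact Finset.sum_nonneg fun i _ => NK_nonneg T x i
    have hlawy := hC y (off_al y0 y1)
    have habs := le_abs_self C
    have habs0 := abs_nonneg C
    have hmain : prA V p (fun _ => y) + ∑ l, sI T (al K l) y ≤ (2 + ε / 2) * hh y + C' := by
      by_cases hA : (2 - 1 + ε / 2) * hh y ≤ prA V p (fun _ => y)
      · have := hlawy (Or.inr hA)
        rw [hC']
        linarith
      · push Not at hA
        rcases hle with hle | hle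
        · have h5 : (1 + ε) * (hh y - L) ≤ (1 + ε) * H3 x :=
            mul_le_mul_of_nonneg_left (by linarith [g1'.1]) (by linarith)
          have h6 : hh y ≤ 2 * ((1 + ε) * L) / ε := by
            rw [le_div_iff₀ hε]
            nlinarith
          have h7 : (4 + ε / 2) * hh y ≤ (4 + ε / 2) * (2 * ((1 + ε) * L) / ε) :=
            mul_le_mul_of_nonneg_left h6 (by linarith)
          have h8 : 0 ≤ (2 + ε / 2) * hh y := by positivity
          rw [hC']
          nlinarith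
        · have h5 : ∑ l, sI T (al K l) y ≤ hh y + 2 * L := by linarith [g1'.1]
          rw [hC']
          nlinarith
    have h9 : ε / 2 * hh y ≤ ε / 2 * (H3 x + L) :=
      mul_le_mul_of_nonneg_left (by linarith [g1'.1]) (by linarith)
    have h10 : 0 ≤ ε / 2 * (H3 x + L) := by
      refine mul_nonneg (by linarith) ?_
      linarith [g1'.1]
    nlinarith [g1'.2]
  · obtain ⟨y, hx, hB, h1, h2, h3⟩ := sharpP (q := 3) le_rfl hgen.1 hgen.2 hT
      (Pts_al K) (by rw [kap3]; exact hlaw) V τ σ δ hτ hσ hδ (by rw [kap3]; exact hΔ) hsum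
      (min ε 1 / 2) (by positivity) (max (B + L) (8 * L / min ε 1))
    obtain ⟨hx0, hx1⟩ := of_off_al hx
    have hpt := xy_pt hx0 hx1
    obtain ⟨g1, g2, _, _⟩ := hcv T hT (xy y) hpt
    rw [xy_aff] at g1 g2
    have g1' := abs_le.1 g1
    have hB1 : B + L ≤ hh y := (le_max_left _ _).trans hB
    have hB2 : 8 * L / min ε 1 ≤ hh y := (le_max_right _ _).trans hB
    have hm0 : 0 < min ε 1 := lt_min hε one_pos
    have hτs : 0 ≤ ∑ w, τ w := Finset.sum_nonneg fun w _ => hτ w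
    have hσV : 0 ≤ ∑ v ∈ V, σ v := Finset.sum_nonneg fun p _ => hσ p
    have hδs : 0 ≤ ∑ i, δ i := Finset.sum_nonneg fun i _ => hδ i
    have hδ1 : ∀ i, δ i ≤ 1 := fun i =>
      (Finset.single_le_sum (f := δ) (fun i _ => hδ i) (Finset.mem_univ i)).trans hΔ
    have hH0 : 0 ≤ H3 (xy y) := by
      have h5 : 0 ≤ 8 * L / min ε 1 := by positivity
      have h6 : L ≤ hh y := by
        refine le_trans ?_ hB2
        rw [le_div_iff₀ hm0]
        have : min ε 1 ≤ 1 := min_le_right _ _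
        nlinarith
      linarith [g1'.1]
    have hfin : min ε 1 * H3 (xy y) ≤ ε * H3 (xy y) :=
      mul_le_mul_of_nonneg_right (min_le_left _ _) hH0
    refine ⟨xy y, hpt, by linarith [g1'.1], fun w => ?_, fun v hv => ?_, fun i => ?_⟩
    · rw [xy_aff]
      have h5 : τ w ≤ 2 := by
        have := Finset.single_le_sum (f := τ) (fun p _ => hτ p) (Finset.mem_univ w)
        linarith
      exact (abs_change' hm0 (min_le_right _ _) hL (hτ w) h5 g1 hB2 (h1 w)).trans hfin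
    · rw [xy_aff]
      have h5 : σ v ≤ 2 := by
        have := Finset.single_le_sum (f := σ) (fun p _ => hσ p) hv
        linarith
      exact (abs_change' hm0 (min_le_right _ _) hL (hσ v) h5 g1 hB2 (h2 v hv)).trans hfin
    · refine (abs_change' (h := hh y) hm0 (min_le_right _ _) hL (by linarith [hδ1 i])
        (by linarith [hδ i]) g1 hB2 ?_).trans hfin
      have h4 := h3 i
      rw [← g2 i]
      rw [← abs_neg] at h4
      refine le_trans (le_of_eq ?_) h4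
      congr 1
      ring

end Q273.AD
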