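import Pool.Agent.Q273.AD.CnvK

/-!
# The abc conjecture near almost every adele, over a number field: one law for all elements
-/

set_option autoImplicit false
set_option linter.unusedSectionVars false

namespace Q273.AD

open MeasureTheory NumberField IsDedekindDomain Finset Pool.Agent.H691R3 Height
open Pool.Agent.W232.VA NumberField.mixedEmbedding NumberField.InfinitePlace
open Q273.MV (prox Gen vec hh hh_nonneg sI kap Pts)
open Q273.ADG
open Pool.Agent.W223.AK (H3 R3)
open Pool.Agent.Results.MP_4d5ce1_nt.ExceptionalSetExponents (expoThree exceptional)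

variable {K : Type} [Field K] [NumberField K]

/-- `d` times the sum of the three conductors -/
noncomputable def S3 (y : K) : ℝ := dg K * (cnd y + cnd y⁻¹ + cnd (y - 1))

/-- the exponent over number fields -/
noncomputable def FK (lam : ℝ) : ℝ :=
  if lam ≤ 1 then min (4 * lam / 7) (20 / 37) else expoThree (3 - lam)

lemma ite_lip {a : ℝ} {f g : ℝ → ℝ} (hf : ∀ s t, s ≤ t → f s ≤ f t + (t - s))
    (hg : ∀ s t, s ≤ t → g s ≤ g t + (t - s)) (ha : f a ≤ g a) :
    ∀ s t, s ≤ t → (if s ≤ a then f s else g s) ≤ (if t ≤ a then f t else g t) + (t - s) := by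
  intro s t h
  by_cases h1 : s ≤ a
  · rw [if_pos h1]
    by_cases h2 : t ≤ a
    · rw [if_pos h2]
      exact hf s t h
    · rw [if_neg h2]
      push Not at h2
      have e1 := hf s a h1
      have e2 := hg a t h2.le
      linarith
  · rw [if_neg h1, if_neg (fun h2 => h1 (h.trans h2))]
    exact hg s t h

lemma expo_lip {s t : ℝ} (h : s ≤ t) : expoThree s ≤ expoThree t + (t - s) := by
  revert h
  revert s t
  suffices hs : ∀ s t : ℝ, s ≤ t → expoThree s ≤ expoThree t + (t - s) from
    fun {s t} h => hs s t h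
  unfold expoThree
  refine ite_lip (fun s t h => by linarith) ?_ (by
    norm_num)
  refine ite_lip (fun s t h => by linarith) ?_ (by
    norm_num)
  refine ite_lip (fun s t h => by linarith) ?_ (by
    norm_num)
  refine ite_lip (fun s t h => by linarith) ?_ (by
    norm_num)
  refine ite_lip (fun s t h => by linarith) ?_ (by
    norm_num)
  refine ite_lip (fun s t h => by linarith) ?_ (by
    norm_num)
  refine ite_lip (fun s t h => by linarith) ?_ (by
    norm_num)
  refine ite_lip (fun s t h => by linarith) ?_ (by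
    norm_num)
  refine ite_lip (fun s t h => by linarith) ?_ (by
    norm_num)
  refine ite_lip (fun s t h => by linarith) ?_ (by
    norm_num)
  refine ite_lip (fun s t h => by linarith) ?_ (by
    norm_num)
  refine ite_lip (fun s t h => by linarith) ?_ (by
    norm_num)
  refine ite_lip (fun s t h => by linarith) ?_ (by
    norm_num)
  exact fun s t h => by linarith

lemma expo_nonneg3 {t : ℝ} (ht : t ≤ 3) : 0 ≤ expoThree t := by
  unfold expoThree
  by_cases h0 : t ≤ 1
  · rw [if_pos h0]; linarith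
  rw [if_neg h0]
  by_cases h1 : t ≤ 4 / 3
  · rw [if_pos h1]; linarith
  rw [if_neg h1]
  by_cases h2 : t ≤ 17 / 12
  · rw [if_pos h2]; linarith
  rw [if_neg h2]
  by_cases h3 : t ≤ 3 / 2
  · rw [if_pos h3]; linarith
  rw [if_neg h3]
  by_cases h4 : t ≤ 17 / 10
  · rw [if_pos h4]; linarith
  rw [if_neg h4]
  by_cases h5 : t ≤ 7 / 4
  · rw [if_pos h5]; linarith
  rw [if_neg h5]
  by_cases h6 : t ≤ 9 / 5
  · rw [if_pos h6]; linarith
  rw [if_neg h6]
  by_cases h7 : t ≤ 13 / 7
  · rw [if_pos h7]; linarith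
  rw [if_neg h7]
  by_cases h8 : t ≤ 19 / 10
  · rw [if_pos h8]; linarith
  rw [if_neg h8]
  by_cases h9 : t ≤ 8512 / 4185
  · rw [if_pos h9]; linarith
  rw [if_neg h9]
  by_cases h10 : t ≤ 94 / 45
  · rw [if_pos h10]; linarith
  rw [if_neg h10]
  by_cases h11 : t ≤ 47 / 22
  · rw [if_pos h11]; linarith
  rw [if_neg h11]
  by_cases h12 : t ≤ 24 / 11
  · rw [if_pos h12]; linarith
  rw [if_neg h12]
  linarith

lemma FK_nonneg {lam : ℝ} (h : 0 ≤ lam) : 0 ≤ FK lam := by
  unfold FK
  split_ifs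
  · exact le_min (by linarith) (by norm_num)
  · exact expo_nonneg3 (by linarith)

lemma FK_lip1 {s t : ℝ} (h : s ≤ t) (ht : t ≤ 1) : FK t ≤ FK s + (t - s) := by
  unfold FK
  rw [if_pos ht, if_pos (h.trans ht)]
  rcases le_total (4 * s / 7) (20 / 37) with h1 | h1
  · rw [min_eq_left h1]
    exact (min_le_left _ _).trans (by linarith)
  · rw [min_eq_right h1]
    exact (min_le_right _ _).trans (by linarith)

lemma FK_lip2 {s t : ℝ} (h : s ≤ t) (hs : 1 < s) : FK t ≤ FK s + (t - s) := by
  unfold FK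
  rw [if_neg (by linarith : ¬ t ≤ 1), if_neg (by linarith : ¬ s ≤ 1)]
  have := expo_lip (s := 3 - t) (t := 3 - s) (by linarith)
  linarith

lemma FK_big {s : ℝ} (h : 3 ≤ s) : 2 ≤ FK s := by
  unfold FK
  rw [if_neg (by linarith)]
  unfold expoThree
  rw [if_pos (by linarith)]
  linarith

lemma FK_three : FK 3 = 2 := by
  unfold FK
  rw [if_neg (by norm_num)]
  unfold expoThree
  rw [if_pos (by norm_num)]
  norm_num

lemma losses {y : K} (h0 : y ≠ 0) (h1 : y ≠ 1) :
    hh y - sI ∅ (al K 0) y = dg K * cnd y ∧ hh y - sI ∅ (al K 1) y = dg K * cnd (y - 1) ∧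
    hh y - sI ∅ (al K 2) y = dg K * cnd y⁻¹ ∧ R3 ∅ (xy y) = S3 y ∧
    S3 y = 3 * hh y - ∑ i, sI ∅ (al K i) y := by
  obtain ⟨L, hL, h⟩ := Q71.AD.cnvk K
  have hpt := xy_pt h0 h1
  obtain ⟨g1, g2, g3⟩ := h ∅ Set.finite_empty (xy y) hpt.1 hpt.2
  rw [xy_aff] at g1 g2
  have e0 := g2 0
  have e1 := g2 1
  have e2 := g2 2
  rw [NK_zero] at e0
  rw [NK_one] at e1
  rw [NK_two h0] at e2
  have e3 : R3 ∅ (xy y) = S3 y := by
    rw [g3, Fin.sum_univ_three, NK_zero, NK_one, NK_two h0]
    unfold S3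
    ring
  refine ⟨e0, e1, e2, e3, ?_⟩
  rw [Fin.sum_univ_three]
  unfold S3
  linarith

lemma S3_nonneg (y : K) : 0 ≤ S3 y := by
  have hc : ∀ z : K, 0 ≤ cnd z := by
    intro z
    unfold cnd Pool.Agent.Results.MP_f5a5f7_nt.FewExceptions.cond
    apply mul_nonneg (by positivity)
    apply finsum_nonneg
    intro v
    split_ifs
    · exact Real.log_natCast_nonneg _
    · exact le_rfl
  unfold S3
  exact mul_nonneg dg_pos.le (add_nonneg (add_nonneg (hc _) (hc _)) (hc _))

/-- the elements with small radical -/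
def SmL (K : Type) [Field K] [NumberField K] (lam B : ℝ) : Set K :=
  {y : K | y ≠ 0 ∧ y ≠ 1 ∧ S3 y ≤ lam * hh y + B}

theorem countLam (K : Type) [Field K] [NumberField K] (lam B : ℝ) (h0 : 0 < lam)
    (h1 : lam ≤ 3) (δ : ℝ) (hδ : 0 < δ) :
    ∃ C : ℝ, ∀ X : ℝ, 1 ≤ X →
      {y : K | y ∈ SmL K lam B ∧ mulHeight (vec y) ≤ X}.Finite ∧
      ({y : K | y ∈ SmL K lam B ∧ mulHeight (vec y) ≤ X}.ncard : ℝ) ≤ C * X ^ (FK lam + δ) := by
  have hd := dg_pos (K := K)
  rcases lt_trichotomy lam 1 with hl | hl | hl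
  · -- the range `lam < 1`
    obtain ⟨C, hC⟩ := Pool.Agent.Results.MP_f5a5f7_nt.FewExceptions.result K (1 / lam)
      (B / (lam * dg K)) δ (by rw [lt_div_iff₀ h0]; linarith) hδ
    refine ⟨|C|, fun X hX => ?_⟩
    have hX0 : 0 < X := by linarith
    obtain ⟨h2, h3⟩ := hC (X ^ (1 / dg K)) (Real.one_le_rpow hX (by positivity))
    have hsub : {y : K | y ∈ SmL K lam B ∧ mulHeight (vec y) ≤ X} ⊆
        Pool.Agent.Results.MP_f5a5f7_nt.FewExceptions.exceptional K (1 / lam)
          (B / (lam * dg K)) (X ^ (1 / dg K)) := by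
      rintro y ⟨⟨g0, g1, g2⟩, g3⟩
      have g4 : hh y ≤ Real.log X := Real.log_le_log
        (lt_of_lt_of_le one_pos (one_le_mulHeight _)) g3
      rw [hh_height] at g4 g2
      refine ⟨g0, g1, ?_, ?_⟩
      · rw [← Real.log_le_log_iff (Real.exp_pos _) (by positivity), Real.log_exp,
          Real.log_rpow hX0]
        rw [one_div, ← div_eq_inv_mul, le_div_iff₀ hd]
        linarith
      · have g5 : dg K * (cnd y + cnd y⁻¹ + cnd (y - 1)) ≤ lam * (dg K * hgt y) + B := g2
        show 1 / lam * (cnd y + cnd y⁻¹ + cnd (y - 1)) ≤ hgt y + B / (lam * dg K)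
        have g6 : (1 / (lam * dg K)) * (dg K * (cnd y + cnd y⁻¹ + cnd (y - 1))) ≤
            (1 / (lam * dg K)) * (lam * (dg K * hgt y) + B) :=
          mul_le_mul_of_nonneg_left g5 (by positivity)
        have e1 : (1 / (lam * dg K)) * (dg K * (cnd y + cnd y⁻¹ + cnd (y - 1))) =
            1 / lam * (cnd y + cnd y⁻¹ + cnd (y - 1)) := by
          field_simp
        have e2 : (1 / (lam * dg K)) * (lam * (dg K * hgt y) + B) =
            hgt y + B / (lam * dg K) := by
          field_simp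
        rw [e1, e2] at g6
        exact g6
    refine ⟨h2.subset hsub, ?_⟩
    refine (Nat.cast_le.2 (Set.ncard_le_ncard hsub h2)).trans (h3.trans ?_)
    have e1 : FK lam = min (4 / (7 * (1 / lam))) (20 / 37) := by
      unfold FK
      rw [if_pos hl.le]
      congr 1
      field_simp
    refine mul_le_mul (le_abs_self C) ?_ (by positivity) (abs_nonneg C)
    rw [← Real.rpow_mul hX0.le]
    refine Real.rpow_le_rpow_of_exponent_le hX ?_
    have h6 : 1 / dg K * (dg K * min (4 / (7 * (1 / lam))) (20 / 37) + δ) =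
        min (4 / (7 * (1 / lam))) (20 / 37) + δ / dg K := by
      field_simp
    rw [h6, e1]
    have h7 : δ / dg K ≤ δ := div_le_self hδ.le one_le_dg
    linarith
  · -- `lam = 1`
    subst hl
    obtain ⟨C, hC⟩ := countK (K := K) Q71.AD.cnvk ∅ Set.finite_empty B δ hδ
    refine ⟨C, fun X hX => ?_⟩
    have e1 : FK 1 = 20 / 37 := by
      unfold FK
      rw [if_pos le_rfl]
      norm_num
    rw [e1]
    have e2 : {y : K | y ∈ SmL K 1 B ∧ mulHeight (vec y) ≤ X} =
        {y : K | y ∈ SmallR ∅ B ∧ mulHeight (vec y) ≤ X} := by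
      ext y
      constructor
      · rintro ⟨⟨g0, g1, g2⟩, g3⟩
        refine ⟨⟨g0, g1, ?_⟩, g3⟩
        rw [← (losses g0 g1).2.2.2.2]
        linarith
      · rintro ⟨⟨g0, g1, g2⟩, g3⟩
        refine ⟨⟨g0, g1, ?_⟩, g3⟩
        rw [(losses g0 g1).2.2.2.2]
        linarith
    rw [e2]
    exact hC X hX
  · -- `1 < lam ≤ 3`
    obtain ⟨C, hC⟩ := (Pool.Agent.Results.MP_4d5ce1_nt.ExceptionalSetExponents.result K ∅
      Set.finite_empty 3 (by norm_num) (al K) (Pts_al K).1 (Pts_al K).2 (3 - lam)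
      (B / dg K + 1) (by linarith)).2 le_rfl (by push_cast; linarith) δ hδ
    refine ⟨|C|, fun X hX => ?_⟩
    have hX0 : 0 < X := by linarith
    obtain ⟨h2, h3⟩ := hC (X ^ (1 / dg K)) (Real.one_le_rpow hX (by positivity))
    have hsub : {y : K | y ∈ SmL K lam B ∧ mulHeight (vec y) ≤ X} ⊆
        exceptional ∅ (al K) (3 - lam) (B / dg K + 1) (X ^ (1 / dg K)) := by
      rintro y ⟨⟨g0, g1, g2⟩, g3⟩
      have g4 : hh y ≤ Real.log X := Real.log_le_log
        (lt_of_lt_of_le one_pos (one_le_mulHeight _)) g3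
      have hoff := off_al g0 g1
      refine ⟨hoff, ?_, ?_⟩
      · rw [Q273.MV.hh_eq] at g4
        rw [← Real.log_le_log_iff (Real.exp_pos _) (by positivity), Real.log_exp,
          Real.log_rpow hX0]
        rw [one_div, ← div_eq_inv_mul, le_div_iff₀ hd]
        have : dg K * Pool.Agent.Results.MP_4d5ce1_nt.ExceptionalSetExponents.height y ≤
          Real.log X := g4
        linarith
      · rw [(losses g0 g1).2.2.2.2, Q273.MV.sum_sI ∅ (Pts_al K).1 hoff, Q273.MV.hh_eq] at g2
        have h5 : dg K * Pool.Agent.Results.MP_4d5ce1_nt.ExceptionalSetExponents.counting ∅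
            (al K) y < dg K * ((((3 : ℕ) : ℝ) - (3 - lam)) *
              Pool.Agent.Results.MP_4d5ce1_nt.ExceptionalSetExponents.height y +
              (B / dg K + 1)) := by
          have h6 : dg K * (B / dg K) = B := by
            field_simp
          push_cast at g2 ⊢
          nlinarith
        exact lt_of_mul_lt_mul_left h5 hd.le
    refine ⟨h2.subset hsub, ?_⟩
    refine (Nat.cast_le.2 (Set.ncard_le_ncard hsub h2)).trans (h3.trans ?_)
    have e1 : FK lam = expoThree (3 - lam) := by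
      unfold FK
      rw [if_neg (by linarith)]
    refine mul_le_mul (le_abs_self C) ?_ (by positivity) (abs_nonneg C)
    rw [← Real.rpow_mul hX0.le]
    refine Real.rpow_le_rpow_of_exponent_le hX ?_
    have e2 : (3 * (3 - lam) / ((3 : ℕ) : ℝ)) = 3 - lam := by
      push_cast
      ring
    rw [e2]
    have h6 : 1 / dg K * (dg K * expoThree (3 - lam) + δ) = expoThree (3 - lam) + δ / dg K := by
      field_simp
    have h7 : δ / dg K ≤ δ := div_le_self hδ.le one_le_dg
    calc 1 / dg K * ((Module.finrank ℚ K : ℝ) * expoThree (3 - lam) + δ)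
        = expoThree (3 - lam) + δ / dg K := h6
      _ ≤ FK lam + δ := by rw [e1]; linarith

end Q273.AD
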