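import Pool.Agent.Q273.AD.AbcK2

/-!
# The abc conjecture near almost every adele, over a number field: the law
-/

set_option autoImplicit false
set_option linter.unusedSectionVars false

namespace Q273.AD

open MeasureTheory NumberField IsDedekindDomain Finset Pool.Agent.H691R3 Height
open Pool.Agent.W232.VA NumberField.mixedEmbedding NumberField.InfinitePlace
open Q273.MV (prox Gen vec hh hh_nonneg sI kap Pts)
open Q273.ADG

variable {K : Type} [Field K] [NumberField K]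

open scoped Classical in
/-- few elements with small radical -/
theorem upL [MeasurableSpace (FinAd K 1)] [BorelSpace (FinAd K 1)]
    (μ : Measure (FinAd K 1)) [IsFiniteMeasure μ] [μ.IsAddLeftInvariant] :
    ∀ᵐ p : (Fin 1 → mixedSpace K) × FinAd K 1 ∂(volume.prod μ),
      ∀ lam : ℚ, 0 < lam → (lam : ℝ) ≤ 3 → ∀ N : ℕ,
      ∀ V : Finset (HeightOneSpectrum (𝓞 K)), ∀ ε : ℝ, 0 < ε → ∃ C : ℝ,
      ∀ y ∈ SmL K lam N, prA V p (fun _ => y) ≤ (FK lam + ε) * hh y + C := by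
  have : Countable K := Q273.Apx.countable_numberField K
  have key : ∀ i : {q : ℚ // 0 < q ∧ (q : ℝ) ≤ 3} × ℕ,
      ∀ᵐ p : (Fin 1 → mixedSpace K) × FinAd K 1 ∂(volume.prod μ),
      ∀ V : Finset (HeightOneSpectrum (𝓞 K)), ∀ ε : ℝ, 0 < ε → ∃ C : ℝ,
      ∀ y ∈ SmL K ((i.1.1 : ℚ) : ℝ) (i.2 : ℝ),
        ((1 : ℕ) : ℝ) * prA V p (fun _ => y) ≤
          (FK ((i.1.1 : ℚ) : ℝ) + ε) * Real.log (mulHeight (vec y)) + C := by
    rintro ⟨⟨q, hq, hq1⟩, N⟩
    have hq' : (0 : ℝ) < (q : ℝ) := by exact_mod_cast hq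
    exact up1A fae' (n := 1) le_rfl μ (fun (x : K) (_ : Fin 1) => x)
      (fun y => mulHeight (vec y)) (SmL K ((q : ℚ) : ℝ) (N : ℝ)) (fun x _ => one_le_mulHeight _)
      (FK_nonneg hq'.le) (fun δ hδ => countLam K q N hq' hq1 δ hδ)
  filter_upwards [ae_all_iff.2 key] with p hp
  intro lam h0 h1 N V ε hε
  obtain ⟨C, hC⟩ := hp ⟨⟨lam, h0, h1⟩, N⟩ V ε hε
  refine ⟨C, fun y hy => ?_⟩
  have h := hC y hy
  rw [Nat.cast_one, one_mul] at h
  exact h

/-- the radical is at most three times the height -/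
lemma S3_le (K : Type) [Field K] [NumberField K] :
    ∃ N : ℕ, ∀ y : K, y ≠ 0 → y ≠ 1 → S3 y ≤ 3 * hh y + N := by
  obtain ⟨N, hN⟩ := Q273.MV.sum_sI_ge (T := ∅) Set.finite_empty (Pts_al K).1
  refine ⟨N, fun y h0 h1 => ?_⟩
  have := hN y (off_al h0 h1)
  rw [(losses h0 h1).2.2.2.2]
  linarith

/-- the bounds at radicals give one law for all elements -/
theorem law_all (M : K → ℝ)
    (h1 : ∀ lam : ℚ, 0 < lam → (lam : ℝ) ≤ 3 → ∀ N : ℕ, ∀ ε : ℝ, 0 < ε → ∃ C : ℝ,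
      ∀ y ∈ SmL K lam N, M y ≤ (FK lam + ε) * hh y + C) (ε : ℝ) (hε : 0 < ε) :
    ∃ C : ℝ, ∀ y : K, y ≠ 0 → y ≠ 1 → M y ≤ (FK (S3 y / hh y) + ε) * hh y + C := by
  classical
  obtain ⟨N0, hN0⟩ := S3_le K
  obtain ⟨C3, hC3⟩ := h1 3 (by norm_num) (by norm_num) N0 ε hε
  obtain ⟨q, hq1, hq2⟩ := exists_rat_btwn (show (0 : ℝ) < min (ε / 4) 1 by positivity)
  have hq0 : (0 : ℚ) < q := by exact_mod_cast hq1
  have hqε : (q : ℝ) < ε / 4 := lt_of_lt_of_le hq2 (min_le_left _ _)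
  set N : ℕ := ⌈3 / (q : ℝ)⌉₊ + 1 with hN
  -- the grid
  let g : ℕ → Bool → ℚ := fun k b => if b then min (((k : ℚ) + 1) * q) 1
    else min (((k : ℚ) + 1) * q) 3
  have hg0 : ∀ k b, 0 < g k b := by
    intro k b
    have h3 : (0 : ℚ) < ((k : ℚ) + 1) * q := by positivity
    cases b
    · exact lt_min h3 (by norm_num)
    · exact lt_min h3 (by norm_num)
  have eF : ∀ k, ((g k false : ℚ) : ℝ) = min (((k : ℝ) + 1) * q) 3 := by
    intro k
    simp only [g]
    push_cast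
    rfl
  have eT : ∀ k, ((g k true : ℚ) : ℝ) = min (((k : ℝ) + 1) * q) 1 := by
    intro k
    simp only [g]
    push_cast
    rfl
  have hg1 : ∀ k b, ((g k b : ℚ) : ℝ) ≤ 3 := by
    intro k b
    cases b
    · rw [eF]
      exact min_le_right _ _
    · rw [eT]
      exact (min_le_right _ _).trans (by norm_num)
  choose Cg hCg using fun k b => h1 (g k b) (hg0 k b) (hg1 k b) 0 (ε / 2) (by positivity)
  set Cs : ℝ := ∑ k ∈ Finset.range N, (|Cg k true| + |Cg k false|) with hCs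
  have hCk : ∀ k b, k < N → Cg k b ≤ Cs := by
    intro k b hk
    have h3 : |Cg k true| + |Cg k false| ≤ Cs :=
      Finset.single_le_sum (f := fun k => |Cg k true| + |Cg k false|)
        (fun _ _ => add_nonneg (abs_nonneg _) (abs_nonneg _)) (Finset.mem_range.2 hk)
    have h4 := le_abs_self (Cg k b)
    have h5 := abs_nonneg (Cg k true)
    have h6 := abs_nonneg (Cg k false)
    cases b <;> linarith
  refine ⟨max Cs |C3|, fun y h0 h1' => ?_⟩
  have hhy := hh_nonneg y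
  have hS := S3_nonneg y
  have hall : M y ≤ (2 + ε) * hh y + C3 := by
    have := hC3 y ⟨h0, h1', by
      have := hN0 y h0 h1'
      push_cast
      exact this⟩
    rw [show (((3 : ℚ) : ℝ)) = 3 by norm_num, FK_three] at this
    exact this
  have hC3a := le_abs_self C3
  have hC3b : |C3| ≤ max Cs |C3| := le_max_right _ _
  set ρ : ℝ := S3 y / hh y with hρ
  have hρ0 : 0 ≤ ρ := div_nonneg hS hhy
  rcases eq_or_lt_of_le hhy with hz | hpos
  · rw [← hz, mul_zero] at hall ⊢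
    linarith
  have hSρ : S3 y = ρ * hh y := by
    rw [hρ, div_mul_cancel₀ _ hpos.ne']
  have hFρ := FK_nonneg hρ0
  by_cases hρ1 : ρ < 3
  · set k : ℕ := ⌊ρ / (q : ℝ)⌋₊ with hk
    have hkle : (k : ℝ) ≤ ρ / (q : ℝ) := Nat.floor_le (by positivity)
    have hkN : k < N := by
      have h3 : ρ / (q : ℝ) ≤ 3 / (q : ℝ) := div_le_div_of_nonneg_right hρ1.le hq1.le
      have h4 : (3 / (q : ℝ) : ℝ) ≤ (⌈3 / (q : ℝ)⌉₊ : ℝ) := Nat.le_ceil _
      have h5 : (k : ℝ) < (N : ℝ) := by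
        rw [hN]
        push_cast
        linarith
      exact_mod_cast h5
    have hρg : ρ ≤ ((k : ℝ) + 1) * q := by
      have h3 : ρ / (q : ℝ) < (k : ℝ) + 1 := Nat.lt_floor_add_one _
      rw [div_lt_iff₀ hq1] at h3
      exact h3.le
    have hgρ : ((k : ℝ) + 1) * q ≤ ρ + ε / 4 := by
      rw [le_div_iff₀ hq1] at hkle
      linarith
    have hmain : ∀ lam : ℝ, ρ ≤ lam → FK lam ≤ FK ρ + ε / 4 → ∀ C : ℝ, C ≤ Cs →
        (y ∈ SmL K lam (0 : ℕ) → M y ≤ (FK lam + ε / 2) * hh y + C) →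
        M y ≤ (FK ρ + ε) * hh y + max Cs |C3| := by
      intro lam hl hF C hCle hM
      have h3 := hM ⟨h0, h1', by
        rw [hSρ, Nat.cast_zero, add_zero]
        exact mul_le_mul_of_nonneg_right hl hhy⟩
      have h4 : (FK lam + ε / 2) * hh y ≤ (FK ρ + ε) * hh y :=
        mul_le_mul_of_nonneg_right (by linarith) hhy
      have h5 : C ≤ max Cs |C3| := hCle.trans (le_max_left _ _)
      linarith
    by_cases hρ2 : ρ ≤ 1
    · have h3 : ρ ≤ ((g k true : ℚ) : ℝ) := by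
        rw [eT]
        exact le_min hρg hρ2
      have h4 : ((g k true : ℚ) : ℝ) ≤ 1 := by
        rw [eT]
        exact min_le_right _ _
      have h5 : ((g k true : ℚ) : ℝ) ≤ ρ + ε / 4 := by
        rw [eT]
        exact (min_le_left _ _).trans hgρ
      exact hmain _ h3 ((FK_lip1 h3 h4).trans (by linarith)) _ (hCk k true hkN)
        (fun hy => hCg k true y hy)
    · push Not at hρ2
      have h3 : ρ ≤ ((g k false : ℚ) : ℝ) := by
        rw [eF]
        exact le_min hρg hρ1.le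
      have h5 : ((g k false : ℚ) : ℝ) ≤ ρ + ε / 4 := by
        rw [eF]
        exact (min_le_left _ _).trans hgρ
      exact hmain _ h3 ((FK_lip2 h3 hρ2).trans (by linarith)) _ (hCk k false hkN)
        (fun hy => hCg k false y hy)
  · push Not at hρ1
    have h3 := FK_big hρ1
    have h4 : (2 + ε) * hh y ≤ (FK ρ + ε) * hh y :=
      mul_le_mul_of_nonneg_right (by linarith) hhy
    linarith

/-- the statement of the theorem at the adelic point `p` (heights relative to `K`) -/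
def AllK3 (p : (Fin 1 → mixedSpace K) × FinAd K 1) : Prop :=
  ∀ V : Finset (HeightOneSpectrum (𝓞 K)),
    (∀ ε : ℝ, 0 < ε → ∃ C : ℝ, ∀ y : K, y ≠ 0 → y ≠ 1 →
      prA V p (fun _ => y) ≤ (FK (S3 y / hh y) + ε) * hh y + C) ∧
    ∀ (τ : InfinitePlace K → ℝ) (σ : HeightOneSpectrum (𝓞 K) → ℝ) (δ : Fin 3 → ℝ),
      (∀ w, 0 ≤ τ w) → (∀ v, 0 ≤ σ v) → (∀ i, 0 ≤ δ i) → ∑ i, δ i ≤ 1 →
      ∑ w, τ w + ∑ v ∈ V, σ v + ∑ i, δ i ≤ 2 → ∀ ε : ℝ, 0 < ε → ∀ B : ℝ,
      ∃ y : K, y ≠ 0 ∧ y ≠ 1 ∧ B ≤ hh y ∧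
        (∀ w : InfinitePlace K, |(w.mult : ℝ) * pw p.1 w (fun _ => y) - τ w * hh y| ≤
          ε * hh y) ∧
        (∀ v ∈ V, |pv v (p.2 v) (fun _ => y) - σ v * hh y| ≤ ε * hh y) ∧
        |dg K * cnd y - (1 - δ 0) * hh y| ≤ ε * hh y ∧
        |dg K * cnd (y - 1) - (1 - δ 1) * hh y| ≤ ε * hh y ∧
        |dg K * cnd y⁻¹ - (1 - δ 2) * hh y| ≤ ε * hh y

open scoped Classical in
theorem allK3 [MeasurableSpace (FinAd K 1)] [BorelSpace (FinAd K 1)]
    (μ : Measure (FinAd K 1)) [IsFiniteMeasure μ] [μ.IsAddLeftInvariant] :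
    ∀ᵐ p : (Fin 1 → mixedSpace K) × FinAd K 1 ∂(volume.prod μ), AllK3 p := by
  filter_upwards [upL (K := K) μ, lawPA (K := K) μ,
    gen_aeA (K := K) (n := 1) μ] with p hp1 hp2 hgen
  intro V
  have hlaw := hp2 3 (by norm_num) (al K) (Pts_al K) ∅ Set.finite_empty
  rw [kap3] at hlaw
  refine ⟨fun ε hε => ?_, fun τ σ δ hτ hσ hδ hΔ hsum ε hε B => ?_⟩
  · exact law_all (fun y => prA V p (fun _ => y))
      (fun lam h0 h1 N ε hε => hp1 lam h0 h1 N V ε hε) ε hε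
  · obtain ⟨y, hx, hB, h1, h2, h3⟩ := sharpP (q := 3) le_rfl hgen.1 hgen.2 Set.finite_empty
      (Pts_al K) (by rw [kap3]; exact hlaw) V τ σ δ hτ hσ hδ (by rw [kap3]; exact hΔ) hsum
      ε hε B
    obtain ⟨hx0, hx1⟩ := of_off_al hx
    obtain ⟨c0, c1, c2, _, _⟩ := losses hx0 hx1
    refine ⟨y, hx0, hx1, hB, h1, h2, ?_, ?_, ?_⟩
    · have h4 := h3 0
      rw [← c0]
      rw [← abs_neg] at h4
      refine le_trans (le_of_eq ?_) h4
      congr 1
      ring
    · have h4 := h3 1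
      rw [← c1]
      rw [← abs_neg] at h4
      refine le_trans (le_of_eq ?_) h4
      congr 1
      ring
    · have h4 := h3 2
      rw [← c2]
      rw [← abs_neg] at h4
      refine le_trans (le_of_eq ?_) h4
      congr 1
      ring

end Q273.AD
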