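import Pool.Agent.Q273.AD.TrK

/-!
# The abc conjecture near almost every adele, over a number field: the points of the plane
-/

set_option autoImplicit false
set_option linter.unusedSectionVars false

namespace Q273.AD

open MeasureTheory NumberField IsDedekindDomain Finset Pool.Agent.H691R3 Height
open Pool.Agent.W232.VA NumberField.mixedEmbedding NumberField.InfinitePlace
open Q273.MV (prox Gen vec hh hh_nonneg sI kap Pts)
open Q273.ADG
open Pool.Agent.W223.AK (H3 R3)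

variable {K : Type} [Field K] [NumberField K]

/-- the bounds at radicals give one law, for all functions at a bounded distance from the height -/
theorem law_all2 (M : K → ℝ) (L : ℝ) (hL : 0 ≤ L)
    (h1 : ∀ lam : ℚ, 0 < lam → (lam : ℝ) ≤ 3 → ∀ N : ℕ, ∀ ε : ℝ, 0 < ε → ∃ C : ℝ,
      ∀ y ∈ SmL K lam N, M y ≤ (FK lam + ε) * hh y + C) (ε : ℝ) (hε : 0 < ε) :
    ∃ C : ℝ, ∀ y : K, y ≠ 0 → y ≠ 1 → ∀ r : ℝ, 0 ≤ r → |r - hh y| ≤ L →
      M y ≤ (FK (S3 y / r) + ε) * r + C := by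
  classical
  obtain ⟨N0, hN0⟩ := S3_le K
  obtain ⟨C3, hC3⟩ := h1 3 (by norm_num) (by norm_num) N0 ε hε
  obtain ⟨q, hq1, hq2⟩ := exists_rat_btwn (show (0 : ℝ) < min (ε / 4) 1 by positivity)
  have hq0 : (0 : ℚ) < q := by exact_mod_cast hq1
  have hqε : (q : ℝ) < ε / 4 := lt_of_lt_of_le hq2 (min_le_left _ _)
  obtain ⟨N3, hN3⟩ := exists_nat_ge (3 * L)
  set N : ℕ := ⌈3 / (q : ℝ)⌉₊ + 1 with hN
  -- the grid
  let g : ℕ → Bool → ℚ := fun k b => if b then min (((k : ℚ) + 1) * q) 1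
    else min (((k : ℚ) + 1) * q) 3
  have hg0 : ∀ k b, 0 < g k b := by
    intro k b
    have h3 : (0 : ℚ) < ((k : ℚ) + 1) * q := by positivity
    cases b
    · exact lt_min h3 (by norm_num)
    · exact lt_min h3 (by norm_num)
  have eF : ∀ k, ((g k false : ℚ) : ℝ) = min (((k : ℝ) + 1) * q) 3 := by
    intro k
    simp only [g]
    push_cast
    rfl
  have eT : ∀ k, ((g k true : ℚ) : ℝ) = min (((k : ℝ) + 1) * q) 1 := by
    intro k
    simp only [g]
    push_cast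
    rfl
  have hg1 : ∀ k b, ((g k b : ℚ) : ℝ) ≤ 3 := by
    intro k b
    cases b
    · rw [eF]
      exact min_le_right _ _
    · rw [eT]
      exact (min_le_right _ _).trans (by norm_num)
  choose Cg hCg using fun k b => h1 (g k b) (hg0 k b) (hg1 k b) N3 (ε / 2) (by positivity)
  let D : ℕ → Bool → ℝ := fun k b => |Cg k b| + (|FK ((g k b : ℚ) : ℝ)| + ε / 2) * L
  have hD0 : ∀ k b, 0 ≤ D k b := fun k b => by
    show 0 ≤ |Cg k b| + (|FK ((g k b : ℚ) : ℝ)| + ε / 2) * L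
    positivity
  set Cs : ℝ := ∑ k ∈ Finset.range N, (D k true + D k false) with hCs
  have hCk : ∀ k b, k < N → D k b ≤ Cs := by
    intro k b hk
    have h3 : D k true + D k false ≤ Cs :=
      Finset.single_le_sum (f := fun k => D k true + D k false)
        (fun _ _ => add_nonneg (hD0 _ _) (hD0 _ _)) (Finset.mem_range.2 hk)
    have h5 := hD0 k true
    have h6 := hD0 k false
    cases b <;> linarith
  refine ⟨max Cs (|C3| + (2 + ε) * L), fun y h0 h1' r hr0 hrL => ?_⟩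
  have hhy := hh_nonneg y
  have hS := S3_nonneg y
  rw [abs_le] at hrL
  have hall : M y ≤ (2 + ε) * hh y + C3 := by
    have := hC3 y ⟨h0, h1', by
      have := hN0 y h0 h1'
      push_cast
      exact this⟩
    rw [show (((3 : ℚ) : ℝ)) = 3 by norm_num, FK_three] at this
    exact this
  have hall2 : M y ≤ (2 + ε) * r + (|C3| + (2 + ε) * L) := by
    have h3 : (2 + ε) * hh y ≤ (2 + ε) * (r + L) :=
      mul_le_mul_of_nonneg_left (by linarith) (by linarith)
    have := le_abs_self C3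
    linarith
  have hC3b : |C3| + (2 + ε) * L ≤ max Cs (|C3| + (2 + ε) * L) := le_max_right _ _
  set ρ : ℝ := S3 y / r with hρ
  have hρ0 : 0 ≤ ρ := div_nonneg hS hr0
  rcases eq_or_lt_of_le hr0 with hz | hpos
  · rw [← hz, mul_zero] at hall2 ⊢
    linarith
  have hSρ : S3 y = ρ * r := by
    rw [hρ, div_mul_cancel₀ _ hpos.ne']
  have hFρ := FK_nonneg hρ0
  by_cases hρ1 : ρ < 3
  · set k : ℕ := ⌊ρ / (q : ℝ)⌋₊ with hk
    have hkle : (k : ℝ) ≤ ρ / (q : ℝ) := Nat.floor_le (by positivity)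
    have hkN : k < N := by
      have h3 : ρ / (q : ℝ) ≤ 3 / (q : ℝ) := div_le_div_of_nonneg_right hρ1.le hq1.le
      have h4 : (3 / (q : ℝ) : ℝ) ≤ (⌈3 / (q : ℝ)⌉₊ : ℝ) := Nat.le_ceil _
      have h5 : (k : ℝ) < (N : ℝ) := by
        rw [hN]
        push_cast
        linarith
      exact_mod_cast h5
    have hρg : ρ ≤ ((k : ℝ) + 1) * q := by
      have h3 : ρ / (q : ℝ) < (k : ℝ) + 1 := Nat.lt_floor_add_one _
      rw [div_lt_iff₀ hq1] at h3
      exact h3.le
    have hgρ : ((k : ℝ) + 1) * q ≤ ρ + ε / 4 := by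
      rw [le_div_iff₀ hq1] at hkle
      linarith
    have hmain : ∀ b : Bool, ρ ≤ ((g k b : ℚ) : ℝ) → FK ((g k b : ℚ) : ℝ) ≤ FK ρ + ε / 4 →
        M y ≤ (FK ρ + ε) * r + max Cs (|C3| + (2 + ε) * L) := by
      intro b hl hF
      have h3g := hg1 k b
      have hg0' : (0 : ℝ) < ((g k b : ℚ) : ℝ) := by exact_mod_cast hg0 k b
      have h3 := hCg k b y ⟨h0, h1', by
        rw [hSρ]
        have h4 : ρ * r ≤ ((g k b : ℚ) : ℝ) * r := mul_le_mul_of_nonneg_right hl hr0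
        have h5 : ((g k b : ℚ) : ℝ) * r ≤ ((g k b : ℚ) : ℝ) * (hh y + L) :=
          mul_le_mul_of_nonneg_left (by linarith) hg0'.le
        have h6 : ((g k b : ℚ) : ℝ) * L ≤ 3 * L := mul_le_mul_of_nonneg_right h3g hL
        linarith⟩
      have h7 : (FK ((g k b : ℚ) : ℝ) + ε / 2) * hh y ≤
          (|FK ((g k b : ℚ) : ℝ)| + ε / 2) * L + (FK ((g k b : ℚ) : ℝ) + ε / 2) * r := by
        have hFg := FK_nonneg hg0'.le
        rw [abs_of_nonneg hFg]
        have : (FK ((g k b : ℚ) : ℝ) + ε / 2) * hh y ≤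
            (FK ((g k b : ℚ) : ℝ) + ε / 2) * (r + L) :=
          mul_le_mul_of_nonneg_left (by linarith) (by linarith)
        linarith
      have h4 : (FK ((g k b : ℚ) : ℝ) + ε / 2) * r ≤ (FK ρ + ε) * r :=
        mul_le_mul_of_nonneg_right (by linarith) hr0
      have h5 : D k b ≤ max Cs (|C3| + (2 + ε) * L) := (hCk k b hkN).trans (le_max_left _ _)
      have h6 : D k b = |Cg k b| + (|FK ((g k b : ℚ) : ℝ)| + ε / 2) * L := rfl
      have h8 := le_abs_self (Cg k b)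
      linarith
    by_cases hρ2 : ρ ≤ 1
    · have h3 : ρ ≤ ((g k true : ℚ) : ℝ) := by
        rw [eT]
        exact le_min hρg hρ2
      have h4 : ((g k true : ℚ) : ℝ) ≤ 1 := by
        rw [eT]
        exact min_le_right _ _
      have h5 : ((g k true : ℚ) : ℝ) ≤ ρ + ε / 4 := by
        rw [eT]
        exact (min_le_left _ _).trans hgρ
      exact hmain true h3 ((FK_lip1 h3 h4).trans (by linarith))
    · push Not at hρ2
      have h3 : ρ ≤ ((g k false : ℚ) : ℝ) := by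
        rw [eF]
        exact le_min hρg hρ1.le
      have h5 : ((g k false : ℚ) : ℝ) ≤ ρ + ε / 4 := by
        rw [eF]
        exact (min_le_left _ _).trans hgρ
      exact hmain false h3 ((FK_lip2 h3 hρ2).trans (by linarith))
  · push Not at hρ1
    have h3 := FK_big hρ1
    have h4 : (2 + ε) * r ≤ (FK ρ + ε) * r :=
      mul_le_mul_of_nonneg_right (by linarith) hr0
    linarith

/-- the affine coordinate of a point -/
def aff (x : Fin 3 → K) : K := -(x 0 / x 2)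

/-- joint limit points of the proximities and of the parts of the radical -/
def LimM (V : Finset (HeightOneSpectrum (𝓞 K))) (p : (Fin 1 → mixedSpace K) × FinAd K 1)
    (τ : InfinitePlace K → ℝ) (σ : HeightOneSpectrum (𝓞 K) → ℝ) (δ : Fin 3 → ℝ) : Prop :=
  ∀ ε : ℝ, 0 < ε → ∀ B : ℝ, ∃ x : Fin 3 → K, IsPt x ∧ B ≤ H3 x ∧
    (∀ w : InfinitePlace K, |(w.mult : ℝ) * pw p.1 w (fun _ => aff x) - τ w * H3 x| ≤
      ε * H3 x) ∧
    (∀ v ∈ V, |pv v (p.2 v) (fun _ => aff x) - σ v * H3 x| ≤ ε * H3 x) ∧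
    ∀ i, |NK ∅ x i - (1 - δ i) * H3 x| ≤ ε * H3 x

/-- the statement of the theorem at the adelic point `p` (heights relative to `K`) -/
def AllM (p : (Fin 1 → mixedSpace K) × FinAd K 1) : Prop :=
  ∀ V : Finset (HeightOneSpectrum (𝓞 K)),
    (∀ ε : ℝ, 0 < ε → ∃ C : ℝ, ∀ x : Fin 3 → K, IsPt x →
      prA V p (fun _ => aff x) ≤ (FK (R3 ∅ x / H3 x) + ε) * H3 x + C) ∧
    (∀ c ε : ℝ, 0 < ε → ∃ B : ℝ, ∀ x : Fin 3 → K, IsPt x → B ≤ H3 x →
      (20 / 37 + ε) * H3 x ≤ prA V p (fun _ => aff x) → H3 x + c < R3 ∅ x) ∧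
    (∀ ε : ℝ, 0 < ε → ∃ C : ℝ, ∀ x : Fin 3 → K, IsPt x →
      ((1 + ε) * H3 x ≤ prA V p (fun _ => aff x) ∨ 2 * H3 x ≤ R3 ∅ x) →
      H3 x + prA V p (fun _ => aff x) ≤ R3 ∅ x + ε * H3 x + C) ∧
    ∀ (τ : InfinitePlace K → ℝ) (σ : HeightOneSpectrum (𝓞 K) → ℝ) (δ : Fin 3 → ℝ),
      (∑ i, δ i ≤ 1 ∨ 1 < ∑ w, τ w + ∑ v ∈ V, σ v) →
      (LimM V p τ σ δ ↔ (∀ w, 0 ≤ τ w) ∧ (∀ v ∈ V, 0 ≤ σ v) ∧ (∀ i, 0 ≤ δ i ∧ δ i ≤ 1) ∧
        ∑ w, τ w + ∑ v ∈ V, σ v + ∑ i, δ i ≤ 2)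

lemma H3_nonneg' {x : Fin 3 → K} (hx : IsPt x) : 0 ≤ H3 x :=
  (Pool.Agent.W223.AK.ht_nonneg _).trans (Pool.Agent.W223.AK.H3_bounds (hx.1 1) hx.2).1

lemma abs_zero_le {A t ε h : ℝ} (hA : 0 ≤ A) (h1 : |A - t * h| ≤ ε * h) (hh : 0 < h) : -ε ≤ t := by
  rw [abs_le] at h1
  by_contra hcon
  push Not at hcon
  nlinarith [h1.2]

/-- nothing else is a limit point -/
theorem LimM.imp {V : Finset (HeightOneSpectrum (𝓞 K))} {p : (Fin 1 → mixedSpace K) × FinAd K 1}
    {τ : InfinitePlace K → ℝ} {σ : HeightOneSpectrum (𝓞 K) → ℝ} {δ : Fin 3 → ℝ}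
    (hlaw : ∀ ε : ℝ, 0 < ε → ∃ C : ℝ, ∀ x : Fin 3 → K, IsPt x →
      ((1 + ε) * H3 x ≤ prA V p (fun _ => aff x) ∨ 2 * H3 x ≤ R3 ∅ x) →
      H3 x + prA V p (fun _ => aff x) ≤ R3 ∅ x + ε * H3 x + C)
    (hreg : ∑ i, δ i ≤ 1 ∨ 1 < ∑ w, τ w + ∑ v ∈ V, σ v) (h : LimM V p τ σ δ) :
    (∀ w, 0 ≤ τ w) ∧ (∀ v ∈ V, 0 ≤ σ v) ∧ (∀ i, 0 ≤ δ i ∧ δ i ≤ 1) ∧
        ∑ w, τ w + ∑ v ∈ V, σ v + ∑ i, δ i ≤ 2 := by
  classical
  obtain ⟨L, hL, hcv⟩ := sum_sI_K (K := K) Q71.AD.cnvk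
  refine ⟨fun w => ?_, fun v hv => ?_, fun i => ⟨?_, ?_⟩, ?_⟩
  · refine le_of_forall_pos_le_add fun ε hε => ?_
    obtain ⟨x, hx, hB, h1, _, _⟩ := h ε hε 1
    have h3 : 0 ≤ (w.mult : ℝ) * pw p.1 w (fun _ => aff x) :=
      mul_nonneg (Nat.cast_nonneg _) (Real.log_nonneg (le_max_left _ _))
    have := abs_zero_le h3 (h1 w) (by linarith)
    linarith
  · refine le_of_forall_pos_le_add fun ε hε => ?_
    obtain ⟨x, hx, hB, _, h1, _⟩ := h ε hε 1
    have h3 : 0 ≤ pv v (p.2 v) (fun _ => aff x) := Real.log_nonneg (le_max_left _ _)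
    have := abs_zero_le h3 (h1 v hv) (by linarith)
    linarith
  · obtain ⟨c, hc0, hc⟩ := Q273.MV.sI_ge (T := ∅) Set.finite_empty ((Pts_al K).1 i)
    refine le_of_forall_pos_le_add fun ε hε => ?_
    obtain ⟨x, hx, hB, _, _, h2⟩ := h (ε / 2) (by positivity) (2 * (L + c) / ε + 1)
    obtain ⟨g1, g2, _, _⟩ := hcv ∅ Set.finite_empty x hx
    obtain ⟨y0, y1⟩ := hx.aff
    have h3 := hc _ (off_al y0 y1 i)
    have h4 := h2 i
    have g3 := g2 i
    rw [abs_le] at h4 g1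
    have h5 : 0 ≤ 2 * (L + c) / ε := by positivity
    have h6 : 2 * (L + c) / ε * ε = 2 * (L + c) := div_mul_cancel₀ _ hε.ne'
    have h7 : 0 < H3 x := by linarith
    have h8 : L + c ≤ ε / 2 * H3 x := by nlinarith
    by_contra hcon
    push Not at hcon
    nlinarith [h4.1, h4.2, g1.1]
  · refine le_of_forall_pos_le_add fun ε hε => ?_
    obtain ⟨x, hx, hB, _, _, h2⟩ := h ε hε 1
    have h3 := NK_nonneg ∅ x i
    have h4 := abs_zero_le h3 (h2 i) (by linarith)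
    linarith
  · by_contra hcon
    push Not at hcon
    set T0 : ℝ := ∑ w, τ w + ∑ v ∈ V, σ v with hT0
    set Δ : ℝ := ∑ i, δ i with hΔ
    have hT1 : 1 < T0 := by
      rcases hreg with h1 | h1
      · linarith
      · exact h1
    set n : ℝ := (Fintype.card (InfinitePlace K) : ℝ) + (V.card : ℝ) with hn
    have hn0 : 0 ≤ n := by positivity
    set g : ℝ := T0 + Δ - 2 with hg
    have hg0 : 0 < g := by linarith
    set e : ℝ := min (g / (2 * (n + 4))) ((T0 - 1) / (n + 1)) with he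
    have hepos : 0 < e := lt_min (by positivity) (div_pos (by linarith) (by linarith))
    have he1 : e * (n + 4) ≤ g / 2 := by
      have h1 : e ≤ g / (2 * (n + 4)) := min_le_left _ _
      rw [le_div_iff₀ (by positivity)] at h1
      linarith
    have he2 : e * (n + 1) ≤ T0 - 1 := by
      have h1 : e ≤ (T0 - 1) / (n + 1) := min_le_right _ _
      rwa [le_div_iff₀ (by positivity)] at h1
    obtain ⟨C, hC⟩ := hlaw e hepos
    obtain ⟨x, hx, hB, h1, h2, h3⟩ := h e hepos (2 * |C| / g + 1)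
    obtain ⟨_, _, g3, _⟩ := hcv ∅ Set.finite_empty x hx
    have hC0 := abs_nonneg C
    have hC1 := le_abs_self C
    have h4 : 0 ≤ 2 * |C| / g := by positivity
    have h5 : 2 * |C| / g * g = 2 * |C| := div_mul_cancel₀ _ hg0.ne'
    have hpos : 0 < H3 x := by linarith
    have hpr : (T0 - n * e) * H3 x ≤ prA V p (fun _ => aff x) := by
      unfold prA
      rw [prox_eq]
      have h6 : ∑ w : InfinitePlace K, (τ w * H3 x - e * H3 x) ≤
          ∑ w : InfinitePlace K, (w.mult : ℝ) * pw p.1 w (fun _ => aff x) :=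
        Finset.sum_le_sum fun w _ => by
          have := h1 w
          rw [abs_le] at this
          linarith [this.1]
      have h7 : ∑ v ∈ V, (σ v * H3 x - e * H3 x) ≤ ∑ v ∈ V, pv v (p.2 v) (fun _ => aff x) :=
        Finset.sum_le_sum fun v hv => by
          have := h2 v hv
          rw [abs_le] at this
          linarith [this.1]
      rw [Finset.sum_sub_distrib, ← Finset.sum_mul, Finset.sum_const, Finset.card_univ,
        nsmul_eq_mul] at h6
      rw [Finset.sum_sub_distrib, ← Finset.sum_mul, Finset.sum_const, nsmul_eq_mul] at h7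
      rw [hT0, hn]
      nlinarith
    have hR : R3 ∅ x ≤ (3 - Δ + 3 * e) * H3 x := by
      rw [g3]
      have h6 : ∑ i, NK ∅ x i ≤ ∑ i, ((1 - δ i) * H3 x + e * H3 x) :=
        Finset.sum_le_sum fun i _ => by
          have := h3 i
          rw [abs_le] at this
          linarith [this.2]
      rw [Finset.sum_add_distrib, ← Finset.sum_mul, Finset.sum_sub_distrib, Finset.sum_const,
        Finset.sum_const, Finset.card_univ, Fintype.card_fin, nsmul_eq_mul, nsmul_eq_mul] at h6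
      push_cast at h6
      linarith
    have h6 := hC x hx (Or.inl ((mul_le_mul_of_nonneg_right (by linarith) hpos.le).trans hpr))
    have h9 : (g - (n + 4) * e) * H3 x ≤ C := by nlinarith
    have h10 : g / 2 * H3 x ≤ (g - (n + 4) * e) * H3 x :=
      mul_le_mul_of_nonneg_right (by linarith) hpos.le
    nlinarith

open scoped Classical in
theorem allM [MeasurableSpace (FinAd K 1)] [BorelSpace (FinAd K 1)]
    (μ : Measure (FinAd K 1)) [IsFiniteMeasure μ] [μ.IsAddLeftInvariant] :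
    ∀ᵐ p : (Fin 1 → mixedSpace K) × FinAd K 1 ∂(volume.prod μ), AllM p := by
  obtain ⟨L, hL, hcv⟩ := sum_sI_K (K := K) Q71.AD.cnvk
  filter_upwards [upL (K := K) μ, allK (K := K) Q71.AD.cnvk μ] with p hp1 hp2
  intro V
  obtain ⟨k1, k2, k3⟩ := hp2 V ∅ Set.finite_empty
  refine ⟨fun ε hε => ?_, k1, k2, fun τ σ δ hreg => ⟨fun h => h.imp k2 hreg, ?_⟩⟩
  · obtain ⟨C, hC⟩ := law_all2 (fun y => prA V p (fun _ => y)) L hL
      (fun lam h0 h1 N ε hε => hp1 lam h0 h1 N V ε hε) ε hε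
    refine ⟨C, fun x hx => ?_⟩
    obtain ⟨g1, _, _, g4⟩ := hcv ∅ Set.finite_empty x hx
    obtain ⟨y0, y1⟩ := hx.aff
    have h := hC (aff x) y0 y1 (H3 x) (H3_nonneg' hx) g1
    have e1 : R3 ∅ x = S3 (aff x) := g4.trans (losses y0 y1).2.2.2.2.symm
    rw [e1]
    exact h
  · rintro ⟨hτ, hσ, hδ, hsum⟩
    have hΔ : ∑ i, δ i ≤ 1 := by
      rcases hreg with h | h
      · exact h
      · linarith
    intro ε hε B
    have e1 : ∑ v ∈ V, (if v ∈ V then σ v else 0) = ∑ v ∈ V, σ v :=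
      Finset.sum_congr rfl fun v hv => if_pos hv
    obtain ⟨x, hx, hB, h1, h2, h3⟩ := k3 τ (fun v => if v ∈ V then σ v else 0) δ hτ
      (fun v => by
        by_cases hv : v ∈ V
        · simp only [if_pos hv]
          exact hσ v hv
        · simp only [if_neg hv]
          exact le_rfl) (fun i => (hδ i).1) hΔ (by rw [e1]; exact hsum) ε hε B
    refine ⟨x, hx, hB, h1, fun v hv => ?_, h3⟩
    have := h2 v hv
    simp only [if_pos hv] at this
    exact this

open scoped Classical in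
theorem trm [MeasurableSpace (FinA K)] [BorelSpace (FinA K)] (μ : Measure (FinA K))
    [IsFiniteMeasure μ] [μ.IsAddLeftInvariant] :
    ∀ᵐ u : mixedSpace K × FinA K ∂(volume.prod μ), AllM ((fun _ => u.1, Ph1 u.2) :
      (Fin 1 → mixedSpace K) × FinAd K 1) := by
  letI : MeasurableSpace (FinAd K 1) := borel _
  haveI : BorelSpace (FinAd K 1) := ⟨rfl⟩
  haveI : (μ.map (Ph1 (K := K))).IsAddLeftInvariant := Ph1_inv μ
  have h1 := allM (K := K) (μ.map (Ph1 (K := K)))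
  have h2 : MeasurePreserving (Ph1 (K := K)) μ (μ.map (Ph1 (K := K))) :=
    ⟨Ph1_cont.measurable, rfl⟩
  have h0 : MeasurePreserving (fun (x : mixedSpace K) (_ : Fin 1) => x) volume volume :=
    (volume_preserving_funUnique (Fin 1) (mixedSpace K)).symm
  have h3 := h0.prod h2
  exact h3.quasiMeasurePreserving.ae h1

end Q273.AD
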