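import Pool.Agent.Q273.AD.AbcM
import Pool.Agent.Q273.MV.P9
import Pool.Agent.Q61.MV.Ubi
import Pool.Agent.Q198.MV.Cantor
import Pool.Agent.Q2.MV.Low

/-!
# The abc conjecture near the points of `K ⊗ ℝ`: Hausdorff dimensions
-/

set_option autoImplicit false
set_option linter.unusedSectionVars false

namespace Q273.AD

open MeasureTheory NumberField IsDedekindDomain Finset Pool.Agent.H691R3 Height
open Pool.Agent.W232.VA NumberField.mixedEmbedding NumberField.InfinitePlace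
open Q273.MV (prox Gen vec hh hh_nonneg sI kap Pts WW)
open Q273.ADG
open Pool.Agent.W223.AK (H3 R3)

variable {K : Type} [Field K] [NumberField K]

lemma aff_xy (y : K) : aff (xy y) = y := xy_aff y

open scoped Classical in
/-- targets which are approximated by infinitely many points with prescribed parts of the radical -/
def AppM (τ : ℝ) (θ : Fin 3 → ℝ) : Set (mixedSpace K) :=
  {ξ | ∀ ε : ℝ, 0 < ε → ∀ B : ℝ, ∃ x : Fin 3 → K, IsPt x ∧ B ≤ H3 x ∧
    ‖ξ - mixedEmbedding K (aff x)‖ ≤ Real.exp (-((τ - ε) * H3 x)) ∧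
    ∀ i, NK ∅ x i ≤ (θ i + ε) * H3 x}

open scoped Classical in
/-- targets which are approximated by infinitely many points with small radical -/
def SmM (lam τ : ℝ) : Set (mixedSpace K) :=
  {ξ | ∃ c : ℝ, ∀ B : ℝ, ∃ x : Fin 3 → K, IsPt x ∧ B ≤ H3 x ∧
    ‖ξ - mixedEmbedding K (aff x)‖ ≤ Real.exp (c - τ * H3 x) ∧ R3 ∅ x ≤ lam * H3 x + c}

/-- changing the height by a bounded amount -/
lemma shift_le {t ε L a b : ℝ} (hε : 0 < ε) (_hL : 0 ≤ L) (hab : |a - b| ≤ L)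
    (hb : 2 * (|t| + ε) * L / ε ≤ b) : (t - ε) * b ≤ (t - ε / 2) * a := by
  have h1 : 2 * (|t| + ε) * L ≤ ε * b := by
    rw [div_le_iff₀ hε] at hb
    linarith
  have h2 : |(t - ε / 2) * (a - b)| ≤ (|t| + ε) * L := by
    rw [abs_mul]
    refine mul_le_mul ?_ hab (abs_nonneg _) (by positivity)
    refine (abs_sub _ _).trans ?_
    rw [abs_of_pos (by positivity : (0 : ℝ) < ε / 2)]
    linarith
  rw [abs_le] at h2
  nlinarith [h2.1]

open scoped Classical in
theorem AppM_eq (τ : ℝ) (θ : Fin 3 → ℝ) :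
    AppM (K := K) τ θ = WW ∅ (al K) τ (fun i => 1 - θ i) := by
  obtain ⟨L, hL, hcv⟩ := sum_sI_K (K := K) Q71.AD.cnvk
  -- the constants
  have hmax : ∀ (ε B : ℝ), ∃ B' : ℝ, B ≤ B' ∧ 2 * (|τ| + ε) * L / ε ≤ B' ∧
      ∀ i, 2 * (|-θ i| + ε) * L / ε ≤ B' := by
    intro ε B
    refine ⟨max (max B (2 * (|τ| + ε) * L / ε))
      (max (max (2 * (|-θ 0| + ε) * L / ε) (2 * (|-θ 1| + ε) * L / ε))
        (2 * (|-θ 2| + ε) * L / ε)), ?_, ?_, fun i => ?_⟩
    · exact (le_max_left _ _).trans (le_max_left _ _)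
    · exact (le_max_right _ _).trans (le_max_left _ _)
    · fin_cases i
      · exact ((le_max_left _ _).trans (le_max_left _ _)).trans (le_max_right _ _)
      · exact ((le_max_right _ _).trans (le_max_left _ _)).trans (le_max_right _ _)
      · exact (le_max_right _ _).trans (le_max_right _ _)
  ext ξ
  constructor
  · intro h ε hε B
    obtain ⟨B', hB1, hB2, hB3⟩ := hmax ε B
    obtain ⟨x, hx, hB, h1, h2⟩ := h (ε / 2) (by positivity) (B' + L)
    obtain ⟨g1, g2, _, _⟩ := hcv ∅ Set.finite_empty x hx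
    obtain ⟨y0, y1⟩ := hx.aff
    have g1' := abs_le.1 g1
    have hy : B' ≤ hh (aff x) := by
      show B' ≤ hh (-(x 0 / x 2))
      linarith [g1'.2]
    refine ⟨aff x, off_al y0 y1, hB1.trans hy, h1.trans (Real.exp_le_exp.2 ?_), fun i => ?_⟩
    · have h6 : (τ - ε) * hh (aff x) ≤ (τ - ε / 2) * H3 x :=
        shift_le (t := τ) hε hL g1 (hB2.trans hy)
      linarith
    · have e1 : sI ∅ (al K i) (aff x) = hh (aff x) - NK ∅ x i := by
        have := g2 i
        show sI ∅ (al K i) (-(x 0 / x 2)) = hh (-(x 0 / x 2)) - NK ∅ x i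
        linarith
      rw [e1]
      have h3 := shift_le (t := -θ i) hε hL g1 ((hB3 i).trans hy)
      have h4 := h2 i
      have h5 : (-θ i - ε) * hh (aff x) ≤ (-θ i - ε / 2) * H3 x := h3
      linarith
  · intro h ε hε B
    obtain ⟨B', hB1, hB2, hB3⟩ := hmax ε B
    obtain ⟨y, hy, hB, h1, h2⟩ := h (ε / 2) (by positivity) (B' + L)
    obtain ⟨y0, y1⟩ := of_off_al hy
    have hpt := xy_pt y0 y1
    obtain ⟨g1, g2, _, _⟩ := hcv ∅ Set.finite_empty (xy y) hpt
    rw [xy_aff] at g1 g2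
    rw [abs_sub_comm] at g1
    have g1' := abs_le.1 g1
    have hx : B' ≤ H3 (xy y) := by linarith [g1'.2]
    refine ⟨xy y, hpt, hB1.trans hx, ?_, fun i => ?_⟩
    · rw [aff_xy]
      refine h1.trans (Real.exp_le_exp.2 ?_)
      have := shift_le (t := τ) hε hL g1 (hB2.trans hx)
      linarith
    · have e1 := g2 i
      have h3 := shift_le (t := -θ i) hε hL g1 ((hB3 i).trans hx)
      have h4 := h2 i
      linarith

open scoped Classical in
theorem dim_SmM {lam τ : ℝ} (h0 : 0 < lam) (h1 : lam ≤ 3) (hτ : 0 < τ) :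
    dimH (SmM (K := K) lam τ) ≤ ENNReal.ofReal (FK lam / τ) := by
  obtain ⟨L, hL, hcv⟩ := sum_sI_K (K := K) Q71.AD.cnvk
  obtain ⟨E, hE1, hE2⟩ := Q273.Apx.approx_family (ι := ℕ) (Y := mixedSpace K)
    (fun N => SmL K lam (N : ℝ)) (fun y : K => mulHeight (vec y))
    (fun y : K => mixedEmbedding K y) (s := FK lam) (τ := τ) (FK_nonneg h0.le) hτ
    (fun N ε hε => countLam K lam N h0 h1 ε hε)
  refine (dimH_mono fun ξ hξ => ?_).trans hE1
  by_contra hcon
  obtain ⟨c, hc⟩ := hξ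
  obtain ⟨N, hN⟩ := exists_nat_ge (lam * L + c)
  have hfin := hE2 ξ hcon N (Real.exp (c + τ * L))
  obtain ⟨B, hB⟩ := (hfin.image (fun y : K => hh y)).bddAbove
  obtain ⟨x, hx, hBx, h2, h3⟩ := hc (B + L + 1)
  obtain ⟨g1, _, _, g4⟩ := hcv ∅ Set.finite_empty x hx
  obtain ⟨y0, y1⟩ := hx.aff
  have g1' := abs_le.1 g1
  have e1 : R3 ∅ x = S3 (aff x) := g4.trans (losses y0 y1).2.2.2.2.symm
  have e2 : hh (aff x) = hh (-(x 0 / x 2)) := rfl
  have hle : hh (aff x) ≤ B := hB ⟨aff x, ⟨⟨y0, y1, ?_⟩, ?_⟩, rfl⟩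
  · linarith [g1'.2]
  · rw [← e1]
    have h4 : lam * H3 x ≤ lam * (hh (aff x) + L) :=
      mul_le_mul_of_nonneg_left (by linarith [g1'.2]) h0.le
    linarith
  · rw [dist_eq_norm, Real.rpow_def_of_pos (lt_of_lt_of_le one_pos (one_le_mulHeight _)),
      ← Real.exp_add]
    refine h2.trans (Real.exp_le_exp.2 ?_)
    have e3 : Real.log (mulHeight (vec (aff x))) = hh (aff x) := rfl
    rw [e3]
    have h4 : τ * hh (aff x) ≤ τ * (H3 x + L) :=
      mul_le_mul_of_nonneg_left (by linarith [g1'.1]) hτ.le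
    linarith

open scoped Classical in
/-- the exact dimension, for orders from the critical one on -/
theorem dim_AppM {τ : ℝ} {θ : Fin 3 → ℝ} (hτ : 0 < τ) (h0 : ∀ i, 0 ≤ θ i) (h1 : ∀ i, θ i ≤ 1)
    (hΔ : ∑ i, (1 - θ i) ≤ 1) (hτ2 : 2 - ∑ i, (1 - θ i) ≤ τ * (Module.finrank ℚ K : ℝ)) :
    dimH (AppM (K := K) τ θ) = ENNReal.ofReal ((2 - ∑ i, (1 - θ i)) / τ) := by
  rw [AppM_eq]
  have hk : ∑ i, (1 - θ i) ≤ kap 3 := by rw [kap3]; exact hΔ
  exact le_antisymm
    (Q273.MV.dim_up (q := 3) (by norm_num) Set.finite_empty (Pts_al K) hτ hk)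
    (Q273.MV.dim_low Pool.Agent.Q2.MV.low (Pool.Agent.Q61.MV.ubi Pool.Agent.Q198.MV.cantor)
      (q := 3) (by norm_num) Set.finite_empty (Pts_al K) (fun i => by linarith [h1 i])
      (fun i => by linarith [h0 i]) hk hτ hτ2)

end Q273.AD
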