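import Pool.Agent.Q273.AD.P1
import Pool.Agent.Q273.AD.StmQ
import Pool.Agent.Results.MP_7aad9f_nt.ExceptionsEveryExponent

/-!
# The abc conjecture near almost every adele, over `ℚ`
-/

set_option autoImplicit false
set_option linter.unusedSectionVars false

namespace Q273.AD

open MeasureTheory NumberField IsDedekindDomain Finset Pool.Agent.H691R3 Height
open Pool.Agent.W232.VA NumberField.mixedEmbedding NumberField.InfinitePlace
open Pool.Agent.Results.MP_7aad9f_nt (ExceptionsEveryExponent.Exceptions)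
open Q273.MV (prox Gen vec hh hh_nonneg sI kap Pts)

/-- the largest member `c` of the triple of `r = p / q`, formed by `|p|`, `q` and `|p - q|` -/
def cc (r : ℚ) : ℕ := max (max r.num.natAbs r.den) (r.num - r.den).natAbs

/-- the product `abc` of the three members of the triple of `r = p / q` -/
def abc (r : ℚ) : ℕ := r.num.natAbs * r.den * (r.num - r.den).natAbs

/-- the exponent, a continuous piecewise linear function -/
noncomputable def F (lam : ℝ) : ℝ :=
  if lam ≤ 2 / 3 then 4 * lam / 7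
  else if lam ≤ 1 then (13 * lam + 2) / 28
  else if lam ≤ 3 / 2 then 5 * (10 * lam - 1) / 84
  else if lam ≤ 16 / 9 then (9 * lam - 1) / 15
  else if lam ≤ 2 then 1
  else lam - 1

lemma F_nonneg {lam : ℝ} (h : 0 < lam) : 0 ≤ F lam := by
  unfold F
  split_ifs <;> linarith

lemma F_lip {s t : ℝ} (h : s ≤ t) : F t ≤ F s + (t - s) := by
  unfold F
  split_ifs <;> linarith

open Pool.Agent.Results.MP_7aad9f_nt.ExceptionsEveryExponent (Exceptions)

/-- the triple, in the order required by the count -/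
def trip (r : ℚ) : ℕ × ℕ × ℕ :=
  if 0 < r.num then
    if r.num ≤ r.den then (r.num.natAbs, (r.num - r.den).natAbs, r.den)
    else (r.den, (r.num - r.den).natAbs, r.num.natAbs)
  else (r.num.natAbs, r.den, (r.num - r.den).natAbs)

/-- the kind of the triple -/
def kind (r : ℚ) : ℕ := if 0 < r.num then (if r.num ≤ r.den then 0 else 1) else 2

theorem trip_inj {r r' : ℚ} (h1 : trip r = trip r') (h2 : kind r = kind r') : r = r' := by
  unfold trip at h1
  unfold kind at h2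
  apply Rat.ext
  · split_ifs at h1 h2 <;> simp only [Prod.mk.injEq] at h1 <;> omega
  · split_ifs at h1 h2 <;> simp only [Prod.mk.injEq] at h1 <;> omega

lemma num_ne_den {r : ℚ} (h1 : r ≠ 1) : r.num ≠ (r.den : ℤ) := by
  intro h
  apply h1
  have h3 := Rat.num_div_den r
  rw [h] at h3
  rw [← h3]
  have : (r.den : ℚ) ≠ 0 := by exact_mod_cast r.den_pos.ne'
  push_cast
  exact div_self this

lemma cop2 (r : ℚ) : Nat.Coprime (r.num - r.den).natAbs r.den := by
  have h3 : IsCoprime r.num (r.den : ℤ) := by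
    rw [Int.isCoprime_iff_gcd_eq_one]
    exact r.reduced
  have h4 : IsCoprime (r.num - r.den) (r.den : ℤ) := by
    obtain ⟨u, v, huv⟩ := h3
    exact ⟨u, u + v, by linear_combination huv⟩
  exact Int.isCoprime_iff_gcd_eq_one.1 h4

lemma cop3 (r : ℚ) : Nat.Coprime r.num.natAbs (r.num - r.den).natAbs := by
  have h3 : IsCoprime r.num (r.den : ℤ) := by
    rw [Int.isCoprime_iff_gcd_eq_one]
    exact r.reduced
  have h4 : IsCoprime r.num (r.num - r.den) := by
    obtain ⟨u, v, huv⟩ := h3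
    exact ⟨u + v, -v, by linear_combination huv⟩
  exact Int.isCoprime_iff_gcd_eq_one.1 h4

theorem trip_mem {r : ℚ} (h0 : r ≠ 0) (h1 : r ≠ 1) {B lam : ℝ} {X : ℕ}
    (hX : cc r ≤ X) (hB : (Rd (abc r) : ℝ) ≤ B * (cc r : ℝ) ^ lam) :
    trip r ∈ Exceptions B lam X := by
  have hnum : r.num ≠ 0 := Rat.num_ne_zero.2 h0
  have hden : 0 < r.den := r.den_pos
  have hne : r.num ≠ (r.den : ℤ) := num_ne_den h1
  have hcop : Nat.Coprime r.num.natAbs r.den := r.reduced
  have hcop2 := cop2 r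
  have hcop3 := cop3 r
  unfold trip
  unfold cc at hX hB
  unfold abc at hB
  split_ifs with h3 h4
  · have hc : max (max r.num.natAbs r.den) (r.num - r.den).natAbs = r.den := by omega
    rw [hc] at hX hB
    refine ⟨by simp only; omega, by simp only; omega, hcop3, by simp only; omega, hX, ?_⟩
    simp only
    rw [show r.num.natAbs * (r.num - r.den).natAbs * r.den =
      r.num.natAbs * r.den * (r.num - r.den).natAbs by ring]
    exact hB
  · have hc : max (max r.num.natAbs r.den) (r.num - r.den).natAbs = r.num.natAbs := by omega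
    rw [hc] at hX hB
    refine ⟨by simp only; omega, by simp only; omega, hcop2.symm, by simp only; omega, hX, ?_⟩
    simp only
    rw [show r.den * (r.num - r.den).natAbs * r.num.natAbs =
      r.num.natAbs * r.den * (r.num - r.den).natAbs by ring]
    exact hB
  · have hc : max (max r.num.natAbs r.den) (r.num - r.den).natAbs = (r.num - r.den).natAbs := by
      omega
    rw [hc] at hX hB
    refine ⟨by simp only; omega, hden, hcop, by simp only; omega, hX, ?_⟩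
    exact hB

theorem countQ {lam : ℝ} (hlam : 0 < lam) (B : ℝ) (δ : ℝ) (hδ : 0 < δ) :
    ∃ C : ℝ, ∀ X : ℝ, 1 ≤ X →
      {r : ℚ | r ∈ {r : ℚ | r ≠ 0 ∧ r ≠ 1 ∧ (Rd (abc r) : ℝ) ≤ B * (cc r : ℝ) ^ lam} ∧
        (cc r : ℝ) ≤ X}.Finite ∧
      ({r : ℚ | r ∈ {r : ℚ | r ≠ 0 ∧ r ≠ 1 ∧ (Rd (abc r) : ℝ) ≤ B * (cc r : ℝ) ^ lam} ∧
        (cc r : ℝ) ≤ X}.ncard : ℝ) ≤ C * X ^ (F lam + δ) := by
  obtain ⟨C, hC⟩ :=
    Pool.Agent.Results.MP_7aad9f_nt.ExceptionsEveryExponent.result lam B δ hlam hδ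
  refine ⟨3 * |C|, fun X hX => ?_⟩
  set n : ℕ := ⌊X⌋₊ with hn
  have hn1 : 1 ≤ n := Nat.le_floor (by exact_mod_cast hX)
  obtain ⟨h1, h2⟩ := hC n hn1
  set V := {r : ℚ | r ∈ {r : ℚ | r ≠ 0 ∧ r ≠ 1 ∧ (Rd (abc r) : ℝ) ≤ B * (cc r : ℝ) ^ lam} ∧
        (cc r : ℝ) ≤ X} with hV
  have hmaps : ∀ r ∈ V, (trip r, kind r) ∈ (Exceptions B lam n) ×ˢ (({0, 1, 2} : Finset ℕ) : Set ℕ) := by
    intro r hr
    obtain ⟨⟨h3, h4, h5⟩, h6⟩ := hr
    refine ⟨trip_mem h3 h4 (Nat.le_floor h6) h5, ?_⟩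
    simp only [kind]
    split_ifs <;> simp
  have hinj : Set.InjOn (fun r => (trip r, kind r)) V := by
    intro r _ r' _ h
    simp only [Prod.mk.injEq] at h
    exact trip_inj h.1 h.2
  have hfin : ((Exceptions B lam n) ×ˢ (({0, 1, 2} : Finset ℕ) : Set ℕ)).Finite :=
    h1.prod (Finset.finite_toSet _)
  have hVfin : V.Finite := Set.Finite.of_injOn hmaps hinj hfin
  refine ⟨hVfin, ?_⟩
  have h3 : V.ncard ≤ ((Exceptions B lam n) ×ˢ (({0, 1, 2} : Finset ℕ) : Set ℕ)).ncard :=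
    Set.ncard_le_ncard_of_injOn _ hmaps hinj hfin
  have h4 : ((Exceptions B lam n) ×ˢ (({0, 1, 2} : Finset ℕ) : Set ℕ)).ncard =
      (Exceptions B lam n).ncard * 3 := by
    rw [Set.ncard_prod, Set.ncard_coe_finset]
    rfl
  rw [h4] at h3
  have h5 : (V.ncard : ℝ) ≤ ((Exceptions B lam n).ncard : ℝ) * 3 := by exact_mod_cast h3
  have h6 : (n : ℝ) ≤ X := Nat.floor_le (by linarith)
  have h7 : (n : ℝ) ^ (F lam + δ) ≤ X ^ (F lam + δ) :=
    Real.rpow_le_rpow (Nat.cast_nonneg _) h6 (by linarith [F_nonneg hlam])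
  have h8 : ((Exceptions B lam n).ncard : ℝ) ≤ C * (n : ℝ) ^ (F lam + δ) := h2
  have h9 : (0 : ℝ) ≤ (n : ℝ) ^ (F lam + δ) := by positivity
  have h10 : C * (n : ℝ) ^ (F lam + δ) ≤ |C| * X ^ (F lam + δ) :=
    mul_le_mul (le_abs_self C) h7 h9 (abs_nonneg C)
  linarith

lemma cc_pos (r : ℚ) : 1 ≤ cc r := by
  unfold cc
  have := r.den_pos
  omega

lemma one_le_cc (r : ℚ) : (1 : ℝ) ≤ cc r := by exact_mod_cast cc_pos r

lemma log_cc_nonneg (r : ℚ) : 0 ≤ Real.log (cc r) := Real.log_nonneg (one_le_cc r)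

/-- finitely many `r` of bounded size -/
lemma cc_finite (X : ℝ) : {r : ℚ | (cc r : ℝ) ≤ X}.Finite := by
  refine Set.Finite.subset (s := Set.image (fun p : ℤ × ℕ => (p.1 : ℚ) / p.2)
    ((Set.Icc (-(⌊X⌋₊ : ℤ)) ⌊X⌋₊) ×ˢ (Set.Iic ⌊X⌋₊))) ?_ ?_
  · exact ((Set.finite_Icc _ _).prod (Set.finite_Iic _)).image _
  · intro r hr
    have h1 : cc r ≤ ⌊X⌋₊ := Nat.le_floor hr
    unfold cc at h1
    refine ⟨(r.num, r.den), ⟨⟨by simp only; omega, by simp only; omega⟩, ?_⟩, Rat.num_div_den r⟩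
    show r.den ≤ ⌊X⌋₊
    omega

open scoped Classical in
/-- few exceptions -/
theorem upQ [MeasurableSpace (FinAd ℚ 1)] [BorelSpace (FinAd ℚ 1)]
    (μ : Measure (FinAd ℚ 1)) [IsFiniteMeasure μ] [μ.IsAddLeftInvariant] :
    ∀ᵐ p : (Fin 1 → mixedSpace ℚ) × FinAd ℚ 1 ∂(volume.prod μ),
      ∀ V : Finset (HeightOneSpectrum (𝓞 ℚ)), ∀ lam B ε : ℝ, 0 < lam → 0 < ε →
      {r : ℚ | r ≠ 0 ∧ r ≠ 1 ∧ (Rd (abc r) : ℝ) ≤ B * (cc r : ℝ) ^ lam ∧
        (F lam + ε) * Real.log (cc r) ≤ prA V p (fun _ => r)}.Finite := by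
  have key : ∀ i : {q : ℚ // 0 < q} × ℕ,
      ∀ᵐ p : (Fin 1 → mixedSpace ℚ) × FinAd ℚ 1 ∂(volume.prod μ),
      ∀ V : Finset (HeightOneSpectrum (𝓞 ℚ)), ∀ ε : ℝ, 0 < ε → ∃ C : ℝ,
      ∀ r ∈ {r : ℚ | r ≠ 0 ∧ r ≠ 1 ∧ (Rd (abc r) : ℝ) ≤ (i.2 : ℝ) * (cc r : ℝ) ^ ((i.1.1 : ℚ) : ℝ)},
        ((1 : ℕ) : ℝ) * prA V p (fun _ => r) ≤
          (F ((i.1.1 : ℚ) : ℝ) + ε) * Real.log (cc r) + C := by
    rintro ⟨⟨q, hq⟩, N⟩
    have hq' : (0 : ℝ) < (q : ℝ) := by exact_mod_cast hq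
    exact up1A fae' (n := 1) le_rfl μ (fun (x : ℚ) (_ : Fin 1) => x)
      (fun r => (cc r : ℝ)) _ (fun x _ => one_le_cc x) (F_nonneg hq')
      (fun δ hδ => countQ hq' N δ hδ)
  filter_upwards [ae_all_iff.2 key] with p hp
  intro V lam B ε hlam hε
  obtain ⟨q, hq1, hq2⟩ := exists_rat_btwn (show lam < lam + ε / 4 by linarith)
  have hq0 : (0 : ℝ) < q := hlam.trans hq1
  obtain ⟨N, hN⟩ := exists_nat_ge B
  obtain ⟨C, hC⟩ := hp (⟨q, by exact_mod_cast hq0⟩, N) V (ε / 4) (by positivity)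
  refine (cc_finite (Real.exp (2 * |C| / ε))).subset ?_
  rintro r ⟨h0, h1, h2, h3⟩
  have hc1 := one_le_cc r
  have hc0 : (0 : ℝ) < cc r := by linarith
  have h4 := hC r ⟨h0, h1, h2.trans (mul_le_mul hN
    (Real.rpow_le_rpow_of_exponent_le hc1 hq1.le) (Real.rpow_nonneg hc0.le _)
    (Nat.cast_nonneg _))⟩
  rw [Nat.cast_one, one_mul] at h4
  simp only at h4
  have h5 : F (q : ℝ) ≤ F lam + ε / 4 := by
    have := F_lip hq1.le
    linarith
  have hl := log_cc_nonneg r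
  have h6 : (F (q : ℝ) + ε / 4) * Real.log (cc r) ≤ (F lam + ε / 4 + ε / 4) * Real.log (cc r) :=
    mul_le_mul_of_nonneg_right (by linarith) hl
  have h7 : ε / 2 * Real.log (cc r) ≤ |C| := by
    have := le_abs_self C
    nlinarith
  show (cc r : ℝ) ≤ Real.exp (2 * |C| / ε)
  rw [← Real.log_le_iff_le_exp hc0, le_div_iff₀ hε]
  linarith

lemma hh_cc (hcnv : S_CNVQ) {r : ℚ} (h0 : r ≠ 0) (h1 : r ≠ 1) :
    hh r ≤ Real.log (cc r) ∧ Real.log (cc r) ≤ hh r + Real.log 2 := by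
  rw [(hcnv r h0 h1).1]
  have hd := r.den_pos
  have h2 : 0 < max r.num.natAbs r.den := by omega
  have h3 : max r.num.natAbs r.den ≤ cc r := le_max_left _ _
  have h4 : cc r ≤ max r.num.natAbs r.den * 2 := by
    unfold cc
    omega
  have h2' : (0 : ℝ) < ((max r.num.natAbs r.den : ℕ) : ℝ) := by exact_mod_cast h2
  constructor
  · exact Real.log_le_log h2' (by exact_mod_cast h3)
  · rw [← Real.log_mul h2'.ne' two_ne_zero]
    exact Real.log_le_log (by linarith [one_le_cc r]) (by exact_mod_cast h4)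

lemma Rd_mul {a b : ℕ} (h : Nat.Coprime a b) : Rd (a * b) = Rd a * Rd b := by
  unfold Rd
  rw [h.primeFactors_mul, Finset.prod_union h.disjoint_primeFactors]

lemma Rd_pos (a : ℕ) : 0 < Rd a :=
  Finset.prod_pos fun p hp => (Nat.prime_of_mem_primeFactors hp).pos

lemma Pts_al (K : Type) [Field K] : Pts (al K) := by
  constructor
  · intro i h
    fin_cases i
    · exact one_ne_zero (congrArg Prod.snd h)
    · exact one_ne_zero (congrArg Prod.snd h)
    · exact one_ne_zero (congrArg Prod.fst h)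
  · intro i j hij
    fin_cases i <;> fin_cases j <;> simp [al] at hij ⊢

lemma kap3 : kap 3 = 1 := by
  unfold kap
  norm_num

lemma off_al {K : Type} [Field K] {r : K} (h0 : r ≠ 0) (h1 : r ≠ 1) :
    ∀ l, r * (al K l).2 - 1 * (al K l).1 ≠ 0 := by
  intro l
  fin_cases l
  · simpa [al] using h0
  · simpa [al] using sub_ne_zero.2 h1
  · simp [al]

lemma of_off_al {K : Type} [Field K] {r : K} (h : ∀ l, r * (al K l).2 - 1 * (al K l).1 ≠ 0) :
    r ≠ 0 ∧ r ≠ 1 := by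
  constructor
  · have := h 0
    simpa [al] using this
  · have := h 1
    intro h1
    apply this
    simp [al, h1]

lemma sum_sI_Q (hcnv : S_CNVQ) {r : ℚ} (h0 : r ≠ 0) (h1 : r ≠ 1) :
    ∑ l, sI ∅ (al ℚ l) r = 3 * hh r - Real.log (Rd (abc r)) := by
  obtain ⟨_, e0, e1, e2⟩ := hcnv r h0 h1
  have hcop : Nat.Coprime r.num.natAbs r.den := r.reduced
  have h3 : Rd (abc r) = Rd r.num.natAbs * Rd r.den * Rd (r.num - r.den).natAbs := by
    unfold abc
    rw [Rd_mul (Nat.Coprime.mul_left (cop3 r) (cop2 r).symm), Rd_mul hcop]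
  have hp1 : (0 : ℝ) < Rd r.num.natAbs := by exact_mod_cast Rd_pos _
  have hp2 : (0 : ℝ) < Rd r.den := by exact_mod_cast Rd_pos _
  have hp3 : (0 : ℝ) < Rd (r.num - r.den).natAbs := by exact_mod_cast Rd_pos _
  rw [h3, Fin.sum_univ_three]
  push_cast
  rw [Real.log_mul (mul_pos hp1 hp2).ne' hp3.ne', Real.log_mul hp1.ne' hp2.ne']
  linarith

/-- the statement of the theorem over `ℚ`, for the local proximity functions `f` (infinite place)
and `g p` (primes) -/
def AllQ (f : ℚ → ℝ) (g : Nat.Primes → ℚ → ℝ) : Prop :=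
  ∀ V : Finset Nat.Primes,
    (∀ lam B ε : ℝ, 0 < lam → 0 < ε →
      {r : ℚ | r ≠ 0 ∧ r ≠ 1 ∧ (Rd (abc r) : ℝ) ≤ B * (cc r : ℝ) ^ lam ∧
        (F lam + ε) * Real.log (cc r) ≤ f r + ∑ p ∈ V, g p r}.Finite) ∧
    (∀ ε : ℝ, 0 < ε → ∃ C : ℝ, ∀ r : ℚ, r ≠ 0 → r ≠ 1 →
      ((1 + ε) * Real.log (cc r) ≤ f r + ∑ p ∈ V, g p r ∨
        2 * Real.log (cc r) ≤ Real.log (Rd (abc r))) →
      Real.log (cc r) + (f r + ∑ p ∈ V, g p r) ≤
        Real.log (Rd (abc r)) + ε * Real.log (cc r) + C) ∧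
    ∀ (τ : ℝ) (σ : Nat.Primes → ℝ) (δ : Fin 3 → ℝ), 0 ≤ τ → (∀ p, 0 ≤ σ p) → (∀ i, 0 ≤ δ i) →
      ∑ i, δ i ≤ 1 → τ + ∑ p ∈ V, σ p + ∑ i, δ i ≤ 2 → ∀ ε : ℝ, 0 < ε → ∀ B : ℝ,
      ∃ r : ℚ, r ≠ 0 ∧ r ≠ 1 ∧ B ≤ Real.log (cc r) ∧
        |f r - τ * Real.log (cc r)| ≤ ε * Real.log (cc r) ∧
        (∀ p ∈ V, |g p r - σ p * Real.log (cc r)| ≤ ε * Real.log (cc r)) ∧
        |Real.log (Rd r.num.natAbs) - (1 - δ 0) * Real.log (cc r)| ≤ ε * Real.log (cc r) ∧
        |Real.log (Rd (r.num - r.den).natAbs) - (1 - δ 1) * Real.log (cc r)| ≤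
          ε * Real.log (cc r) ∧
        |Real.log (Rd r.den) - (1 - δ 2) * Real.log (cc r)| ≤ ε * Real.log (cc r)

/-- change of the height by a bounded amount -/
lemma abs_change {A t h c ε : ℝ} (hε : 0 < ε) (ht0 : 0 ≤ t) (ht : t ≤ 2)
    (h1 : h ≤ c) (h2 : c ≤ h + Real.log 2) (hB : 4 * Real.log 2 / ε ≤ h)
    (hA : |A - t * h| ≤ ε / 2 * h) : |A - t * c| ≤ ε * c := by
  have hl2 : 0 < Real.log 2 := Real.log_pos one_lt_two
  have hh0 : 0 ≤ h := le_trans (by positivity) hB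
  have h3 : 4 * Real.log 2 ≤ ε * h := by
    rw [div_le_iff₀ hε] at hB
    linarith
  have h4 : ε * h ≤ ε * c := mul_le_mul_of_nonneg_left h1 hε.le
  have h5 : 0 ≤ t * (c - h) := mul_nonneg ht0 (by linarith)
  have h6 : t * (c - h) ≤ 2 * Real.log 2 :=
    mul_le_mul ht (by linarith) (by linarith) (by norm_num)
  rw [abs_le] at hA ⊢
  constructor
  · nlinarith [hA.1]
  · nlinarith [hA.2]

open scoped Classical in
theorem allQ (hcnv : S_CNVQ) (htr : S_TRQ) [MeasurableSpace ZHat] [BorelSpace ZHat]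
    (μ : Measure ZHat) [IsFiniteMeasure μ] [μ.IsAddLeftInvariant] :
    ∀ᵐ u : ℝ × ZHat ∂(volume.prod μ),
      AllQ (fun y : ℚ => Real.log (max 1 |u.1 - (y : ℝ)|⁻¹)) (fun p y => mp u.2 p y) := by
  obtain ⟨e, _, htr⟩ := htr
  have h := htr μ (fun p => AllQ (fun y => ∑ w : InfinitePlace ℚ, (w.mult : ℝ) *
    pw p.1 w (fun _ => y)) (fun q y => pv (e.symm q) (p.2 (e.symm q)) (fun _ => y))) ?_
  · filter_upwards [h] with u hu
    obtain ⟨p, hp, h1, h2⟩ := hu
    have e1 : (fun y : ℚ => ∑ w : InfinitePlace ℚ, (w.mult : ℝ) * pw p.1 w (fun _ => y)) =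
        fun y : ℚ => Real.log (max 1 |u.1 - (y : ℝ)|⁻¹) := by
      funext y
      rw [Finset.sum_congr rfl fun w _ => h1 w y, Finset.sum_const, Finset.card_univ,
        Fintype.card_eq_one_iff_nonempty_unique.2 ⟨inferInstance⟩, one_smul]
    have e2 : (fun (q : Nat.Primes) (y : ℚ) => pv (e.symm q) (p.2 (e.symm q)) (fun _ => y)) =
        fun q y => mp u.2 q y := by
      funext q y
      rw [h2 (e.symm q) y, Equiv.apply_symm_apply]
    rw [e1, e2] at hp
    exact hp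
  · intro _ _ ν _ _
    filter_upwards [upQ ν, lawPA (K := ℚ) ν, gen_aeA (K := ℚ) (n := 1) ν] with p hp1 hp2 hgen
    intro V
    set V' : Finset (HeightOneSpectrum (𝓞 ℚ)) := V.map e.symm.toEmbedding with hV'
    have hpr : ∀ r : ℚ, ∑ w : InfinitePlace ℚ, (w.mult : ℝ) * pw p.1 w (fun _ => r) +
        ∑ q ∈ V, pv (e.symm q) (p.2 (e.symm q)) (fun _ => r) = prA V' p (fun _ => r) := by
      intro r
      unfold prA
      rw [prox_eq, hV', Finset.sum_map]
      rfl
    have hlaw := hp2 3 (by norm_num) (al ℚ) (Pts_al ℚ) ∅ Set.finite_empty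
    rw [kap3] at hlaw
    refine ⟨fun lam B ε hlam hε => ?_, fun ε hε => ?_, fun τ σ δ hτ hσ hδ hΔ hsum ε hε B => ?_⟩
    · simp only [hpr]
      exact hp1 V' lam B ε hlam hε
    · obtain ⟨C, hC⟩ := hlaw V' ε hε
      refine ⟨C + Real.log 2, fun r h0 h1 hle => ?_⟩
      simp only [hpr] at hle ⊢
      obtain ⟨g1, g2⟩ := hh_cc hcnv h0 h1
      have g3 := sum_sI_Q hcnv h0 h1
      have g4 := hh_nonneg r
      have h5 := hC r (off_al h0 h1) (by
        rw [g3]
        rcases hle with hle | hle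
        · right
          have : (1 + ε) * hh r ≤ (1 + ε) * Real.log (cc r) :=
            mul_le_mul_of_nonneg_left g1 (by linarith)
          linarith
        · left
          linarith)
      rw [g3] at h5
      have h6 : ε * hh r ≤ ε * Real.log (cc r) := mul_le_mul_of_nonneg_left g1 hε.le
      linarith
    · obtain ⟨x, hx, hB, h1, h2, h3⟩ := sharpP (q := 3) le_rfl hgen.1 hgen.2 Set.finite_empty
        (Pts_al ℚ) (by rw [kap3]; exact hlaw) V' (fun _ => τ) (fun v => σ (e v)) δ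
        (fun _ => hτ) (fun v => hσ (e v)) hδ (by rw [kap3]; exact hΔ) (by
          rw [Finset.sum_const, Finset.card_univ,
            Fintype.card_eq_one_iff_nonempty_unique.2 ⟨inferInstance⟩, one_smul, hV',
            Finset.sum_map]
          simpa using hsum) (ε / 2) (by positivity) (max B (4 * Real.log 2 / ε))
      obtain ⟨hx0, hx1⟩ := of_off_al hx
      obtain ⟨g1, g2⟩ := hh_cc hcnv hx0 hx1
      obtain ⟨_, c0, c1, c2⟩ := hcnv x hx0 hx1
      have hB1 : B ≤ hh x := (le_max_left _ _).trans hB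
      have hB2 : 4 * Real.log 2 / ε ≤ hh x := (le_max_right _ _).trans hB
      have hσV : 0 ≤ ∑ p ∈ V, σ p := Finset.sum_nonneg fun p _ => hσ p
      have hδs : 0 ≤ ∑ i, δ i := Finset.sum_nonneg fun i _ => hδ i
      have hδ1 : ∀ i, δ i ≤ 1 := fun i =>
        (Finset.single_le_sum (f := δ) (fun i _ => hδ i) (Finset.mem_univ i)).trans hΔ
      refine ⟨x, hx0, hx1, hB1.trans g1, ?_, fun q hq => ?_, ?_, ?_, ?_⟩
      · refine abs_change hε hτ (by linarith) g1 g2 hB2 ?_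
        have e1 : ∑ w : InfinitePlace ℚ, (w.mult : ℝ) * pw p.1 w (fun _ => x) =
            ((default : InfinitePlace ℚ).mult : ℝ) * pw p.1 default (fun _ => x) := by
          rw [Fintype.sum_unique]
        show |∑ w : InfinitePlace ℚ, (w.mult : ℝ) * pw p.1 w (fun _ => x) - τ * hh x| ≤ _
        rw [e1]
        exact h1 default
      · have hq' : e.symm q ∈ V' := by
          rw [hV', Finset.mem_map]
          exact ⟨q, hq, rfl⟩
        have h4 := h2 _ hq'
        simp only [Equiv.apply_symm_apply] at h4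
        have h5 : σ q ≤ 2 := by
          have := Finset.single_le_sum (f := σ) (fun p _ => hσ p) hq
          linarith
        exact abs_change hε (hσ q) h5 g1 g2 hB2 h4
      · refine abs_change hε (by linarith [hδ1 0]) (by linarith [hδ 0]) g1 g2 hB2 ?_
        have h4 := h3 0
        rw [← c0]
        rw [← abs_neg] at h4
        refine le_trans (le_of_eq ?_) h4
        congr 1
        ring
      · refine abs_change hε (by linarith [hδ1 1]) (by linarith [hδ 1]) g1 g2 hB2 ?_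
        have h4 := h3 1
        rw [← c1]
        rw [← abs_neg] at h4
        refine le_trans (le_of_eq ?_) h4
        congr 1
        ring
      · refine abs_change hε (by linarith [hδ1 2]) (by linarith [hδ 2]) g1 g2 hB2 ?_
        have h4 := h3 2
        rw [← c2]
        rw [← abs_neg] at h4
        refine le_trans (le_of_eq ?_) h4
        congr 1
        ring

end Q273.AD
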