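import Pool.Agent.Q273.AD.AbcQ

/-!
# The abc conjecture near almost every adele, over `ℚ`: one law for all triples
-/

set_option autoImplicit false
set_option linter.unusedSectionVars false

namespace Q273.AD

open MeasureTheory NumberField IsDedekindDomain Finset Pool.Agent.H691R3 Height
open Pool.Agent.W232.VA NumberField.mixedEmbedding NumberField.InfinitePlace

lemma abc_pos {r : ℚ} (h0 : r ≠ 0) (h1 : r ≠ 1) : 0 < abc r := by
  have hnum : r.num ≠ 0 := Rat.num_ne_zero.2 h0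
  have hne := num_ne_den h1
  unfold abc
  exact Nat.mul_pos (Nat.mul_pos (Int.natAbs_pos.2 hnum) r.den_pos)
    (Int.natAbs_pos.2 (sub_ne_zero.2 hne))

lemma abc_ne_one {r : ℚ} (h1 : r ≠ 1) : abc r ≠ 1 := by
  intro h
  have hne := num_ne_den h1
  unfold abc at h
  obtain ⟨h2, h3⟩ := mul_eq_one.1 h
  obtain ⟨h4, h5⟩ := mul_eq_one.1 h2
  omega

lemma two_le_Rd {m : ℕ} (h : m ≠ 1) (h0 : m ≠ 0) : 2 ≤ Rd m := by
  obtain ⟨p, hp, hpm⟩ := Nat.exists_prime_and_dvd h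
  have h2 : p ∈ m.primeFactors := Nat.mem_primeFactors.2 ⟨hp, hpm, h0⟩
  have h3 : p ≤ Rd m := Nat.le_of_dvd (Rd_pos m) (Finset.dvd_prod_of_mem _ h2)
  exact hp.two_le.trans h3

lemma Rd_le (m : ℕ) (h0 : m ≠ 0) : Rd m ≤ m :=
  Nat.le_of_dvd (Nat.pos_of_ne_zero h0) (Nat.prod_primeFactors_dvd m)

lemma abc_le (r : ℚ) : abc r ≤ cc r ^ 3 := by
  unfold abc
  have h1 : r.num.natAbs ≤ cc r := (le_max_left _ _).trans (le_max_left _ _)
  have h2 : r.den ≤ cc r := (le_max_right _ _).trans (le_max_left _ _)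
  have h3 : (r.num - r.den).natAbs ≤ cc r := le_max_right _ _
  calc r.num.natAbs * r.den * (r.num - r.den).natAbs ≤ cc r * cc r * cc r :=
        Nat.mul_le_mul (Nat.mul_le_mul h1 h2) h3
    _ = cc r ^ 3 := by ring

lemma rho_pos {r : ℚ} (h0 : r ≠ 0) (h1 : r ≠ 1) :
    0 < Real.log (Rd (abc r)) ∧ Real.log (Rd (abc r)) ≤ 3 * Real.log (cc r) := by
  have h2 := two_le_Rd (abc_ne_one h1) (abc_pos h0 h1).ne'
  have h3 := (Rd_le (abc r) (abc_pos h0 h1).ne').trans (abc_le r)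
  have h4 : (1 : ℝ) < Rd (abc r) := by exact_mod_cast h2
  refine ⟨Real.log_pos h4, ?_⟩
  have h5 : Real.log (Rd (abc r)) ≤ Real.log ((cc r : ℝ) ^ 3) :=
    Real.log_le_log (by linarith) (by exact_mod_cast h3)
  rw [Real.log_pow] at h5
  exact_mod_cast h5

/-- the law for all triples -/
theorem law_of_finite {M : ℚ → ℝ} (h : ∀ lam B ε : ℝ, 0 < lam → 0 < ε →
      {r : ℚ | r ≠ 0 ∧ r ≠ 1 ∧ (Rd (abc r) : ℝ) ≤ B * (cc r : ℝ) ^ lam ∧
        (F lam + ε) * Real.log (cc r) ≤ M r}.Finite) (ε : ℝ) (hε : 0 < ε) :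
    ∃ C : ℝ, ∀ r : ℚ, r ≠ 0 → r ≠ 1 →
      M r ≤ (F (Real.log (Rd (abc r)) / Real.log (cc r)) + ε) * Real.log (cc r) + C := by
  classical
  set g : ℕ → ℝ := fun k => ((k : ℝ) + 1) * (ε / 4) with hg
  have hg0 : ∀ k, 0 < g k := fun k => by positivity
  have hfin : ∀ k, {r : ℚ | r ≠ 0 ∧ r ≠ 1 ∧ (Rd (abc r) : ℝ) ≤ 1 * (cc r : ℝ) ^ (g k) ∧
        (F (g k) + ε / 2) * Real.log (cc r) ≤ M r}.Finite := fun k =>
    h (g k) 1 (ε / 2) (hg0 k) (by positivity)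
  set N : ℕ := ⌈12 / ε⌉₊ + 1 with hN
  set E : Finset ℚ := (Finset.range N).biUnion fun k => (hfin k).toFinset with hE
  refine ⟨∑ r ∈ E, |M r|, fun r h0 h1 => ?_⟩
  have hC0 : 0 ≤ ∑ r ∈ E, |M r| := Finset.sum_nonneg fun _ _ => abs_nonneg _
  obtain ⟨hR1, hR3⟩ := rho_pos h0 h1
  have hc0 : 0 < Real.log (cc r) := by linarith
  set ρ : ℝ := Real.log (Rd (abc r)) / Real.log (cc r) with hρ
  have hρ0 : 0 < ρ := div_pos hR1 hc0
  have hρ3 : ρ ≤ 3 := by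
    rw [hρ, div_le_iff₀ hc0]
    exact hR3
  set k : ℕ := ⌊ρ / (ε / 4)⌋₊ with hk
  have hkN : k < N := by
    have h2 : (k : ℝ) ≤ ρ / (ε / 4) := Nat.floor_le (by positivity)
    have h3 : ρ / (ε / 4) ≤ 12 / ε := by
      rw [div_le_div_iff₀ (by positivity) hε]
      nlinarith
    have h4 : (12 / ε : ℝ) ≤ (⌈12 / ε⌉₊ : ℝ) := Nat.le_ceil _
    have h5 : (k : ℝ) < (N : ℝ) := by
      rw [hN]
      push_cast
      linarith
    exact_mod_cast h5
  have hρg : ρ ≤ g k := by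
    have h2 : ρ / (ε / 4) < (k : ℝ) + 1 := Nat.lt_floor_add_one _
    rw [div_lt_iff₀ (by positivity)] at h2
    exact h2.le
  have hgρ : g k ≤ ρ + ε / 4 := by
    have h2 : (k : ℝ) ≤ ρ / (ε / 4) := Nat.floor_le (by positivity)
    rw [le_div_iff₀ (by positivity)] at h2
    simp only [hg]
    linarith
  have hF0 : 0 ≤ F ρ := F_nonneg hρ0
  by_cases hM : (F (g k) + ε / 2) * Real.log (cc r) ≤ M r
  · have hmem : r ∈ E := by
      rw [hE, Finset.mem_biUnion]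
      refine ⟨k, Finset.mem_range.2 hkN, ?_⟩
      rw [Set.Finite.mem_toFinset]
      refine ⟨h0, h1, ?_, hM⟩
      have hc1 : (0 : ℝ) < cc r := by linarith [one_le_cc r]
      have hR0 : (0 : ℝ) < Rd (abc r) := by exact_mod_cast Rd_pos _
      rw [one_mul, ← Real.log_le_log_iff hR0 (Real.rpow_pos_of_pos hc1 _), Real.log_rpow hc1]
      have h2 : Real.log (Rd (abc r)) = ρ * Real.log (cc r) := by
        rw [hρ, div_mul_cancel₀ _ hc0.ne']
      rw [h2]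
      exact mul_le_mul_of_nonneg_right hρg hc0.le
    have h2 : |M r| ≤ ∑ r ∈ E, |M r| :=
      Finset.single_le_sum (f := fun r => |M r|) (fun _ _ => abs_nonneg _) hmem
    have h3 := le_abs_self (M r)
    have h4 : 0 ≤ (F ρ + ε) * Real.log (cc r) := by positivity
    linarith
  · push Not at hM
    have h2 : F (g k) ≤ F ρ + ε / 4 := by
      have := F_lip hρg
      linarith
    have h3 : (F (g k) + ε / 2) * Real.log (cc r) ≤ (F ρ + ε) * Real.log (cc r) :=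
      mul_le_mul_of_nonneg_right (by linarith) hc0.le
    linarith

/-- the statement of the theorem over `ℚ`, for the local proximity functions `f` (infinite
place) and `g p` (primes) -/
def AllQ1 (f : ℚ → ℝ) (g : Nat.Primes → ℚ → ℝ) : Prop :=
  ∀ V : Finset Nat.Primes,
    (∀ ε : ℝ, 0 < ε → ∃ C : ℝ, ∀ r : ℚ, r ≠ 0 → r ≠ 1 →
      f r + ∑ p ∈ V, g p r ≤
        (F (Real.log (Rd (abc r)) / Real.log (cc r)) + ε) * Real.log (cc r) + C) ∧
    ∀ (τ : ℝ) (σ : Nat.Primes → ℝ) (δ : Fin 3 → ℝ), 0 ≤ τ → (∀ p, 0 ≤ σ p) → (∀ i, 0 ≤ δ i) →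
      ∑ i, δ i ≤ 1 → τ + ∑ p ∈ V, σ p + ∑ i, δ i ≤ 2 → ∀ ε : ℝ, 0 < ε → ∀ B : ℝ,
      ∃ r : ℚ, r ≠ 0 ∧ r ≠ 1 ∧ B ≤ Real.log (cc r) ∧
        |f r - τ * Real.log (cc r)| ≤ ε * Real.log (cc r) ∧
        (∀ p ∈ V, |g p r - σ p * Real.log (cc r)| ≤ ε * Real.log (cc r)) ∧
        |Real.log (Rd r.num.natAbs) - (1 - δ 0) * Real.log (cc r)| ≤ ε * Real.log (cc r) ∧
        |Real.log (Rd (r.num - r.den).natAbs) - (1 - δ 1) * Real.log (cc r)| ≤
          ε * Real.log (cc r) ∧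
        |Real.log (Rd r.den) - (1 - δ 2) * Real.log (cc r)| ≤ ε * Real.log (cc r)

open scoped Classical in
theorem allQ1 (hcnv : S_CNVQ) (htr : S_TRQ) [MeasurableSpace ZHat] [BorelSpace ZHat]
    (μ : Measure ZHat) [IsFiniteMeasure μ] [μ.IsAddLeftInvariant] :
    ∀ᵐ u : ℝ × ZHat ∂(volume.prod μ),
      AllQ1 (fun y : ℚ => Real.log (max 1 |u.1 - (y : ℝ)|⁻¹)) (fun p y => mp u.2 p y) := by
  filter_upwards [allQ hcnv htr μ] with u hu
  intro V
  obtain ⟨g1, _, g3⟩ := hu V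
  exact ⟨fun ε hε => law_of_finite g1 ε hε, g3⟩

end Q273.AD
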