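import Pool.Agent.Q273.AD.AbcQ2
import Pool.Agent.Q273.AD.AbcM2

/-!
# The abc conjecture near almost every adele, over `ℚ`: limit points and Hausdorff dimensions
-/

set_option autoImplicit false
set_option linter.unusedSectionVars false

namespace Q273.AD

open MeasureTheory NumberField IsDedekindDomain Finset Pool.Agent.H691R3 Height
open Pool.Agent.W232.VA NumberField.mixedEmbedding NumberField.InfinitePlace
open Q273.MV (prox Gen vec hh hh_nonneg sI kap Pts WW)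

/-- the numbers whose radicals are the three parts of `R(abc)` -/
def mem3 (r : ℚ) : Fin 3 → ℕ := ![r.num.natAbs, (r.num - r.den).natAbs, r.den]

lemma mem3_pos {r : ℚ} (h0 : r ≠ 0) (h1 : r ≠ 1) (i : Fin 3) : 0 < mem3 r i := by
  have hnum : r.num ≠ 0 := Rat.num_ne_zero.2 h0
  have hne := num_ne_den h1
  fin_cases i
  · exact Int.natAbs_pos.2 hnum
  · exact Int.natAbs_pos.2 (sub_ne_zero.2 hne)
  · exact r.den_pos

lemma mem3_le (r : ℚ) (i : Fin 3) : mem3 r i ≤ cc r := by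
  fin_cases i
  · exact (le_max_left _ _).trans (le_max_left _ _)
  · exact le_max_right _ _
  · exact (le_max_right _ _).trans (le_max_left _ _)

lemma logRd_nonneg (m : ℕ) : 0 ≤ Real.log (Rd m) := Real.log_nonneg (by exact_mod_cast Rd_pos m)

lemma logRd_le {r : ℚ} (h0 : r ≠ 0) (h1 : r ≠ 1) (i : Fin 3) :
    Real.log (Rd (mem3 r i)) ≤ Real.log (cc r) :=
  Real.log_le_log (by exact_mod_cast Rd_pos _)
    (by exact_mod_cast (Rd_le _ (mem3_pos h0 h1 i).ne').trans (mem3_le r i))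

lemma logRd_abc (r : ℚ) :
    Real.log (Rd (abc r)) = ∑ i, Real.log (Rd (mem3 r i)) := by
  have hcop : Nat.Coprime r.num.natAbs r.den := r.reduced
  have h3 : Rd (abc r) = Rd r.num.natAbs * Rd r.den * Rd (r.num - r.den).natAbs := by
    unfold abc
    rw [Rd_mul (Nat.Coprime.mul_left (cop3 r) (cop2 r).symm), Rd_mul hcop]
  have hp1 : (0 : ℝ) < Rd r.num.natAbs := by exact_mod_cast Rd_pos _
  have hp2 : (0 : ℝ) < Rd r.den := by exact_mod_cast Rd_pos _
  have hp3 : (0 : ℝ) < Rd (r.num - r.den).natAbs := by exact_mod_cast Rd_pos _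
  rw [h3, Fin.sum_univ_three]
  push_cast
  rw [Real.log_mul (mul_pos hp1 hp2).ne' hp3.ne', Real.log_mul hp1.ne' hp2.ne']
  show _ = Real.log (Rd r.num.natAbs) + Real.log (Rd (r.num - r.den).natAbs) +
    Real.log (Rd r.den)
  ring

/-- joint limit points of the proximities and of the radicals of the three members -/
def LimQ (V : Finset Nat.Primes) (f : ℚ → ℝ) (g : Nat.Primes → ℚ → ℝ) (τ : ℝ)
    (σ : Nat.Primes → ℝ) (θ : Fin 3 → ℝ) : Prop :=
  ∀ ε : ℝ, 0 < ε → ∀ B : ℝ, ∃ r : ℚ, r ≠ 0 ∧ r ≠ 1 ∧ B ≤ Real.log (cc r) ∧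
    |f r - τ * Real.log (cc r)| ≤ ε * Real.log (cc r) ∧
    (∀ p ∈ V, |g p r - σ p * Real.log (cc r)| ≤ ε * Real.log (cc r)) ∧
    ∀ i, |Real.log (Rd (mem3 r i)) - θ i * Real.log (cc r)| ≤ ε * Real.log (cc r)

lemma abs_zero_le' {A t ε h : ℝ} (hA : 0 ≤ A) (h1 : |A - t * h| ≤ ε * h) (hh : 0 < h) :
    -ε ≤ t := by
  rw [abs_le] at h1
  by_contra hcon
  push Not at hcon
  nlinarith [h1.2]

theorem LimQ.imp {V : Finset Nat.Primes} {f : ℚ → ℝ} {g : Nat.Primes → ℚ → ℝ} {τ : ℝ}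
    {σ : Nat.Primes → ℝ} {θ : Fin 3 → ℝ} (hf : ∀ r, 0 ≤ f r) (hg : ∀ p r, 0 ≤ g p r)
    (hlaw : ∀ ε : ℝ, 0 < ε → ∃ C : ℝ, ∀ r : ℚ, r ≠ 0 → r ≠ 1 →
      ((1 + ε) * Real.log (cc r) ≤ f r + ∑ p ∈ V, g p r ∨
        2 * Real.log (cc r) ≤ Real.log (Rd (abc r))) →
      Real.log (cc r) + (f r + ∑ p ∈ V, g p r) ≤
        Real.log (Rd (abc r)) + ε * Real.log (cc r) + C)
    (hreg : ∑ i, (1 - θ i) ≤ 1 ∨ 1 < τ + ∑ p ∈ V, σ p) (h : LimQ V f g τ σ θ) :
    0 ≤ τ ∧ (∀ p ∈ V, 0 ≤ σ p) ∧ (∀ i, 0 ≤ θ i ∧ θ i ≤ 1) ∧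
      τ + ∑ p ∈ V, σ p + ∑ i, (1 - θ i) ≤ 2 := by
  classical
  refine ⟨?_, fun v hv => ?_, fun i => ⟨?_, ?_⟩, ?_⟩
  · refine le_of_forall_pos_le_add fun ε hε => ?_
    obtain ⟨x, _, _, hB, h1, _, _⟩ := h ε hε 1
    have := abs_zero_le' (hf x) h1 (by linarith)
    linarith
  · refine le_of_forall_pos_le_add fun ε hε => ?_
    obtain ⟨x, _, _, hB, _, h1, _⟩ := h ε hε 1
    have := abs_zero_le' (hg v x) (h1 v hv) (by linarith)
    linarith
  · refine le_of_forall_pos_le_add fun ε hε => ?_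
    obtain ⟨x, _, _, hB, _, _, h1⟩ := h ε hε 1
    have := abs_zero_le' (logRd_nonneg _) (h1 i) (by linarith)
    linarith
  · refine le_of_forall_pos_le_add fun ε hε => ?_
    obtain ⟨x, x0, x1, hB, _, _, h1⟩ := h ε hε 1
    have h2 := logRd_le x0 x1 i
    have h3 := h1 i
    rw [abs_le] at h3
    by_contra hcon
    push Not at hcon
    nlinarith [h3.1]
  · by_contra hcon
    push Not at hcon
    set T0 : ℝ := τ + ∑ p ∈ V, σ p with hT0
    set Δ : ℝ := ∑ i, (1 - θ i) with hΔ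
    have hT1 : 1 < T0 := by
      rcases hreg with h1 | h1
      · linarith
      · exact h1
    set n : ℝ := 1 + (V.card : ℝ) with hn
    have hn0 : 0 ≤ n := by positivity
    set g0 : ℝ := T0 + Δ - 2 with hg0'
    have hg0 : 0 < g0 := by linarith
    set e : ℝ := min (g0 / (2 * (n + 4))) ((T0 - 1) / (n + 1)) with he
    have hepos : 0 < e := lt_min (by positivity) (div_pos (by linarith) (by linarith))
    have he1 : e * (n + 4) ≤ g0 / 2 := by
      have h1 : e ≤ g0 / (2 * (n + 4)) := min_le_left _ _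
      rw [le_div_iff₀ (by positivity)] at h1
      linarith
    have he2 : e * (n + 1) ≤ T0 - 1 := by
      have h1 : e ≤ (T0 - 1) / (n + 1) := min_le_right _ _
      rwa [le_div_iff₀ (by positivity)] at h1
    obtain ⟨C, hC⟩ := hlaw e hepos
    obtain ⟨x, x0, x1, hB, h1, h2, h3⟩ := h e hepos (2 * |C| / g0 + 1)
    have hC0 := abs_nonneg C
    have hC1 := le_abs_self C
    have h4 : 0 ≤ 2 * |C| / g0 := by positivity
    have h5 : 2 * |C| / g0 * g0 = 2 * |C| := div_mul_cancel₀ _ hg0.ne'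
    have hpos : 0 < Real.log (cc x) := by linarith
    have hpr : (T0 - n * e) * Real.log (cc x) ≤ f x + ∑ p ∈ V, g p x := by
      have h7 : ∑ v ∈ V, (σ v * Real.log (cc x) - e * Real.log (cc x)) ≤ ∑ v ∈ V, g v x :=
        Finset.sum_le_sum fun v hv => by
          have := h2 v hv
          rw [abs_le] at this
          linarith [this.1]
      rw [Finset.sum_sub_distrib, ← Finset.sum_mul, Finset.sum_const, nsmul_eq_mul] at h7
      rw [abs_le] at h1
      rw [hT0, hn]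
      nlinarith [h1.1]
    have hR : Real.log (Rd (abc x)) ≤ (3 - Δ + 3 * e) * Real.log (cc x) := by
      rw [logRd_abc]
      have h6 : ∑ i, Real.log (Rd (mem3 x i)) ≤
          ∑ i, (θ i * Real.log (cc x) + e * Real.log (cc x)) :=
        Finset.sum_le_sum fun i _ => by
          have := h3 i
          rw [abs_le] at this
          linarith [this.2]
      rw [Finset.sum_add_distrib, ← Finset.sum_mul, Finset.sum_const, Finset.card_univ,
        Fintype.card_fin, nsmul_eq_mul] at h6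
      have h8 : Δ = 3 - ∑ i, θ i := by
        rw [hΔ, Finset.sum_sub_distrib, Finset.sum_const, Finset.card_univ, Fintype.card_fin,
          nsmul_eq_mul]
        push_cast
        ring
      rw [h8]
      push_cast at h6
      linarith
    have h6 := hC x x0 x1 (Or.inl
      ((mul_le_mul_of_nonneg_right (by linarith) hpos.le).trans hpr))
    have h9 : (g0 - (n + 4) * e) * Real.log (cc x) ≤ C := by nlinarith
    have h10 : g0 / 2 * Real.log (cc x) ≤ (g0 - (n + 4) * e) * Real.log (cc x) :=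
      mul_le_mul_of_nonneg_right (by linarith) hpos.le
    nlinarith

/-- the statement of the theorem over `ℚ`, for the local proximity functions `f` (infinite
place) and `g p` (primes) -/
def AllQ2 (f : ℚ → ℝ) (g : Nat.Primes → ℚ → ℝ) : Prop :=
  ∀ V : Finset Nat.Primes,
    (∀ ε : ℝ, 0 < ε → ∃ C : ℝ, ∀ r : ℚ, r ≠ 0 → r ≠ 1 →
      f r + ∑ p ∈ V, g p r ≤
        (F (Real.log (Rd (abc r)) / Real.log (cc r)) + ε) * Real.log (cc r) + C) ∧
    (∀ ε : ℝ, 0 < ε → ∃ C : ℝ, ∀ r : ℚ, r ≠ 0 → r ≠ 1 →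
      ((1 + ε) * Real.log (cc r) ≤ f r + ∑ p ∈ V, g p r ∨
        2 * Real.log (cc r) ≤ Real.log (Rd (abc r))) →
      Real.log (cc r) + (f r + ∑ p ∈ V, g p r) ≤
        Real.log (Rd (abc r)) + ε * Real.log (cc r) + C) ∧
    ∀ (τ : ℝ) (σ : Nat.Primes → ℝ) (θ : Fin 3 → ℝ),
      (∑ i, (1 - θ i) ≤ 1 ∨ 1 < τ + ∑ p ∈ V, σ p) →
      (LimQ V f g τ σ θ ↔ 0 ≤ τ ∧ (∀ p ∈ V, 0 ≤ σ p) ∧ (∀ i, 0 ≤ θ i ∧ θ i ≤ 1) ∧
        τ + ∑ p ∈ V, σ p + ∑ i, (1 - θ i) ≤ 2)

open scoped Classical in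
theorem allQ2 (hcnv : S_CNVQ) (htr : S_TRQ) [MeasurableSpace ZHat] [BorelSpace ZHat]
    (μ : Measure ZHat) [IsFiniteMeasure μ] [μ.IsAddLeftInvariant] :
    ∀ᵐ u : ℝ × ZHat ∂(volume.prod μ),
      AllQ2 (fun y : ℚ => Real.log (max 1 |u.1 - (y : ℝ)|⁻¹)) (fun p y => mp u.2 p y) := by
  filter_upwards [allQ hcnv htr μ] with u hu
  intro V
  obtain ⟨g1, g2, g3⟩ := hu V
  refine ⟨fun ε hε => law_of_finite g1 ε hε, g2, fun τ σ θ hreg =>
    ⟨fun h => h.imp (fun r => Real.log_nonneg (le_max_left _ _))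
      (fun p r => Real.log_nonneg (le_max_left _ _)) g2 hreg, ?_⟩⟩
  rintro ⟨hτ, hσ, hθ, hsum⟩
  have hΔ : ∑ i, (1 - θ i) ≤ 1 := by
    rcases hreg with h | h
    · exact h
    · linarith
  intro ε hε B
  have e1 : ∑ v ∈ V, (if v ∈ V then σ v else 0) = ∑ v ∈ V, σ v :=
    Finset.sum_congr rfl fun v hv => if_pos hv
  obtain ⟨x, x0, x1, hB, h1, h2, h3, h4, h5⟩ := g3 τ (fun v => if v ∈ V then σ v else 0)
    (fun i => 1 - θ i) hτ
    (fun v => by
      by_cases hv : v ∈ V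
      · simp only [if_pos hv]
        exact hσ v hv
      · simp only [if_neg hv]
        exact le_rfl) (fun i => by linarith [(hθ i).2]) hΔ (by rw [e1]; exact hsum) ε hε B
  refine ⟨x, x0, x1, hB, h1, fun v hv => ?_, fun i => ?_⟩
  · have := h2 v hv
    simp only [if_pos hv] at this
    exact this
  · rw [sub_sub_cancel] at h3 h4 h5
    fin_cases i
    · exact h3
    · exact h4
    · exact h5

end Q273.AD
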