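import Pool.Agent.Q273.AD.AbcQ3
import Pool.Agent.Q177.AD.Trq
import Pool.Agent.Q225.AD.Cnvq

/-!
# The abc conjecture near real numbers, over `ℚ`: Hausdorff dimensions
-/

set_option autoImplicit false
set_option linter.unusedSectionVars false

namespace Q273.AD

open MeasureTheory NumberField IsDedekindDomain Finset Pool.Agent.H691R3 Height
open Pool.Agent.W232.VA NumberField.mixedEmbedding NumberField.InfinitePlace
open Q273.MV (prox Gen vec hh hh_nonneg sI kap Pts WW)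
open Pool.Agent.Q177.AD (isReal_rat)

/-- the copy of the real line in the mixed space of `ℚ` -/
noncomputable def iq (t : ℝ) : mixedSpace ℚ := (fun _ => t, fun _ => 0)

open scoped Classical in
theorem iq_isometry : Isometry iq := by
  refine Isometry.of_dist_eq fun s t => ?_
  haveI : Nonempty {w : InfinitePlace ℚ // w.IsReal} :=
    ⟨⟨Rat.infinitePlace, Rat.isReal_infinitePlace⟩⟩
  rw [Prod.dist_eq]
  show max (dist (fun _ : {w : InfinitePlace ℚ // w.IsReal} => s) (fun _ => t))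
    (dist (fun _ : {w : InfinitePlace ℚ // w.IsComplex} => (0 : ℂ)) (fun _ => 0)) = dist s t
  rw [dist_pi_const, dist_self, max_eq_left dist_nonneg]

theorem iq_surj : Function.Surjective iq := by
  intro z
  haveI : IsEmpty {w : InfinitePlace ℚ // w.IsComplex} :=
    ⟨fun a => InfinitePlace.not_isReal_iff_isComplex.2 a.2 (isReal_rat _)⟩
  refine ⟨z.1 ⟨Rat.infinitePlace, Rat.isReal_infinitePlace⟩, Prod.ext ?_ ?_⟩
  · funext w
    show z.1 _ = z.1 w
    have e : (⟨Rat.infinitePlace, Rat.isReal_infinitePlace⟩ :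
        {w : InfinitePlace ℚ // w.IsReal}) = w :=
      Subtype.ext (Subsingleton.elim (α := InfinitePlace ℚ) _ _)
    rw [e]
  · funext w
    exact (IsEmpty.false w).elim

theorem iq_rat (y : ℚ) : iq (y : ℝ) = mixedEmbedding ℚ y := by
  haveI : IsEmpty {w : InfinitePlace ℚ // w.IsComplex} :=
    ⟨fun a => InfinitePlace.not_isReal_iff_isComplex.2 a.2 (isReal_rat _)⟩
  refine Prod.ext ?_ ?_
  · funext w
    show (y : ℝ) = (mixedEmbedding ℚ y).1 w
    rw [mixedEmbedding_apply_isReal, eq_ratCast]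
  · funext w
    exact (IsEmpty.false w).elim

open scoped Classical in
theorem norm_iq (ξ : ℝ) (y : ℚ) : ‖iq ξ - mixedEmbedding ℚ y‖ = |ξ - (y : ℝ)| := by
  rw [← iq_rat, ← dist_eq_norm, iq_isometry.dist_eq, Real.dist_eq]

/-- real numbers which are approximated by infinitely many triples with prescribed radicals -/
def AppR (τ : ℝ) (θ : Fin 3 → ℝ) : Set ℝ :=
  {ξ | ∀ ε : ℝ, 0 < ε → ∀ B : ℝ, ∃ r : ℚ, r ≠ 0 ∧ r ≠ 1 ∧ B ≤ Real.log (cc r) ∧
    |ξ - (r : ℝ)| ≤ Real.exp (-((τ - ε) * Real.log (cc r))) ∧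
    ∀ i, Real.log (Rd (mem3 r i)) ≤ (θ i + ε) * Real.log (cc r)}

open scoped Classical in
theorem AppR_iff (τ : ℝ) (θ : Fin 3 → ℝ) (ξ : ℝ) :
    ξ ∈ AppR τ θ ↔ iq ξ ∈ WW ∅ (al ℚ) τ (fun i => 1 - θ i) := by
  have hcnv := Pool.Agent.Q225.AD.cnvq
  have hl2 : 0 < Real.log 2 := Real.log_pos one_lt_two
  -- the losses
  have hloss : ∀ r : ℚ, r ≠ 0 → r ≠ 1 → ∀ i, sI ∅ (al ℚ i) r =
      hh r - Real.log (Rd (mem3 r i)) := by
    intro r h0 h1 i
    obtain ⟨_, e0, e1, e2⟩ := hcnv r h0 h1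
    fin_cases i
    · show sI ∅ (al ℚ 0) r = hh r - Real.log (Rd r.num.natAbs)
      linarith
    · show sI ∅ (al ℚ 1) r = hh r - Real.log (Rd (r.num - r.den).natAbs)
      linarith
    · show sI ∅ (al ℚ 2) r = hh r - Real.log (Rd r.den)
      linarith
  -- the constants
  have hmax : ∀ (ε B : ℝ), ∃ B' : ℝ, B ≤ B' ∧ 2 * (|τ| + ε) * Real.log 2 / ε ≤ B' ∧
      ∀ i, 2 * (|-θ i| + ε) * Real.log 2 / ε ≤ B' := by
    intro ε B
    refine ⟨max (max B (2 * (|τ| + ε) * Real.log 2 / ε))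
      (max (max (2 * (|-θ 0| + ε) * Real.log 2 / ε) (2 * (|-θ 1| + ε) * Real.log 2 / ε))
        (2 * (|-θ 2| + ε) * Real.log 2 / ε)), ?_, ?_, fun i => ?_⟩
    · exact (le_max_left _ _).trans (le_max_left _ _)
    · exact (le_max_right _ _).trans (le_max_left _ _)
    · fin_cases i
      · exact ((le_max_left _ _).trans (le_max_left _ _)).trans (le_max_right _ _)
      · exact ((le_max_right _ _).trans (le_max_left _ _)).trans (le_max_right _ _)
      · exact (le_max_right _ _).trans (le_max_right _ _)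
  constructor
  · intro h ε hε B
    obtain ⟨B', hB1, hB2, hB3⟩ := hmax ε B
    obtain ⟨r, r0, r1, hB, h1, h2⟩ := h (ε / 2) (by positivity) (B' + Real.log 2)
    obtain ⟨g1, g2⟩ := hh_cc hcnv r0 r1
    have hab : |Real.log (cc r) - hh r| ≤ Real.log 2 := by
      rw [abs_le]
      constructor <;> linarith
    have hy : B' ≤ hh r := by linarith
    refine ⟨r, off_al r0 r1, hB1.trans hy, ?_, fun i => ?_⟩
    · rw [norm_iq]
      refine h1.trans (Real.exp_le_exp.2 ?_)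
      have := shift_le (t := τ) hε hl2.le hab (hB2.trans hy)
      linarith
    · rw [hloss r r0 r1 i]
      have h3 := shift_le (t := -θ i) hε hl2.le hab ((hB3 i).trans hy)
      have h4 := h2 i
      linarith
  · intro h ε hε B
    obtain ⟨B', hB1, hB2, hB3⟩ := hmax ε B
    obtain ⟨r, hr, hB, h1, h2⟩ := h (ε / 2) (by positivity) B'
    obtain ⟨r0, r1⟩ := of_off_al hr
    obtain ⟨g1, g2⟩ := hh_cc hcnv r0 r1
    have hab : |hh r - Real.log (cc r)| ≤ Real.log 2 := by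
      rw [abs_le]
      constructor <;> linarith
    have hy : B' ≤ Real.log (cc r) := hB.trans g1
    refine ⟨r, r0, r1, hB1.trans hy, ?_, fun i => ?_⟩
    · rw [norm_iq] at h1
      refine h1.trans (Real.exp_le_exp.2 ?_)
      have := shift_le (t := τ) hε hl2.le hab (hB2.trans hy)
      linarith
    · have h3 := shift_le (t := -θ i) hε hl2.le hab ((hB3 i).trans hy)
      have h4 := h2 i
      rw [hloss r r0 r1 i] at h4
      linarith

/-- the exact dimension, for orders from the critical one on -/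
theorem dim_AppR {τ : ℝ} {θ : Fin 3 → ℝ} (hτ : 0 < τ) (h0 : ∀ i, 0 ≤ θ i) (h1 : ∀ i, θ i ≤ 1)
    (hΔ : ∑ i, (1 - θ i) ≤ 1) (hτ2 : 2 - ∑ i, (1 - θ i) ≤ τ) :
    dimH (AppR τ θ) = ENNReal.ofReal ((2 - ∑ i, (1 - θ i)) / τ) := by
  classical
  have hk : ∑ i, (1 - θ i) ≤ kap 3 := by rw [kap3]; exact hΔ
  have e1 : iq '' (AppR τ θ) = WW ∅ (al ℚ) τ (fun i => 1 - θ i) := by
    ext z
    constructor
    · rintro ⟨ξ, hξ, rfl⟩
      exact (AppR_iff τ θ ξ).1 hξ
    · intro hz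
      obtain ⟨ξ, rfl⟩ := iq_surj z
      exact ⟨ξ, (AppR_iff τ θ ξ).2 hz, rfl⟩
  rw [← iq_isometry.dimH_image, e1]
  refine le_antisymm
    (Q273.MV.dim_up (q := 3) (by norm_num) Set.finite_empty (Pts_al ℚ) hτ hk)
    (Q273.MV.dim_low Pool.Agent.Q2.MV.low (Pool.Agent.Q61.MV.ubi Pool.Agent.Q198.MV.cantor)
      (q := 3) (by norm_num) Set.finite_empty (Pts_al ℚ) (fun i => by linarith [h1 i])
      (fun i => by linarith [h0 i]) hk hτ ?_)
  rw [Module.finrank_self, Nat.cast_one, mul_one]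
  exact hτ2

/-- real numbers which are approximated by infinitely many triples with small radical -/
def SmR (lam τ : ℝ) : Set ℝ :=
  {ξ | ∃ A : ℝ, ∀ B : ℝ, ∃ r : ℚ, r ≠ 0 ∧ r ≠ 1 ∧ B ≤ Real.log (cc r) ∧
    |ξ - (r : ℝ)| ≤ A * (cc r : ℝ) ^ (-τ) ∧ (Rd (abc r) : ℝ) ≤ A * (cc r : ℝ) ^ lam}

theorem dim_SmR {lam τ : ℝ} (h0 : 0 < lam) (hτ : 0 < τ) :
    dimH (SmR lam τ) ≤ ENNReal.ofReal (F lam / τ) := by
  obtain ⟨E, hE1, hE2⟩ := Q273.Apx.approx_family (ι := ℕ) (Y := ℝ)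
    (fun N => {r : ℚ | r ≠ 0 ∧ r ≠ 1 ∧ (Rd (abc r) : ℝ) ≤ (N : ℝ) * (cc r : ℝ) ^ lam})
    (fun r : ℚ => (cc r : ℝ)) (fun r : ℚ => (r : ℝ)) (s := F lam) (τ := τ) (F_nonneg h0) hτ
    (fun N ε hε => countQ h0 N ε hε)
  refine (dimH_mono fun ξ hξ => ?_).trans hE1
  by_contra hcon
  obtain ⟨A, hA⟩ := hξ
  obtain ⟨N, hN⟩ := exists_nat_ge A
  have hfin := hE2 ξ hcon N A
  obtain ⟨B, hB⟩ := (hfin.image (fun r : ℚ => Real.log (cc r))).bddAbove
  obtain ⟨r, r0, r1, hBr, h2, h3⟩ := hA (B + 1)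
  have hle : Real.log (cc r) ≤ B := hB ⟨r, ⟨⟨r0, r1, h3.trans ?_⟩, ?_⟩, rfl⟩
  · linarith
  · exact mul_le_mul_of_nonneg_right hN
      (Real.rpow_nonneg (zero_le_one.trans (one_le_cc r)) _)
  · rw [Real.dist_eq]
    exact h2

end Q273.AD
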