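import Pool.Agent.Q273.AD.AbcK
import Pool.Agent.Q71.AD.Cnvk
import Pool.Agent.Results.MP_f5a5f7_nt.FewExceptions

/-!
# The abc conjecture near almost every adele, over a number field: the counts
-/

set_option autoImplicit false
set_option linter.unusedSectionVars false

namespace Q273.AD

open MeasureTheory NumberField IsDedekindDomain Finset Pool.Agent.H691R3 Height
open Pool.Agent.W232.VA NumberField.mixedEmbedding NumberField.InfinitePlace
open Q273.MV (prox Gen vec hh hh_nonneg sI kap Pts)
open Q273.ADG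

variable {K : Type} [Field K] [NumberField K]

/-- the conductor -/
noncomputable abbrev cnd (y : K) : ℝ := Pool.Agent.Results.MP_f5a5f7_nt.FewExceptions.cond y

/-- the height -/
noncomputable abbrev hgt (y : K) : ℝ := Pool.Agent.Results.MP_f5a5f7_nt.FewExceptions.height y

/-- the degree -/
noncomputable abbrev dg (K : Type) [Field K] [NumberField K] : ℝ := (Module.finrank ℚ K : ℝ)

lemma dg_pos : 0 < dg K := by
  have : 0 < Module.finrank ℚ K := Module.finrank_pos
  exact_mod_cast this

lemma one_le_dg : 1 ≤ dg K := by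
  have : 0 < Module.finrank ℚ K := Module.finrank_pos
  have h2 : 1 ≤ Module.finrank ℚ K := this
  exact_mod_cast h2

lemma mk_fv (v : HeightOneSpectrum (𝓞 K)) (x : K) : FinitePlace.mk v x = fv v x := rfl

lemma dg_cond (y : K) : dg K * cnd y =
    ∑ᶠ v : HeightOneSpectrum (𝓞 K), (if FinitePlace.mk v y < 1 then
      Real.log (Ideal.absNorm v.asIdeal : ℝ) else 0) := by
  unfold cnd Pool.Agent.Results.MP_f5a5f7_nt.FewExceptions.cond
  rw [← mul_assoc, mul_one_div_cancel dg_pos.ne', one_mul]

lemma ultra (v : HeightOneSpectrum (𝓞 K)) (y : K) :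
    max (FinitePlace.mk v y) (max (FinitePlace.mk v (y - 1)) 1) = max (FinitePlace.mk v y) 1 := by
  have h1 : FinitePlace.mk v (y - 1) ≤ max (FinitePlace.mk v y) 1 := by
    have h2 := FinitePlace.add_le (FinitePlace.mk v) y (-1)
    rw [← sub_eq_add_neg] at h2
    have h3 : FinitePlace.mk v (-1 : K) = 1 := by
      have : fv v (-1 : K) = 1 := by rw [(fv v).map_neg, (fv v).map_one]
      exact this
    rw [h3] at h2
    exact h2
  rw [← max_assoc, max_comm (FinitePlace.mk v y) (FinitePlace.mk v (y - 1)), max_assoc,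
    max_eq_right h1]

lemma NK_zero (y : K) : NK ∅ (xy y) 0 = dg K * cnd y := by
  rw [dg_cond]
  unfold NK
  refine finsum_congr fun v => ?_
  classical
  rw [finsum_eq_if]
  have e0 : FinitePlace.mk v (xy y 0) = FinitePlace.mk v y := by
    show fv v (-y) = fv v y
    exact (fv v).map_neg y
  have e1 : FinitePlace.mk v (xy y 1) = FinitePlace.mk v (y - 1) := rfl
  have e2 : FinitePlace.mk v (xy y 2) = 1 := (fv v).map_one
  rw [e0, e1, e2, ultra]
  have : (v ∉ (∅ : Set (HeightOneSpectrum (𝓞 K))) ∧ FinitePlace.mk v y <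
      max (FinitePlace.mk v y) 1) ↔ FinitePlace.mk v y < 1 := by
    constructor
    · rintro ⟨_, h⟩
      rcases lt_max_iff.1 h with h | h
      · exact absurd h (lt_irrefl _)
      · exact h
    · intro h
      exact ⟨Set.notMem_empty _, lt_max_of_lt_right h⟩
  simp only [this]

lemma NK_one (y : K) : NK ∅ (xy y) 1 = dg K * cnd (y - 1) := by
  rw [dg_cond]
  unfold NK
  refine finsum_congr fun v => ?_
  classical
  rw [finsum_eq_if]
  have e0 : FinitePlace.mk v (xy y 0) = FinitePlace.mk v y := by
    show fv v (-y) = fv v y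
    exact (fv v).map_neg y
  have e1 : FinitePlace.mk v (xy y 1) = FinitePlace.mk v (y - 1) := rfl
  have e2 : FinitePlace.mk v (xy y 2) = 1 := (fv v).map_one
  rw [e0, e1, e2, ultra]
  have : (v ∉ (∅ : Set (HeightOneSpectrum (𝓞 K))) ∧ FinitePlace.mk v (y - 1) <
      max (FinitePlace.mk v y) 1) ↔ FinitePlace.mk v (y - 1) < 1 := by
    constructor
    · rintro ⟨_, h⟩
      by_contra h1
      push Not at h1
      rcases lt_max_iff.1 h with h | h
      · -- `|y - 1| < |y|` and `1 ≤ |y - 1|`
        have h2 := FinitePlace.add_le (FinitePlace.mk v) (y - 1) 1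
        rw [sub_add_cancel] at h2
        have h3 : FinitePlace.mk v (1 : K) = 1 := (fv v).map_one
        rw [h3, max_eq_left h1] at h2
        linarith
      · linarith
    · intro h
      exact ⟨Set.notMem_empty _, lt_max_of_lt_right h⟩
  simp only [this]

lemma NK_two {y : K} (hy : y ≠ 0) : NK ∅ (xy y) 2 = dg K * cnd y⁻¹ := by
  rw [dg_cond]
  unfold NK
  refine finsum_congr fun v => ?_
  classical
  rw [finsum_eq_if]
  have e0 : FinitePlace.mk v (xy y 0) = FinitePlace.mk v y := by
    show fv v (-y) = fv v y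
    exact (fv v).map_neg y
  have e1 : FinitePlace.mk v (xy y 1) = FinitePlace.mk v (y - 1) := rfl
  have e2 : FinitePlace.mk v (xy y 2) = 1 := (fv v).map_one
  rw [e0, e1, e2, ultra]
  have h0 : 0 < FinitePlace.mk v y := (fv v).pos hy
  have h5 : FinitePlace.mk v y⁻¹ = (FinitePlace.mk v y)⁻¹ := map_inv₀ (fv v) y
  have : (v ∉ (∅ : Set (HeightOneSpectrum (𝓞 K))) ∧ 1 <
      max (FinitePlace.mk v y) 1) ↔ FinitePlace.mk v y⁻¹ < 1 := by
    rw [h5, inv_lt_one₀ h0]
    constructor
    · rintro ⟨_, h⟩
      rcases lt_max_iff.1 h with h | h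
      · exact h
      · exact absurd h (lt_irrefl _)
    · intro h
      exact ⟨Set.notMem_empty _, lt_max_of_lt_left h⟩
  simp only [this]

lemma hh_height (y : K) : hh y = dg K * hgt y := by
  rw [Q71.AD.hh_form]
  unfold hgt Pool.Agent.Results.MP_f5a5f7_nt.FewExceptions.height
  rw [← mul_assoc, mul_one_div_cancel dg_pos.ne', one_mul]
  congr 1
  · refine Finset.sum_congr rfl fun w _ => ?_
    rw [map_one, max_comm]
  · refine finsum_congr fun v => ?_
    have : FinitePlace.mk v (1 : K) = 1 := (fv v).map_one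
    rw [this, max_comm]

end Q273.AD
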