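import Pool.Agent.Q273.AD.Sharp
import Pool.Agent.Q273.MV.Fin
import Pool.Agent.Q299.AD.Arch3
import Pool.Agent.Q299.AD.Ball
import Pool.Agent.Q299.AD.Fae
import Pool.Agent.Q299.AD.Fgen
import Pool.Agent.Q299.AD.ZeroLocv
import Pool.Agent.Q153.AD.Pig3
import Pool.Agent.Q149.AD.Fint
import Pool.Agent.Q182.AD.Fapx

/-!
# The metric law for almost every adelic point, assembled
-/

set_option autoImplicit false
set_option linter.unusedSectionVars false

namespace Q273.AD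

open MeasureTheory NumberField NumberField.mixedEmbedding NumberField.InfinitePlace
open IsDedekindDomain Finset Pool.Agent.W232.VA Pool.Agent.H691R3 Height
open LinearAlgebra.Projectivization
open Q273.MV (prox Gen linX lg Gd mulHeight_rep log_mulHeight_nonneg infinite_primes finite_low)

variable {K : Type} [Field K] [NumberField K] {n r : ℕ}

theorem fae' : S_FAE :=
  Pool.Agent.Q299.AD.fae Pool.Agent.Q149.AD.pvm
    (Pool.Agent.Q149.AD.fint Pool.Agent.Q299.AD.ball)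

open scoped Classical in
/-- almost every adelic point is generic -/
theorem gen_aeA [MeasurableSpace (FinAd K n)] [BorelSpace (FinAd K n)]
    (μ : Measure (FinAd K n)) [IsFiniteMeasure μ] [μ.IsAddLeftInvariant] :
    ∀ᵐ p : (Fin n → mixedSpace K) × FinAd K n ∂(volume.prod μ), Gen p.1 ∧ GenF p.2 := by
  have h1 : ∀ᵐ p : (Fin n → mixedSpace K) × FinAd K n ∂(volume.prod μ), Gen p.1 :=
    (Measure.quasiMeasurePreserving_fst (μ := (volume : Measure (Fin n → mixedSpace K)))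
      (ν := μ)).ae Q273.MV.gen_ae
  have h2 : ∀ᵐ p : (Fin n → mixedSpace K) × FinAd K n ∂(volume.prod μ), GenF p.2 :=
    (Measure.quasiMeasurePreserving_snd (μ := (volume : Measure (Fin n → mixedSpace K)))
      (ν := μ)).ae (Pool.Agent.Q299.AD.fgen K n μ)
  filter_upwards [h1, h2] with p h1 h2
  exact ⟨h1, h2⟩

/-- the lower law, with slack and on the closed range -/
theorem sharpG2 (hn : 1 ≤ n)
    {p : (Fin n → mixedSpace K) × FinAd K n} (hξ : Gen p.1) (hη : GenF p.2)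
    (b : Fin r → Fin (n + 1) → 𝓞 K) (hb : ∀ i, cz (b i) ≠ 0)
    (L : ℙ K (Fin (n + 1) → K) → ℝ) (s : Fin r → ℙ K (Fin (n + 1) → K) → ℝ) {κ0 : ℝ}
    (hκ00 : 0 < κ0) (hκ0 : κ0 ≤ 1)
    (hfin : ∀ B : ℝ, {Q : ℙ K (Fin (n + 1) → K) | (∀ i, lin (cz (b i)) Q.rep ≠ 0) ∧
      Real.log Q.mulHeight ≤ B}.Finite)
    (hlaw : LawG p b L κ0)
    (hloc : ∀ (V : Finset (HeightOneSpectrum (𝓞 K))) (P : Fin r → HeightOneSpectrum (𝓞 K)),
      Function.Injective P → (∀ i, P i ∉ V) → LocAt b L s P V)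
    (V : Finset (HeightOneSpectrum (𝓞 K)))
    (τ : InfinitePlace K → ℝ) (σ : HeightOneSpectrum (𝓞 K) → ℝ) (δ : Fin r → ℝ)
    (hτ : ∀ w, 0 ≤ τ w) (hσ : ∀ v, 0 ≤ σ v) (hδ : ∀ i, 0 ≤ δ i) (hΔ : ∑ i, δ i ≤ κ0)
    (hsum : ∑ w, τ w + ∑ v ∈ V, σ v + ∑ i, δ i ≤ n + 1) (ε : ℝ) (hε : 0 < ε) (B : ℝ) :
    ∃ Q : ℙ K (Fin (n + 1) → K), (∀ i, lin (cz (b i)) Q.rep ≠ 0) ∧ Q.rep 0 ≠ 0 ∧
      B ≤ Real.log Q.mulHeight ∧
      (∀ w : InfinitePlace K, |n * ((w.mult : ℝ) * pw p.1 w (Q273.MV.aff Q)) -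
        τ w * Real.log Q.mulHeight| ≤ ε * Real.log Q.mulHeight) ∧
      (∀ v ∈ V, |n * pv v (p.2 v) (Q273.MV.aff Q) - σ v * Real.log Q.mulHeight| ≤
        ε * Real.log Q.mulHeight) ∧
      |L Q - (∑ i, δ i) * Real.log Q.mulHeight| ≤ ε * Real.log Q.mulHeight ∧
      ∀ i, |s i Q - δ i * Real.log Q.mulHeight| ≤ ε * Real.log Q.mulHeight := by
  classical
  -- shrink the distribution
  set θ : ℝ := min (ε / 2) (1 / 2) with hθ
  have hθ0 : 0 < θ := lt_min (by positivity) (by norm_num)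
  have hθ1 : θ ≤ 1 / 2 := min_le_right _ _
  have hθε : θ ≤ ε / 2 := min_le_left _ _
  have hΔ0 : 0 ≤ ∑ i, δ i := Finset.sum_nonneg fun i _ => hδ i
  have hsumδ : ∑ i, (1 - θ) * δ i = (1 - θ) * ∑ i, δ i := (Finset.mul_sum _ _ _).symm
  have hlt : ∑ i, (1 - θ) * δ i < κ0 := by
    rw [hsumδ]
    rcases hΔ0.eq_or_lt with h | h
    · rw [← h, mul_zero]
      exact hκ00
    · nlinarith
  -- the auxiliary prime
  have hinf := infinite_primes K
  obtain ⟨u, hu⟩ := Infinite.exists_notMem_finset V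
  set slack : ℝ := n + 1 - (∑ w, τ w + ∑ v ∈ V, σ v + ∑ i, (1 - θ) * δ i) with hslack
  have hslack0 : 0 ≤ slack := by
    rw [hslack, hsumδ]
    nlinarith
  set σ' : HeightOneSpectrum (𝓞 K) → ℝ := Function.update σ u slack with hσ'
  have hσ'0 : ∀ v, 0 ≤ σ' v := by
    intro v
    rw [hσ']
    by_cases hv : v = u
    · rw [hv, Function.update_self]
      exact hslack0
    · rw [Function.update_of_ne hv]
      exact hσ v
  have hσ'V : ∀ v ∈ V, σ' v = σ v := by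
    intro v hv
    rw [hσ', Function.update_of_ne]
    intro h
    rw [h] at hv
    exact hu hv
  have hsum' : ∑ w, τ w + ∑ v ∈ insert u V, σ' v + ∑ i, (1 - θ) * δ i = n + 1 := by
    rw [Finset.sum_insert hu, Finset.sum_congr rfl hσ'V, hσ', Function.update_self, hslack]
    ring
  obtain ⟨Pf, hPf⟩ : ∃ P : Fin r → HeightOneSpectrum (𝓞 K), Function.Injective P ∧
      ∀ i, P i ∉ insert u V := by
    have hinf2 : Infinite {v : HeightOneSpectrum (𝓞 K) // v ∉ insert u V} := by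
      have h1 : ((insert u V : Finset (HeightOneSpectrum (𝓞 K))) :
          Set (HeightOneSpectrum (𝓞 K)))ᶜ.Infinite := (Finset.finite_toSet _).infinite_compl
      exact h1.to_subtype
    refine ⟨fun i => (Infinite.natEmbedding {v : HeightOneSpectrum (𝓞 K) // v ∉ insert u V} i.1).1,
      fun i j h => ?_, fun i => ?_⟩
    · exact Fin.ext ((Infinite.natEmbedding _).injective (Subtype.ext h))
    · exact (Infinite.natEmbedding {v : HeightOneSpectrum (𝓞 K) // v ∉ insert u V} i.1).2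
  obtain ⟨P, h1, h2, h3, h4, h4', h5, h6⟩ := sharpG Pool.Agent.Q153.AD.pig3
    Pool.Agent.Q299.AD.zero Pool.Agent.Q299.AD.locv Pool.Agent.Q299.AD.arch3 Q182.AD.fapx
    Q182.AD.hypv Q182.AD.hypw hn
    hξ hη b hb L s hκ0 hfin hlaw Pf (insert u V) (hloc _ Pf hPf.1 hPf.2) τ σ'
    (fun i => (1 - θ) * δ i) hτ hσ'0 (fun i => mul_nonneg (by linarith) (hδ i)) hlt hsum' (ε / 2)
    (by positivity) B
  have hH := log_mulHeight_nonneg P
  rw [hsumδ] at h5
  have hδ1 : ∀ i, δ i ≤ 1 := fun i => by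
    have := Finset.single_le_sum (f := fun i => δ i) (fun i _ => hδ i) (Finset.mem_univ i)
    linarith
  have hθH : 0 ≤ θ * Real.log P.mulHeight := mul_nonneg hθ0.le hH
  have hθεH : θ * Real.log P.mulHeight ≤ ε / 2 * Real.log P.mulHeight :=
    mul_le_mul_of_nonneg_right hθε hH
  have hεH : ε / 2 * Real.log P.mulHeight ≤ ε * Real.log P.mulHeight :=
    mul_le_mul_of_nonneg_right (by linarith) hH
  refine ⟨P, h1, h2, h3, fun w => (h4 w).trans hεH, fun v hv => ?_, ?_, fun i => ?_⟩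
  · have h7 := h4' v (Finset.mem_insert_of_mem hv)
    rw [hσ'V v hv] at h7
    exact h7.trans hεH
  · rw [abs_le] at h5 ⊢
    have e1 : 0 ≤ θ * Real.log P.mulHeight * ∑ i, δ i := mul_nonneg hθH hΔ0
    have e2 : θ * Real.log P.mulHeight * ∑ i, δ i ≤ θ * Real.log P.mulHeight := by nlinarith
    constructor
    · nlinarith [h5.1]
    · nlinarith [h5.2]
  · have h7 := h6 i
    rw [abs_le] at h7 ⊢
    have e1 : 0 ≤ θ * Real.log P.mulHeight * δ i := mul_nonneg hθH (hδ i)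
    have e2 : θ * Real.log P.mulHeight * δ i ≤ θ * Real.log P.mulHeight := by
      nlinarith [hδ1 i, hδ i]
    constructor
    · nlinarith [h7.1]
    · nlinarith [h7.2]

/-- the lower law for a general arrangement of distinct hyperplanes -/
theorem sharpA2 (hn : 1 ≤ n)
    {p : (Fin n → mixedSpace K) × FinAd K n} (hξ : Gen p.1) (hη : GenF p.2)
    (S : Finset (HeightOneSpectrum (𝓞 K))) (a : Fin r → Fin (n + 1) → K)
    (ha : ∀ i, a i ≠ 0) (hd : ∀ i l, i ≠ l → ∀ c : K, a i ≠ c • a l)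
    (hlaw : LawAt p S a) (V : Finset (HeightOneSpectrum (𝓞 K)))
    (τ : InfinitePlace K → ℝ) (σ : HeightOneSpectrum (𝓞 K) → ℝ) (δ : Fin r → ℝ)
    (hτ : ∀ w, 0 ≤ τ w) (hσ : ∀ v, 0 ≤ σ v) (hδ : ∀ i, 0 ≤ δ i) (hΔ : ∑ i, δ i ≤ 1 / 2)
    (hsum : ∑ w, τ w + ∑ v ∈ V, σ v + ∑ i, δ i ≤ n + 1) (ε : ℝ) (hε : 0 < ε) (B : ℝ) :
    ∃ P : ℙ K (Fin (n + 1) → K), (∀ i, lin (a i) P.rep ≠ 0) ∧ P.rep 0 ≠ 0 ∧
      B ≤ Real.log P.mulHeight ∧
      (∀ w : InfinitePlace K, |n * ((w.mult : ℝ) * pw p.1 w (Q273.MV.aff P)) -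
        τ w * Real.log P.mulHeight| ≤ ε * Real.log P.mulHeight) ∧
      (∀ v ∈ V, |n * pv v (p.2 v) (Q273.MV.aff P) - σ v * Real.log P.mulHeight| ≤
        ε * Real.log P.mulHeight) ∧
      |(hW a P.rep - N1 S a P.rep) - (∑ i, δ i) * Real.log P.mulHeight| ≤
        ε * Real.log P.mulHeight ∧
      ∀ i, |(Real.log P.mulHeight - N1 S (fun _ : Fin 1 => a i) P.rep) -
        δ i * Real.log P.mulHeight| ≤ ε * Real.log P.mulHeight := by
  classical
  obtain ⟨s, hs, b, hb⟩ := exists_scale a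
  have hb0 : ∀ i, cz (b i) ≠ 0 := fun i => by
    rw [hb i]; exact smul_ne_zero hs (ha i)
  have hbd : ∀ i l, i ≠ l → ∀ c : K, cz (b i) ≠ c • cz (b l) := by
    intro i l hil c h
    rw [hb i, hb l, smul_comm] at h
    exact hd i l hil c (smul_right_injective _ hs h)
  have htr : ∀ P : ℙ K (Fin (n + 1) → K), N1 S (fun i => cz (b i)) P.rep = N1 S a P.rep ∧
      hW (fun i => cz (b i)) P.rep = hW a P.rep := fun P =>
    transfer S (a := a) (b := fun i => cz (b i)) (t := 1) hs one_ne_zero hb (one_smul K _).symm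
  have htri : ∀ (i : Fin r) (P : ℙ K (Fin (n + 1) → K)),
      N1 S (fun _ : Fin 1 => cz (b i)) P.rep = N1 S (fun _ : Fin 1 => a i) P.rep := fun i P =>
    (transfer S (a := fun _ : Fin 1 => a i) (b := fun _ : Fin 1 => cz (b i)) (t := 1) hs
      one_ne_zero (fun _ => hb i) (one_smul K _).symm).1
  have hlin : ∀ (i : Fin r) (P : ℙ K (Fin (n + 1) → K)),
      lin (cz (b i)) P.rep ≠ 0 ↔ lin (a i) P.rep ≠ 0 := by
    intro i P
    rw [hb i, Pool.Agent.W232.VA.lin_smul_left]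
    constructor
    · intro h h0
      exact h (by rw [h0, mul_zero])
    · intro h
      exact mul_ne_zero hs h
  have hlaw' : LawG p b (fun Q => hW (fun i => cz (b i)) Q.rep - N1 S (fun i => cz (b i)) Q.rep)
      (1 / 2) := by
    intro V ε hε
    obtain ⟨C, hC⟩ := hlaw V ε hε
    refine ⟨C, fun P hP _ hle => ?_⟩
    simp only [(htr P).1, (htr P).2]
    refine hC P (fun i => (hlin i P).1 (hP i)) (Or.inl ?_)
    refine le_trans (le_of_eq ?_) hle
    ring
  obtain ⟨P, h1, h2, h3, h4, h4', h5, h6⟩ := sharpG2 hn hξ hη b hb0 _ _ (by norm_num)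
    (by norm_num) (finite_low (S := S) (fun i => cz (b i)) hb0) hlaw'
    (fun V P hP hPV => locAt_arr S b hb0 hbd P hP V hPV) V τ σ δ hτ hσ hδ hΔ hsum ε hε B
  simp only [(htr P).1, (htr P).2] at h5
  simp only [htri] at h6
  exact ⟨P, fun i => (hlin i P).1 (h1 i), h2, h3, h4, h4', h5, h6⟩

end Q273.AD
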