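import Pool.Agent.Q273.AD.Stm
import Pool.Agent.Q273.MV.Loc3

/-!
# Losses of integral vectors with prescribed divisibilities, content at finitely many primes removed
-/

set_option autoImplicit false
set_option linter.unusedSectionVars false

namespace Q273.AD

open NumberField IsDedekindDomain Finset Pool.Agent.H691R3 Height Pool.Agent.W232.VA
open NumberField.mixedEmbedding Q273.MV

variable {K : Type} [Field K] [NumberField K] {n r : ℕ}

theorem locV (S : Finset (HeightOneSpectrum (𝓞 K))) (b : Fin r → Fin (n + 1) → 𝓞 K)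
    (hb : ∀ i, cz (b i) ≠ 0) (hd : ∀ i l, i ≠ l → ∀ c : K, cz (b i) ≠ c • cz (b l))
    (P : Fin r → HeightOneSpectrum (𝓞 K)) (hP : Function.Injective P)
    (V : Finset (HeightOneSpectrum (𝓞 K))) (hPV : ∀ i, P i ∉ V) :
    ∃ C : ℝ, 0 ≤ C ∧ ∀ (x : Fin (n + 1) → 𝓞 K) (k : Fin r → ℕ), cz x ≠ 0 →
      (∀ i, lin (cz (b i)) (cz x) ≠ 0) → (∀ i, linZ (b i) x ∈ (P i).asIdeal ^ (k i)) →
      (∑ l, (k l : ℝ) * Real.log (Nv (P l)) - (Gd (cz x) + ∑ v ∈ V, lg v (cz x)) - C ≤
        hW (fun i => cz (b i)) (cz x) - N1 S (fun i => cz (b i)) (cz x)) ∧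
      (∀ i, (k i : ℝ) * Real.log (Nv (P i)) - (Gd (cz x) + ∑ v ∈ V, lg v (cz x)) - C ≤
        Real.log (mulHeight (cz x)) - N1 S (fun _ : Fin 1 => cz (b i)) (cz x)) ∧
      ∀ i, Real.log (mulHeight (cz x)) - N1 S (fun _ : Fin 1 => cz (b i)) (cz x) +
        ∑ l ∈ univ.erase i, (k l : ℝ) * Real.log (Nv (P l)) -
          (Gd (cz x) + ∑ v ∈ V, lg v (cz x)) - C ≤
        hW (fun i => cz (b i)) (cz x) - N1 S (fun i => cz (b i)) (cz x) := by
  classical
  set c : Fin r → ℝ := fun l => |lg (P l) (cz (b l))| + Real.log (Nv (P l)) with hc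
  have hc0 : ∀ l, 0 ≤ c l := fun l => add_nonneg (abs_nonneg _) (log_Nv_pos _).le
  have hH0 : ∀ i, 0 ≤ Real.log (mulHeight (cz (b i))) := fun i =>
    Real.log_nonneg (one_le_mulHeight _)
  have hn0 : (0 : ℝ) ≤ n := Nat.cast_nonneg n
  have hlogn : 0 ≤ Real.log ((n : ℝ) + 1) := Real.log_nonneg (by linarith)
  have hd0 : (0 : ℝ) ≤ (Module.finrank ℚ K : ℝ) := Nat.cast_nonneg _
  refine ⟨∑ l, c l + (Module.finrank ℚ K : ℝ) * Real.log ((n : ℝ) + 1) +
    ∑ i, Real.log (mulHeight (cz (b i))), ?_, ?_⟩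
  · have h1 : 0 ≤ ∑ l, c l := Finset.sum_nonneg fun l _ => hc0 l
    have h2 : 0 ≤ ∑ i, Real.log (mulHeight (cz (b i))) := Finset.sum_nonneg fun l _ => hH0 l
    have h3 := mul_nonneg hd0 hlogn
    linarith
  intro x k hx hl hk
  obtain ⟨h1, h2, h3⟩ := loc0 S hb hd P hP hx hl
  have hlam : ∀ l, (k l : ℝ) * Real.log (Nv (P l)) + lg (P l) (cz x) - c l ≤
      Pool.Agent.W232.VA.lam (fv (P l)) (cz (b l)) (cz x) - Real.log (Nv (P l)) := by
    intro l
    have e1 := lam_div (P l) (hb l) hx (hl l) (hk l)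
    have e2 := neg_abs_le (lg (P l) (cz (b l)))
    rw [hc]
    simp only
    linarith
  have hsub : ∀ U : Finset (Fin r), -(Gd (cz x) + ∑ v ∈ V, lg v (cz x)) ≤
      ∑ l ∈ U, lg (P l) (cz x) := by
    intro U
    have hdisj : Disjoint V (U.image P) := by
      rw [Finset.disjoint_left]
      intro v hv hv'
      obtain ⟨l, _, rfl⟩ := Finset.mem_image.1 hv'
      exact hPV l hv
    have e := sum_lg_ge hx (V ∪ U.image P)
    rw [Finset.sum_union hdisj, Finset.sum_image fun i _ j _ h => hP h] at e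
    linarith
  have hcV : ∀ U : Finset (Fin r), ∑ l ∈ U, c l ≤ ∑ l, c l := fun U =>
    Finset.sum_le_sum_of_subset_of_nonneg (Finset.subset_univ U) fun l _ _ => hc0 l
  have hV : ∀ U : Finset (Fin r), ∑ l ∈ U, (k l : ℝ) * Real.log (Nv (P l)) -
      (Gd (cz x) + ∑ v ∈ V, lg v (cz x)) -
      ∑ l, c l ≤ ∑ l ∈ U, (Pool.Agent.W232.VA.lam (fv (P l)) (cz (b l)) (cz x) -
        Real.log (Nv (P l))) := by
    intro U
    have e1 := Finset.sum_le_sum fun l (_ : l ∈ U) => hlam l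
    rw [Finset.sum_sub_distrib, Finset.sum_add_distrib] at e1
    have e2 := hsub U
    have e3 := hcV U
    linarith
  have hHi : ∀ i, Real.log (mulHeight (cz (b i))) ≤ ∑ i, Real.log (mulHeight (cz (b i))) :=
    fun i => Finset.single_le_sum (f := fun i => Real.log (mulHeight (cz (b i))))
      (fun l _ => hH0 l) (Finset.mem_univ i)
  have hS1 : 0 ≤ ∑ i, Real.log (mulHeight (cz (b i))) := Finset.sum_nonneg fun l _ => hH0 l
  have hS2 := mul_nonneg hd0 hlogn
  refine ⟨?_, fun i => ?_, fun i => ?_⟩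
  · have := hV univ
    linarith
  · have e1 := h2 i
    have e2 := hV {i}
    rw [Finset.sum_singleton, Finset.sum_singleton] at e2
    have e3 := hHi i
    linarith
  · have e1 := h3 i
    have e2 := hV (univ.erase i)
    have e3 := hH0 i
    linarith

end Q273.AD
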