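import Mathlib

/-!
# The numerical lemma with several places
-/

set_option autoImplicit false

namespace Q273.AD

lemma single_up {α : Type*} (A : Finset α) (X c : α → ℝ) {ρ T : ℝ}
    (hlow : ∀ w ∈ A, c w - ρ ≤ X w) (hup : ∑ w ∈ A, X w ≤ ∑ w ∈ A, c w + T) :
    ∀ w ∈ A, X w ≤ c w + T + (A.card - 1) * ρ := by
  intro w hw
  have h1 := Finset.single_le_sum (f := fun w => X w + ρ - c w)
    (fun w hw => by have := hlow w hw; linarith) hw
  rw [Finset.sum_sub_distrib, Finset.sum_add_distrib, Finset.sum_const, nsmul_eq_mul] at h1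
  linarith

theorem num3 {α β : Type*} (A : Finset α) (V : Finset β) {n h D G E C C1 Δ Cf : ℝ}
    {τ f P : α → ℝ} {σ g Q : β → ℝ} {l : ℝ}
    (hn : 1 ≤ n) (hh : 0 ≤ h) (hG : 0 ≤ G) (hC : 0 ≤ C) (hC1 : 0 ≤ C1) (hE : 0 ≤ E)
    (hΔ : 0 ≤ Δ) (hτ : ∀ w ∈ A, 0 ≤ τ w) (hσ : ∀ v ∈ V, 0 ≤ σ v)
    (hf : ∀ w ∈ A, 0 ≤ f w) (hg : ∀ v ∈ V, 0 ≤ g v)
    (hsum : ∑ w ∈ A, τ w + ∑ v ∈ V, σ v + Δ = n + 1) (hCf : Cf ≤ C)
    (a : ∑ w ∈ A, f w = n * (D - (h + G + ∑ v ∈ V, g v)) + Cf)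
    (b : ∀ w ∈ A, τ w * D - f w - C ≤ P w) (c : ∀ v ∈ V, σ v * D - n * g v - C ≤ Q v)
    (d : Δ * D - G - C ≤ l)
    (e : ∑ w ∈ A, P w + ∑ v ∈ V, Q v + l ≤ (n + 1 + E) * h + C1) :
    ∀ R : ℝ, R = (A.card + V.card + 3) * (2 * n + 3) *
      (E * h + C1 + (A.card + V.card + 3) * C) →
    (∀ w ∈ A, |P w - τ w * h| ≤ R) ∧ (∀ v ∈ V, |Q v - σ v * h| ≤ R) ∧ |l - Δ * h| ≤ R ∧
    ∀ δ s : ℝ, 0 ≤ δ → δ ≤ Δ → δ * D - G - C ≤ s → s + (Δ - δ) * D - G - C ≤ l →
      |s - δ * h| ≤ R := by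
  intro R hR
  have hA0 : (0 : ℝ) ≤ A.card := Nat.cast_nonneg _
  have hV0 : (0 : ℝ) ≤ V.card := Nat.cast_nonneg _
  have hEh : 0 ≤ E * h := mul_nonneg hE hh
  have hg0 : 0 ≤ ∑ v ∈ V, g v := Finset.sum_nonneg hg
  have hf0 : 0 ≤ ∑ w ∈ A, f w := Finset.sum_nonneg hf
  set r : ℝ := E * h + C1 + (A.card + V.card + 3) * C with hr
  have hr0 : 0 ≤ r := by positivity
  have hCr : C ≤ r := by nlinarith
  -- the height
  have b1 : (∑ w ∈ A, τ w) * D - ∑ w ∈ A, f w - A.card * C ≤ ∑ w ∈ A, P w := by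
    have := Finset.sum_le_sum b
    rw [Finset.sum_sub_distrib, Finset.sum_sub_distrib, Finset.sum_const, nsmul_eq_mul,
      ← Finset.sum_mul] at this
    exact this
  have c1 : (∑ v ∈ V, σ v) * D - n * ∑ v ∈ V, g v - V.card * C ≤ ∑ v ∈ V, Q v := by
    have := Finset.sum_le_sum c
    rw [Finset.sum_sub_distrib, Finset.sum_sub_distrib, Finset.sum_const, nsmul_eq_mul,
      ← Finset.sum_mul, ← Finset.mul_sum] at this
    exact this
  have hD : (∑ w ∈ A, τ w) * D + (∑ v ∈ V, σ v) * D + Δ * D = (n + 1) * D := by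
    rw [← hsum]
    ring
  set gs : ℝ := ∑ v ∈ V, g v with hgs
  have g1 : D + (n - 1) * G ≤ h + E * h + C1 + (A.card + V.card + 2) * C := by
    rw [a] at b1
    nlinarith
  have hn1G : 0 ≤ (n - 1) * G := mul_nonneg (by linarith) hG
  have g2 : h + G + gs ≤ D + C := by
    rw [a] at hf0
    by_contra hcon
    push Not at hcon
    nlinarith
  have g3 : G + gs ≤ r := by
    rw [hr]
    nlinarith
  have g4 : D ≤ h + r := by
    rw [hr]
    nlinarith
  have g5 : h - C ≤ D := by linarith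
  have hfs : ∑ w ∈ A, f w ≤ (n + 1) * r := by
    rw [a]
    have : D - (h + G + gs) ≤ r := by linarith
    nlinarith
  have hfw : ∀ w ∈ A, f w ≤ (n + 1) * r := fun w hw =>
    (Finset.single_le_sum (f := f) hf hw).trans hfs
  have hgv : ∀ v ∈ V, g v ≤ r := fun v hv => by
    have := Finset.single_le_sum (f := g) hg hv
    linarith
  have hτs : ∀ w ∈ A, τ w ≤ n + 1 := fun w hw => by
    have h1 := Finset.single_le_sum (f := τ) hτ hw
    have h2 : 0 ≤ ∑ v ∈ V, σ v := Finset.sum_nonneg hσ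
    linarith
  have hσs : ∀ v ∈ V, σ v ≤ n + 1 := fun v hv => by
    have h1 := Finset.single_le_sum (f := σ) hσ hv
    have h2 : 0 ≤ ∑ v ∈ A, τ v := Finset.sum_nonneg hτ
    linarith
  have hΔs : Δ ≤ n + 1 := by
    have h1 : 0 ≤ ∑ v ∈ V, σ v := Finset.sum_nonneg hσ
    have h2 : 0 ≤ ∑ v ∈ A, τ v := Finset.sum_nonneg hτ
    linarith
  -- every coefficient
  have hcoef : ∀ t : ℝ, 0 ≤ t → t ≤ n + 1 → t * h - (n + 1) * r ≤ t * D := by
    intro t ht0 ht1
    have h1 : t * (h - C) ≤ t * D := mul_le_mul_of_nonneg_left g5 ht0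
    have h2 : t * C ≤ (n + 1) * r := mul_le_mul ht1 hCr hC (by linarith)
    nlinarith
  set ρ : ℝ := (2 * n + 3) * r with hρ
  have hnr : 0 ≤ n * r := mul_nonneg (by linarith) hr0
  have hPl : ∀ w ∈ A, τ w * h - ρ ≤ P w := by
    intro w hw
    have h1 := b w hw
    have h2 := hcoef (τ w) (hτ w hw) (hτs w hw)
    have h3 := hfw w hw
    rw [hρ]
    nlinarith
  have hQl : ∀ v ∈ V, σ v * h - ρ ≤ Q v := by
    intro v hv
    have h1 := c v hv
    have h2 := hcoef (σ v) (hσ v hv) (hσs v hv)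
    have h3 : n * g v ≤ n * r := mul_le_mul_of_nonneg_left (hgv v hv) (by linarith)
    rw [hρ]
    nlinarith
  have hll : Δ * h - ρ ≤ l := by
    have h2 := hcoef Δ hΔ hΔs
    rw [hρ]
    nlinarith
  have hPs : (∑ w ∈ A, τ w) * h - A.card * ρ ≤ ∑ w ∈ A, P w := by
    have := Finset.sum_le_sum hPl
    rw [Finset.sum_sub_distrib, Finset.sum_const, nsmul_eq_mul, ← Finset.sum_mul] at this
    exact this
  have hQs : (∑ v ∈ V, σ v) * h - V.card * ρ ≤ ∑ v ∈ V, Q v := by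
    have := Finset.sum_le_sum hQl
    rw [Finset.sum_sub_distrib, Finset.sum_const, nsmul_eq_mul, ← Finset.sum_mul] at this
    exact this
  have hH : (∑ w ∈ A, τ w) * h + (∑ v ∈ V, σ v) * h + Δ * h = (n + 1) * h := by
    rw [← hsum]
    ring
  have hrEC : E * h + C1 ≤ r := by
    rw [hr]
    nlinarith
  have hrρ : r ≤ ρ := by
    rw [hρ]
    nlinarith
  have hρ0 : 0 ≤ ρ := hr0.trans hrρ
  have hRρ : R = (A.card + V.card + 3) * ρ := by
    rw [hR, hρ]
    ring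
  have hAρ : 0 ≤ A.card * ρ := mul_nonneg hA0 hρ0
  have hVρ : 0 ≤ V.card * ρ := mul_nonneg hV0 hρ0
  have hRexp : R = A.card * ρ + V.card * ρ + 3 * ρ := by
    rw [hRρ]
    ring
  have hlu : l ≤ Δ * h + (A.card * ρ + V.card * ρ + ρ) := by linarith
  refine ⟨fun w hw => ?_, fun v hv => ?_, ?_, ?_⟩
  · have h1 := single_up A P (fun w => τ w * h) (ρ := ρ) (T := E * h + C1 + (V.card + 1) * ρ)
      hPl (by
        rw [← Finset.sum_mul]
        linarith) w hw
    beta_reduce at h1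
    have h2 := hPl w hw
    rw [abs_le]
    constructor
    · linarith
    · linarith
  · have h1 := single_up V Q (fun v => σ v * h) (ρ := ρ) (T := E * h + C1 + (A.card + 1) * ρ)
      hQl (by
        rw [← Finset.sum_mul]
        linarith) v hv
    beta_reduce at h1
    have h2 := hQl v hv
    rw [abs_le]
    constructor
    · linarith
    · linarith
  · rw [abs_le]
    constructor
    · linarith
    · linarith
  · intro δ s hδ0 hδ1 hd he
    have h1 := hcoef δ hδ0 (by linarith)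
    have h2 := hcoef (Δ - δ) (by linarith) (by linarith)
    have h3 : (2 * n + 3) * r = ρ := rfl
    rw [abs_le]
    constructor
    · nlinarith
    · nlinarith

end Q273.AD
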