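import Pool.Agent.Q273.AD.Fin
import Pool.Agent.Q273.MV.P4

/-!
# The projective line: the metric law for almost every adelic point
-/

set_option autoImplicit false
set_option linter.unusedSectionVars false

namespace Q273.AD

open MeasureTheory NumberField IsDedekindDomain Finset Pool.Agent.H691R3 Height
open Pool.Agent.W232.VA NumberField.mixedEmbedding NumberField.InfinitePlace
open LinearAlgebra.Projectivization
open Pool.Agent.Results.MP_4d5ce1_nt.ExceptionalSetExponents (height counting exceptional)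
open Q273.MV (prox Gen linX lg Gd sum_lg_ge mulHeight_rep log_mulHeight_nonneg infinite_primes
  finite_low vec frm vec_ne frm_ne lin_frm_vec hh hh_eq hh_nonneg sI kap kap_pos Pts ES ES_count
  finP sum_sI_ge frm_smul loc0 lam_div counting_single tradeoff tradeoff2)

variable {K : Type} [Field K] [NumberField K] {q : ℕ}

/-- the sum of the losses, with one gcd term, content at the primes of `V` removed -/
theorem locSV {n r : ℕ} (S : Finset (HeightOneSpectrum (𝓞 K))) (b : Fin r → Fin (n + 1) → 𝓞 K)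
    (hb : ∀ i, cz (b i) ≠ 0) (hd : ∀ i l, i ≠ l → ∀ c : K, cz (b i) ≠ c • cz (b l))
    (P : Fin r → HeightOneSpectrum (𝓞 K)) (hP : Function.Injective P)
    (V : Finset (HeightOneSpectrum (𝓞 K))) (hPV : ∀ i, P i ∉ V) :
    ∃ C : ℝ, 0 ≤ C ∧ ∀ (x : Fin (n + 1) → 𝓞 K) (k : Fin r → ℕ), cz x ≠ 0 →
      (∀ i, lin (cz (b i)) (cz x) ≠ 0) → (∀ i, linZ (b i) x ∈ (P i).asIdeal ^ (k i)) →
      ∀ U : Finset (Fin r), ∑ l ∈ U, (k l : ℝ) * Real.log (Nv (P l)) -
          (Gd (cz x) + ∑ v ∈ V, lg v (cz x)) - C ≤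
        ∑ l ∈ U, (Real.log (mulHeight (cz x)) - N1 S (fun _ : Fin 1 => cz (b l)) (cz x)) := by
  classical
  have hH0 : ∀ i, 0 ≤ Real.log (mulHeight (cz (b i))) := fun i =>
    Real.log_nonneg (one_le_mulHeight _)
  have hn0 : (0 : ℝ) ≤ n := Nat.cast_nonneg n
  have hlogn : 0 ≤ Real.log ((n : ℝ) + 1) := Real.log_nonneg (by linarith)
  have hd0 : (0 : ℝ) ≤ (Module.finrank ℚ K : ℝ) := Nat.cast_nonneg _
  set c : Fin r → ℝ := fun l => |lg (P l) (cz (b l))| + Real.log (Nv (P l)) +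
    (Module.finrank ℚ K : ℝ) * Real.log ((n : ℝ) + 1) + Real.log (mulHeight (cz (b l))) with hc
  have hc0 : ∀ l, 0 ≤ c l := fun l => by
    have h1 := abs_nonneg (lg (P l) (cz (b l)))
    have h2 := (log_Nv_pos (P l)).le
    have h3 := mul_nonneg hd0 hlogn
    have h4 := hH0 l
    rw [hc]
    simp only
    linarith
  refine ⟨∑ l, c l, Finset.sum_nonneg fun l _ => hc0 l, ?_⟩
  intro x k hx hl hk U
  obtain ⟨_, h2, _⟩ := loc0 S hb hd P hP hx hl
  have hlam : ∀ l, (k l : ℝ) * Real.log (Nv (P l)) + lg (P l) (cz x) - c l ≤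
      Real.log (mulHeight (cz x)) - N1 S (fun _ : Fin 1 => cz (b l)) (cz x) := by
    intro l
    have e1 := lam_div (P l) (hb l) hx (hl l) (hk l)
    have e2 := neg_abs_le (lg (P l) (cz (b l)))
    have e3 := h2 l
    rw [hc]
    simp only
    linarith
  have hsub : -(Gd (cz x) + ∑ v ∈ V, lg v (cz x)) ≤ ∑ l ∈ U, lg (P l) (cz x) := by
    have hdisj : Disjoint V (U.image P) := by
      rw [Finset.disjoint_left]
      intro v hv hv'
      obtain ⟨l, _, rfl⟩ := Finset.mem_image.1 hv'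
      exact hPV l hv
    have e := sum_lg_ge hx (V ∪ U.image P)
    rw [Finset.sum_union hdisj, Finset.sum_image fun i _ j _ h => hP h] at e
    linarith
  have hcV : ∑ l ∈ U, c l ≤ ∑ l, c l :=
    Finset.sum_le_sum_of_subset_of_nonneg (Finset.subset_univ U) fun l _ _ => hc0 l
  have e1 := Finset.sum_le_sum fun l (_ : l ∈ U) => hlam l
  rw [Finset.sum_sub_distrib, Finset.sum_add_distrib] at e1
  linarith

/-- the upper law at the adelic point `p` -/
def LawPA (p : (Fin 1 → mixedSpace K) × FinAd K 1) (T : Set (HeightOneSpectrum (𝓞 K)))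
    (α : Fin q → K × K) (κ0 : ℝ) : Prop :=
  ∀ (V : Finset (HeightOneSpectrum (𝓞 K))) (ε : ℝ), 0 < ε → ∃ C : ℝ, ∀ x : K,
    (∀ l, x * (α l).2 - 1 * (α l).1 ≠ 0) →
    (∑ l, sI T (α l) x ≤ κ0 * hh x ∨ (2 - κ0 + ε) * hh x ≤ prA V p (fun _ => x)) →
    prA V p (fun _ => x) + ∑ l, sI T (α l) x ≤ (2 + ε) * hh x + C

open scoped Classical in
theorem lawPA [MeasurableSpace (FinAd K 1)] [BorelSpace (FinAd K 1)]
    (μ : Measure (FinAd K 1)) [IsFiniteMeasure μ] [μ.IsAddLeftInvariant] :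
    ∀ᵐ p : (Fin 1 → mixedSpace K) × FinAd K 1 ∂(volume.prod μ),
      ∀ (q : ℕ), 2 ≤ q → ∀ α : Fin q → K × K, Pts α →
      ∀ T : Set (HeightOneSpectrum (𝓞 K)), T.Finite → LawPA p T α (kap q) := by
  have : Countable K := Q273.Apx.countable_numberField K
  have : Countable {T : Set (HeightOneSpectrum (𝓞 K)) // T.Finite} :=
    Q273.Apx.countable_finite_sets K
  let ι : Type := (Σ q : ℕ, {α : Fin q → K × K // 2 ≤ q ∧ Pts α}) ×
    {T : Set (HeightOneSpectrum (𝓞 K)) // T.Finite} × {κ : ℚ // 0 ≤ κ} × ℕ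
  have key : ∀ i : ι, ∀ᵐ p : (Fin 1 → mixedSpace K) × FinAd K 1 ∂(volume.prod μ),
      ((i.2.2.1.1 : ℚ) : ℝ) < 2 → (((i.2.2.1.1 : ℚ) : ℝ) ≤ 6 / 7 ∨
        (i.1.1 = 3 ∧ ((i.2.2.1.1 : ℚ) : ℝ) ≤ 1) ∨ i.1.1 = 2) →
      ∀ V : Finset (HeightOneSpectrum (𝓞 K)), ∀ ε : ℝ, 0 < ε → ∃ C : ℝ,
      ∀ x ∈ ES i.2.1.1 i.1.2.1 ((i.2.2.1.1 : ℚ) : ℝ) i.2.2.2,
        ((1 : ℕ) : ℝ) * prA V p (fun _ => x) ≤
          (2 - ((i.2.2.1.1 : ℚ) : ℝ) + ε) * Real.log (mulHeight (vec x)) + C := by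
    rintro ⟨⟨q, α, hq, hα⟩, ⟨T, hT⟩, ⟨κ, hκ0⟩, c⟩
    have hκ0' : (0 : ℝ) ≤ (κ : ℝ) := by exact_mod_cast hκ0
    by_cases h2 : (κ : ℝ) < 2
    · by_cases h3 : (κ : ℝ) ≤ 6 / 7 ∨ (q = 3 ∧ (κ : ℝ) ≤ 1) ∨ q = 2
      · have h := up1A fae' (n := 1) le_rfl μ (fun (x : K) (_ : Fin 1) => x)
          (fun x => mulHeight (vec x)) (ES T α (κ : ℝ) c)
          (fun x _ => one_le_mulHeight _) (s := 2 - (κ : ℝ)) (by linarith)
          (fun δ hδ => ES_count hT hq hα hκ0' h2 h3 δ hδ)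
        filter_upwards [h] with p hp
        exact fun _ _ => hp
      · exact Filter.Eventually.of_forall fun p _ h => absurd h h3
    · exact Filter.Eventually.of_forall fun p h => absurd h h2
  filter_upwards [ae_all_iff.2 key] with p hp
  intro q hq α hα T hT V
  obtain ⟨c, hc⟩ := sum_sI_ge hT hα.1
  -- the grid
  have hgrid : ∀ (κ : ℚ), 0 ≤ κ → (κ : ℝ) ≤ kap q → ∀ ε : ℝ, 0 < ε → ∃ C : ℝ, ∀ x : K,
      (∀ l, x * (α l).2 - 1 * (α l).1 ≠ 0) → (κ : ℝ) * hh x ≤ ∑ l, sI T (α l) x + c →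
      prA V p (fun _ => x) ≤ (2 - (κ : ℝ) + ε) * hh x + C := by
    have hsmall : ∀ (κ : ℚ), 0 ≤ κ → (κ : ℝ) < 2 → (κ : ℝ) ≤ kap q → ∀ ε : ℝ, 0 < ε → ∃ C : ℝ,
        ∀ x : K, (∀ l, x * (α l).2 - 1 * (α l).1 ≠ 0) →
        (κ : ℝ) * hh x ≤ ∑ l, sI T (α l) x + c →
        prA V p (fun _ => x) ≤ (2 - (κ : ℝ) + ε) * hh x + C := by
      intro κ hκ0 hκ2 hκk ε hε
      obtain ⟨C, hC⟩ := hp ⟨⟨q, α, hq, hα⟩, ⟨T, hT⟩, ⟨κ, hκ0⟩, c⟩ hκ2 (by
        unfold kap at hκk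
        by_cases h2 : q = 2
        · exact Or.inr (Or.inr h2)
        · rw [if_neg h2] at hκk
          by_cases h3 : q = 3
          · rw [if_pos h3] at hκk
            exact Or.inr (Or.inl ⟨h3, hκk⟩)
          · rw [if_neg h3] at hκk
            exact Or.inl hκk) V ε hε
      refine ⟨C, fun x hx hle => ?_⟩
      have h := hC x ⟨hx, hle⟩
      push_cast at h
      rw [one_mul] at h
      exact h
    intro κ hκ0 hκk ε hε
    by_cases hκ2 : (κ : ℝ) < 2
    · exact hsmall κ hκ0 hκ2 hκk ε hε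
    · obtain ⟨κ', hκ'1, hκ'2⟩ := exists_rat_btwn (show max (0 : ℝ) (2 - ε / 2) < 2 from
        max_lt (by norm_num) (by linarith))
      have h0 : (0 : ℝ) ≤ κ' := ((le_max_left _ _).trans hκ'1.le)
      obtain ⟨C, hC⟩ := hsmall κ' (by exact_mod_cast h0) hκ'2 (by linarith) (ε / 2) (by positivity)
      refine ⟨C, fun x hx hle => ?_⟩
      have h1 := hC x hx (le_trans (mul_le_mul_of_nonneg_right (by linarith) (hh_nonneg x)) hle)
      refine h1.trans ?_
      have h2 : 2 - ε / 2 ≤ κ' := (le_max_right _ _).trans hκ'1.le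
      have hκ2' : (κ : ℝ) = 2 := by
        have h4 : kap q ≤ 2 := by
          unfold kap
          split_ifs <;> norm_num
        linarith
      have h3 := hh_nonneg x
      rw [hκ2']
      nlinarith
  have hkq : ∃ k0 : ℚ, (k0 : ℝ) = kap q ∧ 0 ≤ k0 := by
    unfold kap
    split_ifs
    · exact ⟨2, by norm_num, by norm_num⟩
    · exact ⟨1, by norm_num, by norm_num⟩
    · exact ⟨6 / 7, by norm_num, by norm_num⟩
  obtain ⟨k0, hk0, hk00⟩ := hkq
  have hgr : ∀ j J : ℕ, 0 < J → j ≤ J → ∀ ε : ℝ, 0 < ε → ∃ C : ℝ,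
      ∀ x ∈ {x : K | ∀ l, x * (α l).2 - 1 * (α l).1 ≠ 0},
      kap q * ((j : ℝ) / J) * hh x ≤ ∑ l, sI T (α l) x + c →
      prA V p (fun _ => x) ≤ (2 - kap q * ((j : ℝ) / J) + ε) * hh x + C := by
    intro j J hJ hj ε hε
    have hJ0 : (0 : ℚ) < J := by exact_mod_cast hJ
    obtain ⟨C, hC⟩ := hgrid (k0 * ((j : ℚ) / J)) (by positivity) (by
      push_cast
      rw [hk0]
      have h1 : ((j : ℝ) / J) ≤ 1 := by
        rw [div_le_one (by exact_mod_cast hJ)]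
        exact_mod_cast hj
      have h2 := kap_pos q
      nlinarith) ε hε
    refine ⟨C, fun x hx hle => ?_⟩
    have h2 := hC x hx (by
      push_cast
      rw [hk0]
      exact hle)
    push_cast at h2
    rw [hk0] at h2
    exact h2
  have h := tradeoff (fun x : K => hh x) (fun x => ∑ l, sI T (α l) x + c)
    (fun x => prA V p (fun _ => x)) {x | ∀ l, x * (α l).2 - 1 * (α l).1 ≠ 0} (n0 := 2)
    (κ0 := kap q) (by norm_num) (kap_pos q).le (fun x hx => hc x hx) (fun x _ => hh_nonneg x)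
    (fun B => finP hT hq hα B) hgr
  have h' := tradeoff2 (fun x : K => hh x) (fun x => ∑ l, sI T (α l) x + c)
    (fun x => prA V p (fun _ => x)) {x | ∀ l, x * (α l).2 - 1 * (α l).1 ≠ 0} (n0 := 2)
    (κ0 := kap q) (kap_pos q).le (fun x hx => hc x hx) (fun x _ => hh_nonneg x) hgr c
  intro ε hε
  obtain ⟨C, hC⟩ := h ε hε
  obtain ⟨C', hC'⟩ := h' ε hε
  refine ⟨max C C', fun x hx hle => ?_⟩
  have h2 : (0 : ℝ) ≤ c := Nat.cast_nonneg c
  have h3 := le_max_left C C'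
  have h4 := le_max_right C C'
  rcases hle with hle | hle
  · have h1 := hC' x hx (by linarith)
    linarith
  · have h1 := hC x hx hle
    linarith

/-- the affine coordinate of a point with nonzero first coordinate -/
lemma vec_aff (Q : ℙ K (Fin (1 + 1) → K)) (h0 : Q.rep 0 ≠ 0) :
    Q.rep = Q.rep 0 • vec (Q273.MV.aff Q 0) := by
  funext j
  refine Fin.cases ?_ (fun i => ?_) j
  · show Q.rep 0 = Q.rep 0 * 1
    rw [mul_one]
  · have hi : i = 0 := Subsingleton.elim _ _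
    rw [hi]
    show Q.rep (Fin.succ 0) = Q.rep 0 * (Q.rep (Fin.succ 0) / Q.rep 0)
    field_simp

lemma hh_aff (Q : ℙ K (Fin (1 + 1) → K)) (h0 : Q.rep 0 ≠ 0) :
    hh (Q273.MV.aff Q 0) = Real.log Q.mulHeight := by
  unfold hh
  rw [mulHeight_rep]
  conv_rhs => rw [vec_aff Q h0]
  rw [mulHeight_smul_eq_mulHeight _ h0]

lemma sI_aff {T : Set (HeightOneSpectrum (𝓞 K))} (hT : T.Finite) {α : K × K} (hα : α ≠ 0)
    {s : K} (hs : s ≠ 0) {b : Fin (1 + 1) → 𝓞 K} (hb : cz b = s • frm α)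
    (Q : ℙ K (Fin (1 + 1) → K)) (h0 : Q.rep 0 ≠ 0) (hl : lin (cz b) Q.rep ≠ 0) :
    Q273.MV.aff Q 0 * α.2 - 1 * α.1 ≠ 0 ∧
    sI T α (Q273.MV.aff Q 0) = Real.log Q.mulHeight -
      N1 hT.toFinset (fun _ : Fin 1 => cz b) Q.rep := by
  have hx : Q273.MV.aff Q 0 * α.2 - 1 * α.1 ≠ 0 := by
    rw [← lin_frm_vec]
    intro h
    apply hl
    rw [hb, Pool.Agent.W232.VA.lin_smul_left, vec_aff Q h0,
      Pool.Agent.W232.VA.lin_smul_right, h, mul_zero, mul_zero]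
  refine ⟨hx, ?_⟩
  unfold sI
  rw [hh_aff Q h0, counting_single hT hα hx]
  congr 1
  exact ((transfer hT.toFinset (a := fun _ : Fin 1 => frm α) (b := fun _ : Fin 1 => cz b) hs
    h0 (fun _ => hb) (vec_aff Q h0)).1).symm

/-- the lower law on the line -/
theorem sharpP (hq : 3 ≤ q) {p : (Fin 1 → mixedSpace K) × FinAd K 1} (hξ : Gen p.1)
    (hη : GenF p.2) {T : Set (HeightOneSpectrum (𝓞 K))} (hT : T.Finite) {α : Fin q → K × K}
    (hα : Pts α) (hlaw : LawPA p T α (kap q)) (V : Finset (HeightOneSpectrum (𝓞 K)))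
    (τ : InfinitePlace K → ℝ) (σ : HeightOneSpectrum (𝓞 K) → ℝ) (δ : Fin q → ℝ)
    (hτ : ∀ w, 0 ≤ τ w) (hσ : ∀ v, 0 ≤ σ v) (hδ : ∀ i, 0 ≤ δ i) (hΔ : ∑ i, δ i ≤ kap q)
    (hsum : ∑ w, τ w + ∑ v ∈ V, σ v + ∑ i, δ i ≤ 2) (ε : ℝ) (hε : 0 < ε) (B : ℝ) :
    ∃ x : K, (∀ l, x * (α l).2 - 1 * (α l).1 ≠ 0) ∧ B ≤ hh x ∧
      (∀ w : InfinitePlace K, |(w.mult : ℝ) * pw p.1 w (fun _ => x) - τ w * hh x| ≤ ε * hh x) ∧
      (∀ v ∈ V, |pv v (p.2 v) (fun _ => x) - σ v * hh x| ≤ ε * hh x) ∧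
      ∀ i, |sI T (α i) x - δ i * hh x| ≤ ε * hh x := by
  classical
  obtain ⟨s, hs, b, hb⟩ := exists_scale (fun i => frm (α i))
  have hb0 : ∀ i, cz (b i) ≠ 0 := fun i => by
    rw [hb i]; exact smul_ne_zero hs (frm_ne (hα.1 i))
  have hbd : ∀ i l, i ≠ l → ∀ c : K, cz (b i) ≠ c • cz (b l) := by
    intro i l hil c h
    rw [hb i, hb l, smul_comm] at h
    exact hα.2 i l hil (frm_smul (smul_right_injective _ hs h))
  have hkap1 : kap q ≤ 1 := by
    unfold kap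
    rw [if_neg (by omega)]
    split_ifs <;> norm_num
  have haffc : ∀ Q : ℙ K (Fin (1 + 1) → K), Q273.MV.aff Q = fun _ => Q273.MV.aff Q 0 := by
    intro Q
    funext j
    rw [Subsingleton.elim j 0]
  have hlaw' : LawG p b (fun Q => ∑ l, sI T (α l) (Q273.MV.aff Q 0)) (kap q) := by
    intro V ε hε
    obtain ⟨C, hC⟩ := hlaw V ε hε
    refine ⟨C, fun Q hQ h0 hle => ?_⟩
    have h1 := hC (Q273.MV.aff Q 0) (fun l => (sI_aff hT (hα.1 l) hs (hb l) Q h0 (hQ l)).1)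
      (Or.inr (by
        rw [hh_aff Q h0, ← haffc]
        push_cast at hle
        rw [one_mul] at hle
        refine le_trans (le_of_eq ?_) hle
        ring))
    rw [hh_aff Q h0, ← haffc] at h1
    push_cast
    rw [one_mul]
    refine h1.trans (le_of_eq ?_)
    ring
  have hloc : ∀ (V : Finset (HeightOneSpectrum (𝓞 K))) (P : Fin q → HeightOneSpectrum (𝓞 K)),
      Function.Injective P → (∀ i, P i ∉ V) →
      LocAt b (fun Q => ∑ l, sI T (α l) (Q273.MV.aff Q 0))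
        (fun i Q => sI T (α i) (Q273.MV.aff Q 0)) P V := by
    intro V P hP hPV
    obtain ⟨C, hC, h⟩ := locSV hT.toFinset b hb0 hbd P hP V hPV
    refine ⟨C, hC, fun x k hx hx0 hl hk => ?_⟩
    obtain ⟨u, hu⟩ := Projectivization.exists_smul_eq_mk_rep K (cz x) hx
    have hu0 : ((u : Kˣ) : K) ≠ 0 := u.ne_zero
    have hu' : (Projectivization.mk K (cz x) hx).rep = ((u : Kˣ) : K) • cz x := hu.symm
    have hrep0 : (Projectivization.mk K (cz x) hx).rep 0 ≠ 0 := by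
      rw [hu', Pi.smul_apply, smul_eq_mul]
      exact mul_ne_zero hu0 (RingOfIntegers.coe_ne_zero_iff.mpr hx0)
    have hlin : ∀ i, lin (cz (b i)) (Projectivization.mk K (cz x) hx).rep ≠ 0 := by
      intro i
      rw [hu', Pool.Agent.W232.VA.lin_smul_right]
      exact mul_ne_zero hu0 (hl i)
    have hsi : ∀ i, sI T (α i) (Q273.MV.aff (Projectivization.mk K (cz x) hx) 0) =
        Real.log (mulHeight (cz x)) - N1 hT.toFinset (fun _ : Fin 1 => cz (b i)) (cz x) := by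
      intro i
      rw [(sI_aff hT (hα.1 i) hs (hb i) _ hrep0 (hlin i)).2, Projectivization.mulHeight_mk]
      congr 1
      exact (transfer hT.toFinset (a := fun _ : Fin 1 => cz (b i))
        (b := fun _ : Fin 1 => cz (b i)) (s := 1)
        one_ne_zero hu0 (fun i => (one_smul K _).symm) hu').1
    have hmain := h x k hx hl hk
    simp only [hsi]
    refine ⟨hmain univ, fun i => ?_, fun i => ?_⟩
    · have := hmain {i}
      rwa [Finset.sum_singleton, Finset.sum_singleton] at this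
    · have h1 := hmain (univ.erase i)
      rw [← Finset.add_sum_erase univ (fun l => Real.log (mulHeight (cz x)) -
        N1 hT.toFinset (fun _ : Fin 1 => cz (b l)) (cz x)) (Finset.mem_univ i)]
      linarith
  obtain ⟨Q, h1, h2, h3, h4, h5, h6, h7⟩ := sharpG2 le_rfl hξ hη b hb0 _ _ (kap_pos q) hkap1
    (finite_low (S := ∅) (fun i => cz (b i)) hb0) hlaw' hloc V τ σ δ hτ hσ hδ hΔ (by
      push_cast
      linarith) ε hε B
  refine ⟨Q273.MV.aff Q 0, fun l => (sI_aff hT (hα.1 l) hs (hb l) Q h2 (h1 l)).1, ?_, fun w => ?_,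
    fun v hv => ?_, fun i => ?_⟩
  · rw [hh_aff Q h2]
    exact h3
  · rw [hh_aff Q h2, ← haffc]
    have := h4 w
    push_cast at this
    rwa [one_mul] at this
  · rw [hh_aff Q h2, ← haffc]
    have := h5 v hv
    push_cast at this
    rwa [one_mul] at this
  · rw [hh_aff Q h2]
    exact h7 i

end Q273.AD
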