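import Pool.Agent.Q273.AD.Up
import Pool.Agent.Q273.AD.Low
import Pool.Agent.Q273.AD.Loc
import Pool.Agent.Q273.AD.Num
import Pool.Agent.Q273.MV.Sharp

/-!
# The lower law at an adelic point: every distribution of the proximities and losses occurs
-/

set_option autoImplicit false
set_option linter.unusedSectionVars false

namespace Q273.AD

open NumberField NumberField.mixedEmbedding NumberField.InfinitePlace
open IsDedekindDomain Finset Pool.Agent.W232.VA Pool.Agent.H691R3 Height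
open LinearAlgebra.Projectivization
open Q273.MV (prox Gen linX lg Gd sum_lg_ge log_height aff mulHeight_rep finite_low Gd_nonneg)

variable {K : Type} [Field K] [NumberField K] {n r : ℕ}

lemma prox_eq (ξ : Fin n → mixedSpace K) (y : Fin n → K) :
    prox ξ y = ∑ w : InfinitePlace K, (w.mult : ℝ) * pw ξ w y := rfl

lemma n_prA (V : Finset (HeightOneSpectrum (𝓞 K))) (p : (Fin n → mixedSpace K) × FinAd K n)
    (y : Fin n → K) : (n : ℝ) * prA V p y =
      ∑ w : InfinitePlace K, (n : ℝ) * ((w.mult : ℝ) * pw p.1 w y) +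
        ∑ v ∈ V, (n : ℝ) * pv v (p.2 v) y := by
  unfold prA
  rw [prox_eq, mul_add, Finset.mul_sum, Finset.mul_sum]

/-- the three lower bounds of the losses of integral vectors with prescribed divisibilities -/
def LocAt (b : Fin r → Fin (n + 1) → 𝓞 K) (L : ℙ K (Fin (n + 1) → K) → ℝ)
    (s : Fin r → ℙ K (Fin (n + 1) → K) → ℝ) (P : Fin r → HeightOneSpectrum (𝓞 K))
    (V : Finset (HeightOneSpectrum (𝓞 K))) : Prop :=
  ∃ C : ℝ, 0 ≤ C ∧ ∀ (x : Fin (n + 1) → 𝓞 K) (k : Fin r → ℕ) (hx : cz x ≠ 0), x 0 ≠ 0 →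
    (∀ i, lin (cz (b i)) (cz x) ≠ 0) → (∀ i, linZ (b i) x ∈ (P i).asIdeal ^ (k i)) →
    (∑ l, (k l : ℝ) * Real.log (Nv (P l)) - (Gd (cz x) + ∑ v ∈ V, lg v (cz x)) - C ≤
      L (Projectivization.mk K (cz x) hx)) ∧
    (∀ i, (k i : ℝ) * Real.log (Nv (P i)) - (Gd (cz x) + ∑ v ∈ V, lg v (cz x)) - C ≤
      s i (Projectivization.mk K (cz x) hx)) ∧
    ∀ i, s i (Projectivization.mk K (cz x) hx) +
      ∑ l ∈ univ.erase i, (k l : ℝ) * Real.log (Nv (P l)) -
        (Gd (cz x) + ∑ v ∈ V, lg v (cz x)) - C ≤ L (Projectivization.mk K (cz x) hx)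

/-- the upper law at `p` for an abstract loss `L`, in the range of large proximity -/
def LawG (p : (Fin n → mixedSpace K) × FinAd K n) (b : Fin r → Fin (n + 1) → 𝓞 K)
    (L : ℙ K (Fin (n + 1) → K) → ℝ) (κ0 : ℝ) : Prop :=
  ∀ (V : Finset (HeightOneSpectrum (𝓞 K))) (ε : ℝ), 0 < ε → ∃ C : ℝ,
    ∀ Q : ℙ K (Fin (n + 1) → K), (∀ i, lin (cz (b i)) Q.rep ≠ 0) → Q.rep 0 ≠ 0 →
      ((n : ℝ) + 1 - κ0 + ε) * Real.log Q.mulHeight ≤ n * prA V p (aff Q) →
      n * prA V p (aff Q) + L Q ≤ ((n : ℝ) + 1 + ε) * Real.log Q.mulHeight + C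

theorem sharpG (hpig : S_PIG3) (hzero : S_ZERO) (hlocv : S_LOCV) (harch : S_ARCH3)
    (hapx : S_FAPX) (hhypv : S_HYPV) (hhypw : S_HYPW) (hn : 1 ≤ n)
    {p : (Fin n → mixedSpace K) × FinAd K n} (hξ : Gen p.1) (hη : GenF p.2)
    (b : Fin r → Fin (n + 1) → 𝓞 K) (hb : ∀ i, cz (b i) ≠ 0)
    (L : ℙ K (Fin (n + 1) → K) → ℝ) (s : Fin r → ℙ K (Fin (n + 1) → K) → ℝ) {κ0 : ℝ}
    (hκ0 : κ0 ≤ 1)
    (hfin : ∀ B : ℝ, {Q : ℙ K (Fin (n + 1) → K) | (∀ i, lin (cz (b i)) Q.rep ≠ 0) ∧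
      Real.log Q.mulHeight ≤ B}.Finite)
    (hlaw : LawG p b L κ0) (P : Fin r → HeightOneSpectrum (𝓞 K))
    (V : Finset (HeightOneSpectrum (𝓞 K))) (hloc : LocAt b L s P V)
    (τ : InfinitePlace K → ℝ) (σ : HeightOneSpectrum (𝓞 K) → ℝ) (δ : Fin r → ℝ)
    (hτ : ∀ w, 0 ≤ τ w) (hσ : ∀ v, 0 ≤ σ v) (hδ : ∀ i, 0 ≤ δ i) (hΔ : ∑ i, δ i < κ0)
    (hsum : ∑ w, τ w + ∑ v ∈ V, σ v + ∑ i, δ i = n + 1) (ε : ℝ) (hε : 0 < ε) (B : ℝ) :
    ∃ Q : ℙ K (Fin (n + 1) → K), (∀ i, lin (cz (b i)) Q.rep ≠ 0) ∧ Q.rep 0 ≠ 0 ∧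
      B ≤ Real.log Q.mulHeight ∧
      (∀ w : InfinitePlace K, |n * ((w.mult : ℝ) * pw p.1 w (aff Q)) -
        τ w * Real.log Q.mulHeight| ≤ ε * Real.log Q.mulHeight) ∧
      (∀ v ∈ V, |n * pv v (p.2 v) (aff Q) - σ v * Real.log Q.mulHeight| ≤
        ε * Real.log Q.mulHeight) ∧
      |L Q - (∑ i, δ i) * Real.log Q.mulHeight| ≤ ε * Real.log Q.mulHeight ∧
      ∀ i, |s i Q - δ i * Real.log Q.mulHeight| ≤ ε * Real.log Q.mulHeight := by
  classical
  set Δ : ℝ := ∑ i, δ i with hΔdef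
  have hΔ0 : 0 ≤ Δ := Finset.sum_nonneg fun i _ => hδ i
  have hδΔ : ∀ i, δ i ≤ Δ := fun i =>
    Finset.single_le_sum (f := fun i => δ i) (fun i _ => hδ i) (Finset.mem_univ i)
  obtain ⟨Ca, hCa, hloc⟩ := hloc
  obtain ⟨Cb, t0, hCb, hlow⟩ := low3 hpig hzero hlocv harch hapx hn hξ hη b P V τ σ δ hτ hσ hδ
    (by linarith) hsum
  have hhyp : ∀ i, ∃ c : ℝ, ∀ y : Fin n → K,
      cz (b i) 0 + ∑ j, cz (b i) j.succ * y j = 0 → (n : ℝ) * prA V p y ≤ c := by
    intro i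
    have h1 : ∀ w : InfinitePlace K, ∃ C : ℝ, ∀ y : Fin n → K,
        cz (b i) 0 + ∑ j, cz (b i) j.succ * y j = 0 → pw p.1 w y ≤ C := fun w =>
      hhypw K n hn p.1 (cz (b i)) w (hξ _ (hb i) w)
    have h2 : ∀ v : HeightOneSpectrum (𝓞 K), ∃ C : ℝ, ∀ y : Fin n → K,
        cz (b i) 0 + ∑ j, cz (b i) j.succ * y j = 0 → pv v (p.2 v) y ≤ C := fun v =>
      hhypv K n hn v (p.2 v) (cz (b i)) (hη v _ (hb i))
    choose c1 hc1 using h1
    choose c2 hc2 using h2
    refine ⟨∑ w : InfinitePlace K, (n : ℝ) * ((w.mult : ℝ) * c1 w) + ∑ v ∈ V, (n : ℝ) * c2 v,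
      fun y hy => ?_⟩
    rw [n_prA]
    refine add_le_add (Finset.sum_le_sum fun w _ => ?_) (Finset.sum_le_sum fun v _ => ?_)
    · exact mul_le_mul_of_nonneg_left (mul_le_mul_of_nonneg_left (hc1 w y hy)
        (Nat.cast_nonneg _)) (Nat.cast_nonneg _)
    · exact mul_le_mul_of_nonneg_left (hc2 v y hy) (Nat.cast_nonneg _)
  choose Ch hCh using hhyp
  set d : ℕ := Module.finrank ℚ K with hdd
  have hdpos : 0 < d := Module.finrank_pos
  have hdr : (0 : ℝ) < (d : ℝ) := by exact_mod_cast hdpos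
  have hnr : (1 : ℝ) ≤ (n : ℝ) := by exact_mod_cast hn
  set M : ℝ := ((univ : Finset (InfinitePlace K)).card : ℝ) + (V.card : ℝ) with hM
  have hM0 : 0 ≤ M := by positivity
  set γ : ℝ := (κ0 - Δ) / 2 with hγ
  have hγ0 : 0 < γ := by rw [hγ]; linarith
  set κ : ℝ := (M + 3) * (2 * n + 3) with hκ
  have hκ0 : 0 < κ := by positivity
  set ε1 : ℝ := min (ε / (2 * κ)) γ with hε1
  have hε10 : 0 < ε1 := lt_min (by positivity) hγ0
  obtain ⟨C1', hC1'⟩ := hlaw V ε1 hε10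
  set C1 : ℝ := max C1' 0 with hC1
  have hC10 : 0 ≤ C1 := le_max_right _ _
  set C : ℝ := Ca + (1 + r + n * d) * Cb with hC
  have hrr : (0 : ℝ) ≤ r := Nat.cast_nonneg r
  have hC0 : 0 ≤ C := by positivity
  have hndCb : 0 ≤ (n * d : ℝ) * Cb := by positivity
  have hrCb : 0 ≤ (r : ℝ) * Cb := by positivity
  have hCexp : C = Ca + Cb + r * Cb + n * d * Cb := by rw [hC]; ring
  set H0 : ℝ := max (max ((M + 2) * C / γ) B) (2 * (κ * (C1 + (M + 3) * C)) / ε) with hH0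
  obtain ⟨p0, hp00, hp0⟩ : ∃ p0 : ℝ, 0 ≤ p0 ∧ ∀ Q : ℙ K (Fin (n + 1) → K),
      (∀ i, lin (cz (b i)) Q.rep ≠ 0) → Real.log Q.mulHeight ≤ H0 →
      (n : ℝ) * prA V p (aff Q) ≤ p0 := by
    refine ⟨∑ Q ∈ (hfin H0).toFinset,
      |(n : ℝ) * prA V p (aff Q)|, Finset.sum_nonneg fun _ _ => abs_nonneg _, fun Q h1 h2 => ?_⟩
    exact (le_abs_self _).trans (Finset.single_le_sum (f := fun Q => |(n : ℝ) * prA V p (aff Q)|)
        (fun _ _ => abs_nonneg _) ((Set.Finite.mem_toFinset _).2 ⟨h1, h2⟩))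
  obtain ⟨c0, hc00, hc0⟩ : ∃ c0 : ℝ, 0 ≤ c0 ∧ ∀ i, Ch i ≤ c0 :=
    ⟨∑ i, |Ch i|, Finset.sum_nonneg fun _ _ => abs_nonneg _, fun i =>
      (le_abs_self _).trans (Finset.single_le_sum (f := fun i => |Ch i|)
        (fun _ _ => abs_nonneg _) (Finset.mem_univ i))⟩
  have h1Δ : 0 < 1 - Δ := by linarith
  obtain ⟨t, ht0, htt0, htd⟩ : ∃ t : ℝ, 0 ≤ t ∧ t0 ≤ t ∧
      (M + 1) * C + p0 + c0 + 1 ≤ (1 - Δ) * (d * t) := by
    refine ⟨max ((((M + 1) * C + p0 + c0 + 1) / ((1 - Δ) * d))) t0, ?_, le_max_right _ _, ?_⟩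
    · refine le_trans ?_ (le_max_left _ _)
      exact div_nonneg (by positivity) (mul_nonneg h1Δ.le hdr.le)
    · have h1 := le_max_left ((((M + 1) * C + p0 + c0 + 1) / ((1 - Δ) * d))) t0
      rw [div_le_iff₀ (mul_pos h1Δ hdr)] at h1
      linarith
  obtain ⟨x, k, hx0, hk, hk2, hMt, hPw, hQv⟩ := hlow t ht0 htt0
  have hx0' : ((x 0 : 𝓞 K) : K) ≠ 0 := RingOfIntegers.coe_ne_zero_iff.mpr hx0
  have hx : cz x ≠ 0 := fun h => hx0' (congrFun h 0)
  set y : Fin n → K := fun j => ((x j.succ : 𝓞 K) : K) / ((x 0 : 𝓞 K) : K) with hy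
  set h : ℝ := Real.log (mulHeight (cz x)) with hh
  have hH : 0 ≤ h := Real.log_nonneg (one_le_mulHeight _)
  set G : ℝ := Gd (cz x) + ∑ v ∈ V, lg v (cz x) with hG
  have hG0 : 0 ≤ G := by
    have := sum_lg_ge hx V
    rw [hG]
    linarith
  set D : ℝ := d * t with hD
  have hD0 : 0 ≤ D := mul_nonneg hdr.le ht0
  set Mw : InfinitePlace K → ℝ := fun w => Real.log (⨆ j, w (cz x j)) with hMw
  have hheight : ∑ w : InfinitePlace K, (w.mult : ℝ) * Mw w = h + Gd (cz x) := by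
    rw [hh, log_height hx]
    ring
  set g : HeightOneSpectrum (𝓞 K) → ℝ := fun v => -lg v (cz x) with hg
  have hg0 : ∀ v ∈ V, 0 ≤ g v := fun v _ => neg_nonneg.2 (Q273.MV.lg_nonpos v x)
  have hGd : Gd (cz x) = G + ∑ v ∈ V, g v := by
    rw [hG, hg, Finset.sum_neg_distrib]
    ring
  set f : InfinitePlace K → ℝ := fun w => n * ((w.mult : ℝ) * (t + Cb - Mw w)) with hf
  have hf0 : ∀ w ∈ (univ : Finset (InfinitePlace K)), 0 ≤ f w := fun w _ => by
    have h1 := hMt w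
    have h2 : 0 ≤ t + Cb - Mw w := by rw [hMw]; simp only; linarith
    rw [hf]
    simp only
    exact mul_nonneg (Nat.cast_nonneg _) (mul_nonneg (Nat.cast_nonneg _) h2)
  have hfs : ∑ w, f w = n * (D - (h + G + ∑ v ∈ V, g v)) + n * d * Cb := by
    have e1 : ∑ w : InfinitePlace K, f w =
        n * ((∑ w : InfinitePlace K, (w.mult : ℝ)) * (t + Cb) -
          ∑ w : InfinitePlace K, (w.mult : ℝ) * Mw w) := by
      rw [Finset.sum_mul, ← Finset.sum_sub_distrib, Finset.mul_sum]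
      refine Finset.sum_congr rfl fun w _ => ?_
      rw [hf]
      ring
    rw [e1, hheight, sum_mult_real, hGd, hD]
    ring
  set Pw : InfinitePlace K → ℝ := fun w => n * ((w.mult : ℝ) * pw p.1 w y) with hPwdef
  set Qv : HeightOneSpectrum (𝓞 K) → ℝ := fun v => n * pv v (p.2 v) y with hQvdef
  have hCbC : Cb ≤ C := by rw [hCexp]; linarith
  have hPwl : ∀ w ∈ (univ : Finset (InfinitePlace K)), τ w * D - f w - C ≤ Pw w := fun w _ => by
    have h1 := hPw w
    have h2 : f w = n * ((w.mult : ℝ) * Cb) - n * ((w.mult : ℝ) * (Mw w - t)) := by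
      rw [hf]
      ring
    have h3 : 0 ≤ n * ((w.mult : ℝ) * Cb) := by positivity
    rw [h2, hPwdef]
    simp only
    linarith
  have hQvl : ∀ v ∈ V, σ v * D - n * g v - C ≤ Qv v := fun v hv => by
    have h1 := hQv v hv
    rw [hQvdef, hg]
    simp only
    linarith
  have hprlow : (1 - Δ) * D + n * (h + G) - (M + 1) * C ≤ n * prA V p y := by
    rw [n_prA]
    have e1 := Finset.sum_le_sum hPwl
    have e2 := Finset.sum_le_sum hQvl
    rw [Finset.sum_sub_distrib, Finset.sum_sub_distrib, Finset.sum_const, nsmul_eq_mul,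
      ← Finset.sum_mul, hfs] at e1
    rw [Finset.sum_sub_distrib, Finset.sum_sub_distrib, Finset.sum_const, nsmul_eq_mul,
      ← Finset.sum_mul, ← Finset.mul_sum] at e2
    have e3 : (∑ w, τ w) * D + (∑ v ∈ V, σ v) * D = (n + 1 - Δ) * D := by
      rw [← add_mul]
      congr 1
      linarith
    have e4 : (n * d : ℝ) * Cb ≤ C := by rw [hCexp]; linarith
    have e5 : (M + 1) * C = ((univ : Finset (InfinitePlace K)).card : ℝ) * C + V.card * C + C := by
      rw [hM]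
      ring
    rw [e5]
    have e6 : (n + 1 - Δ) * D = n * D + (1 - Δ) * D := by ring
    linarith
  have hprox : p0 + c0 + 1 ≤ n * prA V p y := by
    have h1 : 0 ≤ (n : ℝ) * (h + G) := mul_nonneg (by linarith) (add_nonneg hH hG0)
    linarith
  -- off the arrangement
  have hoff : ∀ i, lin (cz (b i)) (cz x) ≠ 0 := by
    intro i h0
    have h1 : cz (b i) 0 + ∑ j, cz (b i) j.succ * y j = 0 := by
      have h2 : lin (cz (b i)) (cz x) = ((x 0 : 𝓞 K) : K) *
          (cz (b i) 0 + ∑ j, cz (b i) j.succ * y j) := by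
        unfold lin
        rw [Fin.sum_univ_succ, mul_add, Finset.mul_sum]
        congr 1
        · exact mul_comm _ _
        · refine Finset.sum_congr rfl fun j _ => ?_
          rw [hy]
          simp only
          have e1 : cz x j.succ = ((x j.succ : 𝓞 K) : K) := rfl
          rw [e1]
          field_simp
      rw [h2] at h0
      exact (mul_eq_zero.1 h0).resolve_left hx0'
    have h3 := hCh i y h1
    have h4 := hc0 i
    linarith
  -- the projective point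
  set Q : ℙ K (Fin (n + 1) → K) := Projectivization.mk K (cz x) hx with hQ
  obtain ⟨u, hu⟩ := Projectivization.exists_smul_eq_mk_rep K (cz x) hx
  have hu0 : ((u : Kˣ) : K) ≠ 0 := u.ne_zero
  have hu' : Q.rep = ((u : Kˣ) : K) • cz x := hu.symm
  have hQH : Q.mulHeight = mulHeight (cz x) := by
    rw [hQ, Projectivization.mulHeight_mk]
  have haff : aff Q = y := by
    funext j
    unfold Q273.MV.aff
    rw [hu', Pi.smul_apply, Pi.smul_apply, smul_eq_mul, smul_eq_mul]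
    show _ = ((x j.succ : 𝓞 K) : K) / ((x 0 : 𝓞 K) : K)
    have e1 : cz x j.succ = ((x j.succ : 𝓞 K) : K) := rfl
    have e2 : cz x 0 = ((x 0 : 𝓞 K) : K) := rfl
    rw [e1, e2]
    field_simp
  have hlin : ∀ i, lin (cz (b i)) Q.rep ≠ 0 := by
    intro i
    rw [hu', Pool.Agent.W232.VA.lin_smul_right]
    exact mul_ne_zero hu0 (hoff i)
  have hrep0 : Q.rep 0 ≠ 0 := by
    rw [hu', Pi.smul_apply, smul_eq_mul]
    exact mul_ne_zero hu0 hx0'
  obtain ⟨hl1, hl2, hl3⟩ := hloc x k hx hx0 hoff hk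
  have hrC : ∀ U : Finset (Fin r), ∑ l ∈ U, δ l * D - r * Cb ≤
      ∑ l ∈ U, (k l : ℝ) * Real.log (Nv (P l)) := by
    intro U
    have e1 := Finset.sum_le_sum fun l (_ : l ∈ U) => hk2 l
    rw [Finset.sum_sub_distrib, Finset.sum_const, nsmul_eq_mul] at e1
    have e2 : (U.card : ℝ) ≤ r := by
      have := Finset.card_le_univ U
      rw [Fintype.card_fin] at this
      exact_mod_cast this
    have e3 := mul_le_mul_of_nonneg_right e2 hCb
    linarith
  have hsumD : ∑ l, δ l * D = Δ * D := by rw [hΔdef, Finset.sum_mul]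
  -- height is large
  have hHlarge : H0 < h := by
    by_contra hcon
    push Not at hcon
    have h1 : (n : ℝ) * prA V p (aff Q) ≤ p0 := hp0 Q hlin (by rw [hQH]; exact hcon)
    rw [haff] at h1
    linarith
  have hHγ : (M + 2) * C ≤ γ * h := by
    have h1 : (M + 2) * C / γ ≤ h := ((le_max_left _ _).trans (le_max_left _ _)).trans hHlarge.le
    rw [div_le_iff₀ hγ0] at h1
    linarith
  have hHB : B ≤ h := ((le_max_right _ _).trans (le_max_left _ _)).trans hHlarge.le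
  have hHε : 2 * (κ * (C1 + (M + 3) * C)) ≤ ε * h := by
    have h1 : 2 * (κ * (C1 + (M + 3) * C)) / ε ≤ h := (le_max_right _ _).trans hHlarge.le
    rw [div_le_iff₀ hε] at h1
    linarith
  -- the law applies
  have hgs0 : 0 ≤ ∑ v ∈ V, g v := Finset.sum_nonneg hg0
  have hDh : h - C ≤ D := by
    have e1 : 0 ≤ ∑ w, f w := Finset.sum_nonneg hf0
    rw [hfs] at e1
    have e4 : (n * d : ℝ) * Cb ≤ C := by rw [hCexp]; linarith
    by_contra hcon
    push Not at hcon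
    have e5 : D - (h + G + ∑ v ∈ V, g v) ≤ -C := by linarith
    have e6 : (n : ℝ) * (D - (h + G + ∑ v ∈ V, g v)) ≤ n * (-C) :=
      mul_le_mul_of_nonneg_left e5 (by linarith)
    have e7 : (n : ℝ) * (D - (h + G + ∑ v ∈ V, g v)) < -C := by
      have e8 : D - (h + G + ∑ v ∈ V, g v) < -C := by linarith
      have e9 : (n : ℝ) * (D - (h + G + ∑ v ∈ V, g v)) < n * (-C) :=
        mul_lt_mul_of_pos_left e8 (by linarith)
      have e10 : (n : ℝ) * (-C) ≤ -C := by nlinarith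
      linarith
    linarith
  have happ : ((n : ℝ) + 1 - κ0 + ε1) * h ≤ n * prA V p y := by
    have h2 : (1 - Δ) * (h - C) ≤ (1 - Δ) * D := mul_le_mul_of_nonneg_left hDh h1Δ.le
    have h3 : ε1 * h ≤ γ * h := mul_le_mul_of_nonneg_right (min_le_right _ _) hH
    have h4 : 0 ≤ Δ * C := mul_nonneg hΔ0 hC0
    have h5 : 0 ≤ (n : ℝ) * G := mul_nonneg (by linarith) hG0
    have h6 : γ * h + γ * h = (κ0 - Δ) * h := by rw [hγ]; ring
    have h7 : (1 - Δ) * D + n * h - (M + 1) * C ≤ n * prA V p y := by linarith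
    have h9 : ((n : ℝ) + 1 - κ0 + ε1) * h = n * h + h - κ0 * h + ε1 * h := by ring
    have h10 : (1 - Δ) * (h - C) = h - Δ * h - C + Δ * C := by ring
    have h11 : (M + 2) * C = (M + 1) * C + C := by ring
    have h12 : (κ0 - Δ) * h = κ0 * h - Δ * h := by ring
    rw [h9]
    linarith
  have hff := hC1' Q hlin hrep0 (by rw [hQH, haff]; exact happ)
  rw [hQH, haff, n_prA] at hff
  have hfin : ∑ w ∈ (univ : Finset (InfinitePlace K)), Pw w + ∑ v ∈ V, Qv v + L Q ≤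
      ((n : ℝ) + 1 + ε1) * h + C1 := hff.trans (by
    have := le_max_left C1' 0
    linarith)
  have hc : Δ * D - G - C ≤ L Q := by
    have e1 := hrC univ
    rw [hsumD] at e1
    rw [hCexp]
    linarith
  obtain ⟨r1, r2, r3, r4⟩ := num3 (univ : Finset (InfinitePlace K)) V (n := (n : ℝ)) (f := f)
    (g := g) hnr hH hG0 hC0 hC10 hε10.le hΔ0 (fun w _ => hτ w) (fun v _ => hσ v) hf0 hg0 hsum
    (by rw [hCexp]; linarith) hfs hPwl hQvl hc hfin _ rfl
  have hfinal : (((univ : Finset (InfinitePlace K)).card : ℝ) + V.card + 3) * (2 * n + 3) *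
      (ε1 * h + C1 + (((univ : Finset (InfinitePlace K)).card : ℝ) + V.card + 3) * C) ≤
      ε * h := by
    have e1 : (((univ : Finset (InfinitePlace K)).card : ℝ) + V.card + 3) * (2 * n + 3) = κ := rfl
    rw [e1]
    have e2 : ((univ : Finset (InfinitePlace K)).card : ℝ) + V.card + 3 = M + 3 := rfl
    rw [e2]
    have h1 : ε1 * h ≤ ε / (2 * κ) * h := mul_le_mul_of_nonneg_right (min_le_left _ _) hH
    have h2 : κ * (ε / (2 * κ) * h) = ε / 2 * h := by
      field_simp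
    have h3 := mul_le_mul_of_nonneg_left h1 hκ0.le
    have h4 : κ * (ε1 * h + C1 + (M + 3) * C) = κ * (ε1 * h) + κ * (C1 + (M + 3) * C) := by ring
    rw [h4]
    linarith
  refine ⟨Q, hlin, hrep0, by rw [hQH]; exact hHB, fun w => ?_, fun v hv => ?_, ?_, fun i => ?_⟩
  · rw [hQH, haff]
    exact (r1 w (Finset.mem_univ w)).trans hfinal
  · rw [hQH, haff]
    exact (r2 v hv).trans hfinal
  · rw [hQH]
    exact r3.trans hfinal
  · rw [hQH]
    refine (r4 (δ i) _ (hδ i) (hδΔ i) ?_ ?_).trans hfinal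
    · have e1 := hl2 i
      have e2 := hk2 i
      have e3 : (0 : ℝ) ≤ r * Cb := hrCb
      rw [hCexp]
      linarith
    · have e1 := hl3 i
      have e2 := hrC (univ.erase i)
      have e3 : ∑ l ∈ univ.erase i, δ l * D = Δ * D - δ i * D := by
        rw [← hsumD, ← Finset.add_sum_erase univ (fun l => δ l * D) (Finset.mem_univ i)]
        ring
      have e4 : (Δ - δ i) * D = Δ * D - δ i * D := by ring
      rw [hCexp, e4]
      linarith

lemma locAt_arr (S : Finset (HeightOneSpectrum (𝓞 K))) (b : Fin r → Fin (n + 1) → 𝓞 K)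
    (hb : ∀ i, cz (b i) ≠ 0) (hd : ∀ i l, i ≠ l → ∀ c : K, cz (b i) ≠ c • cz (b l))
    (P : Fin r → HeightOneSpectrum (𝓞 K))
    (hP : Function.Injective P) (V : Finset (HeightOneSpectrum (𝓞 K))) (hPV : ∀ i, P i ∉ V) :
    LocAt b (fun Q => hW (fun i => cz (b i)) Q.rep - N1 S (fun i => cz (b i)) Q.rep)
      (fun i Q => Real.log Q.mulHeight - N1 S (fun _ : Fin 1 => cz (b i)) Q.rep) P V := by
  obtain ⟨C, hC, h⟩ := locV S b hb hd P hP V hPV
  refine ⟨C, hC, fun x k hx _ hl hk => ?_⟩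
  obtain ⟨h1, h2, h3⟩ := h x k hx hl hk
  obtain ⟨u, hu⟩ := Projectivization.exists_smul_eq_mk_rep K (cz x) hx
  have hu0 : ((u : Kˣ) : K) ≠ 0 := u.ne_zero
  have hu' : (Projectivization.mk K (cz x) hx).rep = ((u : Kˣ) : K) • cz x := hu.symm
  obtain ⟨hN1, hW1⟩ := transfer S (a := fun i => cz (b i)) (b := fun i => cz (b i)) (s := 1)
    one_ne_zero hu0 (fun i => (one_smul K _).symm) hu'
  have hN1i : ∀ i, N1 S (fun _ : Fin 1 => cz (b i)) (Projectivization.mk K (cz x) hx).rep =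
      N1 S (fun _ : Fin 1 => cz (b i)) (cz x) := fun i =>
    (transfer S (a := fun _ : Fin 1 => cz (b i)) (b := fun _ : Fin 1 => cz (b i)) (s := 1)
      one_ne_zero hu0 (fun i => (one_smul K _).symm) hu').1
  simp only [Projectivization.mulHeight_mk, hN1, hW1, hN1i]
  exact ⟨h1, h2, h3⟩

end Q273.AD
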