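import Pool.Agent.Q273.MV.Loc2
import Pool.Agent.Q273.MV.Low

/-!
# Statements of the lemmas of the project AD (the metric Vojta law for almost every adele)
-/

set_option autoImplicit false

open MeasureTheory NumberField NumberField.mixedEmbedding
open IsDedekindDomain Pool.Agent.H691R3 Pool.Agent.W232.VA

namespace Q273.AD

/-- the integral finite adelic vectors with `n` coordinates: for every prime `v` of `K` a vector
with `n` coordinates in the ring of integers of the completion at `v` (with the product topology) -/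
abbrev FinAd (K : Type) [Field K] [NumberField K] (n : ℕ) : Type :=
  (v : HeightOneSpectrum (𝓞 K)) → Fin n → v.adicCompletionIntegers K

/-- the proximity function at the prime `v`: `log max (1, 1 / max_j |z_j - y_j|_v)` -/
noncomputable def pv {K : Type} [Field K] [NumberField K] {n : ℕ} (v : HeightOneSpectrum (𝓞 K))
    (z : Fin n → v.adicCompletionIntegers K) (y : Fin n → K) : ℝ :=
  Real.log (max 1 (⨆ j, ‖(z j : v.adicCompletion K) - FinitePlace.embedding v (y j)‖)⁻¹)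

/-- the proximity function at the infinite place `w` (without multiplicity) -/
noncomputable def pw {K : Type} [Field K] [NumberField K] {n : ℕ} (ξ : Fin n → mixedSpace K)
    (w : InfinitePlace K) (y : Fin n → K) : ℝ :=
  Real.log (max 1 (⨆ j, normAtPlace w (ξ j - mixedEmbedding K (y j)))⁻¹)

/-- job BALL: the measure of a finite intersection of balls -/
def S_BALL : Prop :=
  ∀ (K : Type) [Field K] [NumberField K] (n : ℕ) [MeasurableSpace (FinAd K n)]
    [BorelSpace (FinAd K n)] (μ : Measure (FinAd K n)) [IsFiniteMeasure μ] [μ.IsAddLeftInvariant]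
    (V : Finset (HeightOneSpectrum (𝓞 K))) (y : Fin n → K) (k : HeightOneSpectrum (𝓞 K) → ℕ),
    μ {η : FinAd K n | ∀ v ∈ V, ∀ j,
        ‖(η v j : v.adicCompletion K) - FinitePlace.embedding v (y j)‖ ≤ ((Nv v) ^ (k v))⁻¹} ≤
      μ Set.univ * ENNReal.ofReal (∏ v ∈ V, ((Nv v) ^ (n * k v))⁻¹)

/-- job PVM: measurability of the proximity function -/
def S_PVM : Prop :=
  ∀ (K : Type) [Field K] [NumberField K] (n : ℕ), 1 ≤ n → ∀ [MeasurableSpace (FinAd K n)]
    [BorelSpace (FinAd K n)] (v : HeightOneSpectrum (𝓞 K)) (y : Fin n → K),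
    Measurable fun η : FinAd K n => pv v (η v) y

/-- job FINT: the product of the local factors is integrable, uniformly in the point -/
def S_FINT : Prop :=
  ∀ (K : Type) [Field K] [NumberField K] (n : ℕ), 1 ≤ n → ∀ [MeasurableSpace (FinAd K n)]
    [BorelSpace (FinAd K n)] (μ : Measure (FinAd K n)) [IsFiniteMeasure μ] [μ.IsAddLeftInvariant]
    (V : Finset (HeightOneSpectrum (𝓞 K))) (ε : ℝ), 0 < ε → ε < 1 → ∃ C : ENNReal, C ≠ ⊤ ∧
      ∀ y : Fin n → K, ∫⁻ η : FinAd K n, ENNReal.ofReal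
        (Real.exp ((n : ℝ) * (1 - ε) * ∑ v ∈ V, pv v (η v) y)) ∂μ ≤ C

open scoped Classical in
/-- job FAE: countably many points with summable weights, almost every adelic point -/
def S_FAE : Prop :=
  ∀ (K : Type) [Field K] [NumberField K] (n : ℕ), 1 ≤ n → ∀ [MeasurableSpace (FinAd K n)]
    [BorelSpace (FinAd K n)] (μ : Measure (FinAd K n)) [IsFiniteMeasure μ] [μ.IsAddLeftInvariant]
    (V : Finset (HeightOneSpectrum (𝓞 K))) (ε : ℝ), 0 < ε → ε < 1 →
    ∀ (ι : Type) [Countable ι] (y : ι → Fin n → K) (W : ι → ℝ), (∀ i, 0 ≤ W i) → Summable W →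
      ∀ᵐ p : (Fin n → mixedSpace K) × FinAd K n ∂(volume.prod μ), ∃ C : ℝ, ∀ i,
        W i * Real.exp ((n : ℝ) * (1 - ε) *
          (Q273.MV.prox p.1 (y i) + ∑ v ∈ V, pv v (p.2 v) (y i))) ≤ C

/-- job FGEN: almost every finite adelic vector lies on no hyperplane over `K` at any prime -/
def S_FGEN : Prop :=
  ∀ (K : Type) [Field K] [NumberField K] (n : ℕ) [MeasurableSpace (FinAd K n)]
    [BorelSpace (FinAd K n)] (μ : Measure (FinAd K n)) [IsFiniteMeasure μ] [μ.IsAddLeftInvariant],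
    ∀ᵐ η : FinAd K n ∂μ, ∀ (v : HeightOneSpectrum (𝓞 K)) (b : Fin (n + 1) → K), b ≠ 0 →
      FinitePlace.embedding v (b 0) +
        ∑ j : Fin n, FinitePlace.embedding v (b j.succ) * (η v j : v.adicCompletion K) ≠ 0

/-- job FAPX: the ring of integers is dense in the integers of the completion -/
def S_FAPX : Prop :=
  ∀ (K : Type) [Field K] [NumberField K] (v : HeightOneSpectrum (𝓞 K))
    (z : v.adicCompletionIntegers K) (k : ℕ), ∃ a : 𝓞 K,
    ‖(z : v.adicCompletion K) - FinitePlace.embedding v (a : K)‖ ≤ ((Nv v) ^ k)⁻¹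

/-- job HYPV: the points of a hyperplane stay away from a generic point, at a prime -/
def S_HYPV : Prop :=
  ∀ (K : Type) [Field K] [NumberField K] (n : ℕ), 1 ≤ n →
    ∀ (v : HeightOneSpectrum (𝓞 K)) (z : Fin n → v.adicCompletionIntegers K)
      (b : Fin (n + 1) → K),
    FinitePlace.embedding v (b 0) +
        ∑ j : Fin n, FinitePlace.embedding v (b j.succ) * (z j : v.adicCompletion K) ≠ 0 →
    ∃ C : ℝ, ∀ y : Fin n → K, b 0 + ∑ j, b j.succ * y j = 0 → pv v z y ≤ C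

/-- job HYPW: the same at an infinite place -/
def S_HYPW : Prop :=
  ∀ (K : Type) [Field K] [NumberField K] (n : ℕ), 1 ≤ n →
    ∀ (ξ : Fin n → mixedSpace K) (b : Fin (n + 1) → K) (w : InfinitePlace K),
    normAtPlace w (Q273.MV.linX b ξ) ≠ 0 →
    ∃ C : ℝ, ∀ y : Fin n → K, b 0 + ∑ j, b j.succ * y j = 0 → pw ξ w y ≤ C

/-- job PIG3: pigeonhole in `𝓞 K ^ (n + 1)` with a box of any shape; `A` is a finite quotient -/
def S_PIG3 : Prop :=
  ∀ (K : Type) [Field K] [NumberField K] (n : ℕ) (ξ : Fin n → mixedSpace K),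
    ∃ C : ℝ, 1 ≤ C ∧ ∀ (A : Type) [AddCommGroup A] [Finite A]
      (φ : (Fin (n + 1) → 𝓞 K) →+ A) (X : ℝ) (Y : InfinitePlace K → ℝ), 1 ≤ X →
      (∀ w, 0 < Y w) → (∀ w, Y w ≤ X) →
      C * (∏ w : InfinitePlace K, (X / Y w) ^ (n * w.mult)) * (Nat.card A : ℝ) ≤
        X ^ (Module.finrank ℚ K * (n + 1)) →
      ∃ x : Fin (n + 1) → 𝓞 K, x ≠ 0 ∧ φ x = 0 ∧
        (∀ w : InfinitePlace K, w ((x 0 : 𝓞 K) : K) ≤ C * X) ∧
        ∀ (w : InfinitePlace K) (j : Fin n),
          normAtPlace w (mixedEmbedding K ((x 0 : 𝓞 K) : K) * ξ j -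
            mixedEmbedding K ((x j.succ : 𝓞 K) : K)) ≤ C * Y w

/-- job ZERO: an integral element which is divisible and small -/
def S_ZERO : Prop :=
  ∀ (K : Type) [Field K] [NumberField K] (z : 𝓞 K), z ≠ 0 →
    ∀ (V : Finset (HeightOneSpectrum (𝓞 K))) (m : HeightOneSpectrum (𝓞 K) → ℕ)
      (Y : InfinitePlace K → ℝ), (∀ v ∈ V, z ∈ v.asIdeal ^ (m v)) → (∀ w, 0 < Y w) →
      (∀ w : InfinitePlace K, w (z : K) ≤ Y w) →
      ∑ v ∈ V, (m v : ℝ) * Real.log (Nv v) ≤
        ∑ w : InfinitePlace K, (w.mult : ℝ) * Real.log (Y w)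

/-- job LOCV: the proximity at a prime of a vector with a congruence -/
def S_LOCV : Prop :=
  ∀ (K : Type) [Field K] [NumberField K] (n : ℕ), 1 ≤ n →
    ∀ (v : HeightOneSpectrum (𝓞 K)) (z : Fin n → v.adicCompletionIntegers K),
    (∀ (y : K) (j : Fin n), (z j : v.adicCompletion K) ≠ FinitePlace.embedding v y) →
    ∀ (a : Fin n → 𝓞 K) (m : ℕ) (x : Fin (n + 1) → 𝓞 K), x 0 ≠ 0 →
      (∀ j, ‖(z j : v.adicCompletion K) - FinitePlace.embedding v (a j : K)‖ ≤ ((Nv v) ^ m)⁻¹) →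
      (∀ j : Fin n, x j.succ - a j * x 0 ∈ v.asIdeal ^ m) →
      (m : ℝ) * Real.log (Nv v) + Q273.MV.lg v (cz x) ≤
        pv v z (fun j => ((x j.succ : 𝓞 K) : K) / ((x 0 : 𝓞 K) : K))

/-- job ARCH3: the archimedean estimates at the single places -/
def S_ARCH3 : Prop :=
  ∀ (K : Type) [Field K] [NumberField K] (n : ℕ), 1 ≤ n → ∀ (ξ : Fin n → mixedSpace K),
    (∀ (w : InfinitePlace K) (j : Fin n) (y : K), normAtPlace w (ξ j - mixedEmbedding K y) ≠ 0) →
    ∃ C : ℝ, 0 ≤ C ∧ ∀ x : Fin (n + 1) → 𝓞 K, x 0 ≠ 0 →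
      ∀ (X : ℝ) (Y : InfinitePlace K → ℝ), (∀ w, 0 < Y w) → (∀ w, Y w ≤ X) →
      (∀ w : InfinitePlace K, w ((x 0 : 𝓞 K) : K) ≤ X) →
      (∀ (w : InfinitePlace K) (j : Fin n),
        normAtPlace w (mixedEmbedding K ((x 0 : 𝓞 K) : K) * ξ j -
          mixedEmbedding K ((x j.succ : 𝓞 K) : K)) ≤ Y w) →
      ∀ w : InfinitePlace K,
        Real.log (⨆ j, w (cz x j)) ≤ Real.log X + C ∧
        Real.log (⨆ j, w (cz x j)) - Real.log (Y w) - C ≤
          pw ξ w (fun j => ((x j.succ : 𝓞 K) : K) / ((x 0 : 𝓞 K) : K))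

end Q273.AD
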