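import Pool.Agent.Q273.AD.AbcK3

/-!
# Transfer from `K ⊗ ℝ` and the product of the rings `O_v`
-/

set_option autoImplicit false
set_option linter.unusedSectionVars false

namespace Q273.AD

open MeasureTheory NumberField IsDedekindDomain Finset Pool.Agent.H691R3 Height
open Pool.Agent.W232.VA NumberField.mixedEmbedding NumberField.InfinitePlace

variable {K : Type} [Field K] [NumberField K]

/-- the product over all primes `v` of the rings `O_v`, with the product topology -/
abbrev FinA (K : Type) [Field K] [NumberField K] : Type :=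
  (v : HeightOneSpectrum (𝓞 K)) → v.adicCompletionIntegers K

/-- the same group with one more index -/
def Ph1 (η : FinA K) : FinAd K 1 := fun v _ => η v

theorem Ph1_cont : Continuous (Ph1 (K := K)) :=
  continuous_pi fun v => continuous_pi fun _ => continuous_apply v

theorem Ph1_inv [MeasurableSpace (FinA K)] [BorelSpace (FinA K)] (μ : Measure (FinA K))
    [μ.IsAddLeftInvariant] [MeasurableSpace (FinAd K 1)] [BorelSpace (FinAd K 1)] :
    (μ.map (Ph1 (K := K))).IsAddLeftInvariant := by
  refine ⟨fun g => ?_⟩
  set g' : FinA K := fun v => g v 0 with hg'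
  have hg : g = Ph1 g' := by
    funext v j
    rw [Subsingleton.elim j 0]
    rfl
  have h1 : Measurable (Ph1 (K := K)) := Ph1_cont.measurable
  have h2 : Measurable (fun x : FinAd K 1 => g + x) :=
    (continuous_const.add continuous_id).measurable
  have h3 : Measurable (fun x : FinA K => g' + x) :=
    (continuous_const.add continuous_id).measurable
  rw [Measure.map_map h2 h1]
  have h4 : (fun x : FinAd K 1 => g + x) ∘ Ph1 = Ph1 ∘ fun x : FinA K => g' + x := by
    funext x
    simp only [Function.comp, hg]
    rfl
  rw [h4, ← Measure.map_map h1 h3, map_add_left_eq_self]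

open scoped Classical in
theorem trk [MeasurableSpace (FinA K)] [BorelSpace (FinA K)] (μ : Measure (FinA K))
    [IsFiniteMeasure μ] [μ.IsAddLeftInvariant] :
    ∀ᵐ u : mixedSpace K × FinA K ∂(volume.prod μ), AllK3 ((fun _ => u.1, Ph1 u.2) :
      (Fin 1 → mixedSpace K) × FinAd K 1) := by
  letI : MeasurableSpace (FinAd K 1) := borel _
  haveI : BorelSpace (FinAd K 1) := ⟨rfl⟩
  haveI : (μ.map (Ph1 (K := K))).IsAddLeftInvariant := Ph1_inv μ
  have h1 := allK3 (K := K) (μ.map (Ph1 (K := K)))
  have h2 : MeasurePreserving (Ph1 (K := K)) μ (μ.map (Ph1 (K := K))) :=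
    ⟨Ph1_cont.measurable, rfl⟩
  have h0 : MeasurePreserving (fun (x : mixedSpace K) (_ : Fin 1) => x) volume volume :=
    (volume_preserving_funUnique (Fin 1) (mixedSpace K)).symm
  have h3 := h0.prod h2
  exact h3.quasiMeasurePreserving.ae h1

end Q273.AD
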