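import Pool.Agent.Q273.AD.Stm
import Pool.Agent.Q273.MV.Law
import Pool.Agent.Q273.MV.Trade2

/-!
# The upper law: thin sets of points have small proximity to almost every adelic point
-/

set_option autoImplicit false

namespace Q273.AD

open MeasureTheory NumberField NumberField.mixedEmbedding NumberField.InfinitePlace
open IsDedekindDomain Pool.Agent.W232.VA Pool.Agent.H691R3 Height LinearAlgebra.Projectivization
open Q273.MV

variable {K : Type} [Field K] [NumberField K] {n : ℕ}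

/-- the proximity function to an adelic point at all infinite places and at the primes in `V` -/
noncomputable def prA (V : Finset (HeightOneSpectrum (𝓞 K)))
    (p : (Fin n → mixedSpace K) × FinAd K n) (y : Fin n → K) : ℝ :=
  prox p.1 y + ∑ v ∈ V, pv v (p.2 v) y

open scoped Classical in
/-- a thin set of elements of an index type with a height -/
theorem up1A (hfae : S_FAE) (hn : 1 ≤ n) [MeasurableSpace (FinAd K n)] [BorelSpace (FinAd K n)]
    (μ : Measure (FinAd K n)) [IsFiniteMeasure μ] [μ.IsAddLeftInvariant]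
    {T : Type} [Countable T] (y : T → Fin n → K) (H : T → ℝ) (S : Set T)
    (hH : ∀ x ∈ S, 1 ≤ H x) {s : ℝ} (hs : 0 ≤ s)
    (hS : ∀ δ : ℝ, 0 < δ → ∃ C : ℝ, ∀ X : ℝ, 1 ≤ X → {x | x ∈ S ∧ H x ≤ X}.Finite ∧
      ({x | x ∈ S ∧ H x ≤ X}.ncard : ℝ) ≤ C * X ^ (s + δ)) :
    ∀ᵐ p : (Fin n → mixedSpace K) × FinAd K n ∂(volume.prod μ),
      ∀ V : Finset (HeightOneSpectrum (𝓞 K)), ∀ ε : ℝ, 0 < ε → ∃ C : ℝ, ∀ x ∈ S,
      (n : ℝ) * prA V p (y x) ≤ (s + ε) * Real.log (H x) + C := by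
  have hn0 : (0 : ℝ) < n := by exact_mod_cast hn
  have : Countable K := Q273.Apx.countable_numberField K
  have : Countable (HeightOneSpectrum (𝓞 K)) := Q273.Apx.countable_primes K
  have key : ∀ i : Finset (HeightOneSpectrum (𝓞 K)) × ℕ,
      ∀ᵐ p : (Fin n → mixedSpace K) × FinAd K n ∂(volume.prod μ), ∃ C : ℝ, ∀ x ∈ S,
      (n : ℝ) * prA i.1 p (y x) ≤ (s + 1 / ((i.2 : ℝ) + 1)) * Real.log (H x) + C := by
    rintro ⟨V, k⟩
    set ε : ℝ := 1 / ((k : ℝ) + 1) with hε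
    have hε0 : 0 < ε := by positivity
    obtain ⟨C, hC⟩ := hS (ε / 4) (by positivity)
    have hsum := Pool.Agent.Q61.MV.summ T S H (s + ε / 4) (s + ε / 2) C (by linarith)
      (by positivity) hH hC
    set η : ℝ := ε / 2 / (s + ε) with hη
    have hη0 : 0 < η := by positivity
    have hη1 : η < 1 := by
      rw [hη, div_lt_one (by positivity)]
      linarith
    have h1η : 1 - η = (s + ε / 2) / (s + ε) := by
      rw [hη]
      field_simp
      ring
    have h := hfae K n hn μ V η hη0 hη1 S (fun x => y x) (fun x => (H x) ^ (-(s + ε / 2)))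
      (fun x => Real.rpow_nonneg (zero_le_one.trans (hH x x.2)) _) hsum
    filter_upwards [h] with p hp
    obtain ⟨C', hC'⟩ := hp
    refine ⟨Real.log (max C' 1) / (1 - η), fun x hx => ?_⟩
    have h1 := hC' ⟨x, hx⟩
    have hHx : 1 ≤ H x := hH x hx
    have hHx0 : 0 < H x := by linarith
    have h2 : (H x) ^ (-(s + ε / 2)) * Real.exp ((n : ℝ) * (1 - η) * prA V p (y x)) ≤ max C' 1 :=
      h1.trans (le_max_left _ _)
    have h3 := Real.log_le_log (by positivity) h2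
    rw [Real.log_mul (Real.rpow_pos_of_pos hHx0 _).ne' (Real.exp_ne_zero _), Real.log_exp,
      Real.log_rpow hHx0] at h3
    have h1η0 : 0 < 1 - η := by linarith
    have h4 : (n : ℝ) * prA V p (y x) * (1 - η) ≤
        (s + ε / 2) * Real.log (H x) + Real.log (max C' 1) := by linarith
    have h5 : (n : ℝ) * prA V p (y x) ≤
        ((s + ε / 2) * Real.log (H x) + Real.log (max C' 1)) / (1 - η) := by
      rwa [le_div_iff₀ h1η0]
    refine h5.trans (le_of_eq ?_)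
    rw [add_div]
    congr 1
    rw [h1η]
    field_simp
  filter_upwards [ae_all_iff.2 key] with p hp
  intro V ε hε
  obtain ⟨k, hk⟩ := exists_nat_one_div_lt hε
  obtain ⟨C, hC⟩ := hp (V, k)
  refine ⟨C, fun x hx => (hC x hx).trans ?_⟩
  have h1 : 0 ≤ Real.log (H x) := Real.log_nonneg (hH x hx)
  have h2 : (s + 1 / ((k : ℝ) + 1)) * Real.log (H x) ≤ (s + ε) * Real.log (H x) :=
    mul_le_mul_of_nonneg_right (by linarith) h1
  linarith

/-- the upper law at an adelic point for one arrangement -/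
def LawAt (p : (Fin n → mixedSpace K) × FinAd K n) (S : Finset (HeightOneSpectrum (𝓞 K)))
    {r : ℕ} (a : Fin r → Fin (n + 1) → K) : Prop :=
  ∀ (V : Finset (HeightOneSpectrum (𝓞 K))) (ε : ℝ), 0 < ε → ∃ C : ℝ,
      ∀ P : ℙ K (Fin (n + 1) → K), (∀ i, lin (a i) P.rep ≠ 0) →
        (((n : ℝ) + 1 / 2 + ε) * Real.log P.mulHeight ≤ n * prA V p (aff P) ∨
          hW a P.rep - N1 S a P.rep ≤ 1 / 2 * Real.log P.mulHeight) →
        n * prA V p (aff P) + (hW a P.rep - N1 S a P.rep) ≤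
          ((n : ℝ) + 1 + ε) * Real.log P.mulHeight + C

open scoped Classical in
theorem lawA (hfae : S_FAE) (hn : 1 ≤ n) [MeasurableSpace (FinAd K n)] [BorelSpace (FinAd K n)]
    (μ : Measure (FinAd K n)) [IsFiniteMeasure μ] [μ.IsAddLeftInvariant] :
    ∀ᵐ p : (Fin n → mixedSpace K) × FinAd K n ∂(volume.prod μ),
      ∀ (r : ℕ) (a : Fin r → Fin (n + 1) → K), (∀ i, a i ≠ 0) →
      ∀ S : Finset (HeightOneSpectrum (𝓞 K)), LawAt p S a := by
  have : Countable K := Q273.Apx.countable_numberField K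
  have : Countable (HeightOneSpectrum (𝓞 K)) := Q273.Apx.countable_primes K
  have : Countable (ℙ K (Fin (n + 1) → K)) := by
    have h : Function.Surjective (fun v : {v : Fin (n + 1) → K // v ≠ 0} =>
        Projectivization.mk K v.1 v.2) := fun P => ⟨⟨P.rep, P.rep_nonzero⟩, P.mk_rep⟩
    exact h.countable
  let ι : Type := (Σ r : ℕ, {a : Fin r → Fin (n + 1) → K // ∀ i, a i ≠ 0}) ×
    Finset (HeightOneSpectrum (𝓞 K)) × {κ : ℚ // 0 ≤ κ ∧ κ ≤ 1 / 2}
  have key : ∀ i : ι, ∀ᵐ p : (Fin n → mixedSpace K) × FinAd K n ∂(volume.prod μ),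
      ∀ V : Finset (HeightOneSpectrum (𝓞 K)), ∀ ε : ℝ, 0 < ε → ∃ C : ℝ,
      ∀ P : ℙ K (Fin (n + 1) → K), ((∀ l, lin (i.1.2.1 l) P.rep ≠ 0) ∧
        N1 i.2.1 i.1.2.1 P.rep ≤ hW i.1.2.1 P.rep - ((i.2.2.1 : ℚ) : ℝ) * Real.log P.mulHeight + 0) →
        (n : ℝ) * prA V p (aff P) ≤
          ((n : ℝ) + 1 - ((i.2.2.1 : ℚ) : ℝ) + ε) * Real.log P.mulHeight + C := by
    rintro ⟨⟨r, a, ha⟩, S, κ, hκ0, hκ1⟩
    have hκ0' : (0 : ℝ) ≤ (κ : ℝ) := by exact_mod_cast hκ0
    have hκ1' : (κ : ℝ) ≤ 1 / 2 := by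
      have : ((κ : ℚ) : ℝ) ≤ ((1 / 2 : ℚ) : ℝ) := by exact_mod_cast hκ1
      simpa using this
    have hn0 : (0 : ℝ) ≤ n := Nat.cast_nonneg n
    refine up1A hfae hn μ aff (fun P => P.mulHeight) {P | (∀ l, lin (a l) P.rep ≠ 0) ∧
        N1 S a P.rep ≤ hW a P.rep - (κ : ℝ) * Real.log P.mulHeight + 0}
      (fun P _ => by rw [mulHeight_rep]; exact one_le_mulHeight P.rep) (by linarith)
      (fun δ hδ => ?_)
    obtain ⟨M, hM⟩ := main2 a ha S (κ : ℝ) 0 δ hκ0' hκ1' hδ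
    refine ⟨M, fun X hX => ?_⟩
    have hset : {P : ℙ K (Fin (n + 1) → K) | P ∈ {P : ℙ K (Fin (n + 1) → K) |
        (∀ l, lin (a l) P.rep ≠ 0) ∧
        N1 S a P.rep ≤ hW a P.rep - (κ : ℝ) * Real.log P.mulHeight + 0} ∧
        P.mulHeight ≤ X} = Exc S a (κ : ℝ) 0 X := by
      ext P
      constructor
      · rintro ⟨⟨h1, h2⟩, h3⟩
        exact ⟨h1, h3, h2⟩
      · rintro ⟨h1, h3, h2⟩
        exact ⟨⟨h1, h2⟩, h3⟩
    rw [hset]
    exact hM X hX
  filter_upwards [ae_all_iff.2 key] with p hp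
  intro r a ha S V
  have hn0 : (0 : ℝ) ≤ n := Nat.cast_nonneg n
  have hfin : ∀ B : ℝ, {P : ℙ K (Fin (n + 1) → K) | P ∈ {P : ℙ K (Fin (n + 1) → K) |
      ∀ i, lin (a i) P.rep ≠ 0} ∧ Real.log P.mulHeight ≤ B}.Finite := fun B => by
    obtain ⟨M, hM⟩ := main2 a ha S 0 0 1 le_rfl (by norm_num) one_pos
    refine (hM (max (Real.exp B) 1) (le_max_right _ _)).1.subset ?_
    rintro P ⟨h1, h2⟩
    refine ⟨h1, ?_, ?_⟩
    · refine le_trans ?_ (le_max_left _ _)
      have hpos : 0 < P.mulHeight := by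
        rw [mulHeight_rep]
        exact lt_of_lt_of_le one_pos (one_le_mulHeight P.rep)
      rw [← Real.log_le_iff_le_exp hpos]
      exact h2
    · have := loss_nonneg S ha P.rep_nonzero h1
      linarith
  have hup : ∀ j J : ℕ, 0 < J → j ≤ J → ∀ ε : ℝ, 0 < ε → ∃ C : ℝ,
      ∀ P ∈ {P : ℙ K (Fin (n + 1) → K) | ∀ i, lin (a i) P.rep ≠ 0},
      1 / 2 * ((j : ℝ) / J) * Real.log P.mulHeight ≤ hW a P.rep - N1 S a P.rep →
      (n : ℝ) * prA V p (aff P) ≤
        ((n : ℝ) + 1 - 1 / 2 * ((j : ℝ) / J) + ε) * Real.log P.mulHeight + C := by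
    intro j J hJ hj ε hε
    have hJ0 : (0 : ℚ) < J := by exact_mod_cast hJ
    obtain ⟨C, hC⟩ := hp ⟨⟨r, a, ha⟩, S, ⟨1 / 2 * ((j : ℚ) / J), by positivity, by
      have h1 : (j : ℚ) / J ≤ 1 := by
        rw [div_le_one hJ0]
        exact_mod_cast hj
      linarith⟩⟩ V ε hε
    refine ⟨C, fun P hP hle => ?_⟩
    have h2 := hC P ⟨hP, by
      push_cast
      linarith⟩
    push_cast at h2
    exact h2
  have h := tradeoff (fun P : ℙ K (Fin (n + 1) → K) => Real.log P.mulHeight)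
    (fun P => hW a P.rep - N1 S a P.rep) (fun P => (n : ℝ) * prA V p (aff P))
    {P | ∀ i, lin (a i) P.rep ≠ 0} (n0 := (n : ℝ) + 1) (κ0 := 1 / 2) (by linarith) (by norm_num)
    (fun P hP => loss_nonneg S ha P.rep_nonzero hP) (fun P _ => log_mulHeight_nonneg P)
    hfin hup
  have h' := tradeoff2 (fun P : ℙ K (Fin (n + 1) → K) => Real.log P.mulHeight)
    (fun P => hW a P.rep - N1 S a P.rep) (fun P => (n : ℝ) * prA V p (aff P))
    {P | ∀ i, lin (a i) P.rep ≠ 0} (n0 := (n : ℝ) + 1) (κ0 := 1 / 2) (by norm_num)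
    (fun P hP => loss_nonneg S ha P.rep_nonzero hP) (fun P _ => log_mulHeight_nonneg P)
    hup 0
  intro ε hε
  obtain ⟨C, hC⟩ := h ε hε
  obtain ⟨C', hC'⟩ := h' ε hε
  refine ⟨max C C', fun P hP hle => ?_⟩
  rcases hle with hle | hle
  · refine (hC P hP (le_trans (le_of_eq ?_) hle)).trans ?_
    · ring
    · have := le_max_left C C'
      linarith
  · refine (hC' P hP ?_).trans ?_
    · rw [add_zero]
      exact hle
    · have := le_max_right C C'
      linarith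

end Q273.AD
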